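import Pool.Agent.H865.TS.Nf2

/-!
# The constants of the action
-/

set_option autoImplicit false
set_option linter.unusedSectionVars false
set_option linter.unusedVariables false

namespace Pool.Agent.H865.TS

open Module Pool.Agent.K3h75.TO Pool.Agent.H865.TT Pool.Agent.H918R2.Quad
  Polynomial IsDedekindDomain

/-- the compositum -/
noncomputable def Bf (K₀ M F : Type) [Field K₀] [Field M] [Field F] [Algebra K₀ F]
    [Algebra M F] : IntermediateField K₀ F :=
  IntermediateField.adjoin K₀ (Set.range (algebraMap M F))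

section al

variable {E M K₀ F : Type} [Field E] [Field M] [Algebra E M] [FiniteDimensional E M]
  [IsGalois E M] [Field K₀] [Algebra E K₀] [Field F] [Algebra E F] [Algebra K₀ F] [Algebra M F]
  [IsScalarTower E K₀ F] [IsScalarTower E M F]

theorem mem_Bf_M (c : M) : algebraMap M F c ∈ Bf K₀ M F :=
  IntermediateField.subset_adjoin K₀ _ ⟨c, rfl⟩

theorem mem_Bf_K (a : K₀) : algebraMap K₀ F a ∈ Bf K₀ M F := (Bf K₀ M F).algebraMap_mem a

variable (E) in
include E in
theorem Bf_toAlg : (Bf K₀ M F).toSubalgebra = Algebra.adjoin K₀ (Set.range (algebraMap M F)) := by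
  unfold Bf
  refine IntermediateField.adjoin_toSubalgebra_of_isAlgebraic ?_
  rintro _ ⟨c, rfl⟩
  have h1 : IsAlgebraic E (algebraMap M F c) :=
    (Algebra.IsAlgebraic.isAlgebraic (R := E) c).algebraMap
  exact h1.extendScalars (algebraMap E K₀).injective

/-- expansion with respect to a basis -/
theorem Bf_exp {ι : Type} [Fintype ι] (b : Basis ι E M) {x : F} (hx : x ∈ Bf K₀ M F) :
    ∃ k : ι → K₀, x = ∑ i, algebraMap K₀ F (k i) * algebraMap M F (b i) := by
  classical
  have h1 : x ∈ Algebra.adjoin K₀ (Set.range (algebraMap M F)) := by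
    rw [← Bf_toAlg E]
    exact hx
  have h2 : ∀ c : M, ∃ k : ι → K₀,
      algebraMap M F c = ∑ i, algebraMap K₀ F (k i) * algebraMap M F (b i) := by
    intro c
    refine ⟨fun i => algebraMap E K₀ (b.repr c i), ?_⟩
    conv_lhs => rw [← b.sum_repr c]
    rw [map_sum]
    refine Finset.sum_congr rfl fun i _ => ?_
    rw [Algebra.smul_def, map_mul, ← IsScalarTower.algebraMap_apply E M F,
      ← IsScalarTower.algebraMap_apply E K₀ F]
  have h3 : Algebra.adjoin K₀ (Set.range (algebraMap M F)) =
      Algebra.adjoin K₀ ((algebraMap M F).range : Set F) := by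
    rw [RingHom.coe_range]
  have h4 : x ∈ Submodule.span K₀ (Set.range (algebraMap M F)) := by
    have h5 : (Submonoid.closure (Set.range (algebraMap M F)) : Set F) =
        Set.range (algebraMap M F) := by
      have h6 : Set.range (algebraMap M F) =
          ((MonoidHom.mrange (algebraMap M F : M →* F) : Submonoid F) : Set F) := rfl
      rw [h6, Submonoid.closure_eq]
    have h7 : x ∈ (Algebra.adjoin K₀ (Set.range (algebraMap M F))).toSubmodule := h1
    rw [Algebra.adjoin_eq_span, h5] at h7
    exact h7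
  clear h1 hx
  induction h4 using Submodule.span_induction with
  | mem x hx =>
    obtain ⟨c, rfl⟩ := hx
    exact h2 c
  | zero => exact ⟨0, by simp⟩
  | add x y _ _ hx hy =>
    obtain ⟨k, rfl⟩ := hx
    obtain ⟨k', rfl⟩ := hy
    refine ⟨k + k', ?_⟩
    rw [← Finset.sum_add_distrib]
    exact Finset.sum_congr rfl fun i _ => by rw [Pi.add_apply, map_add, add_mul]
  | smul a x _ hx =>
    obtain ⟨k, rfl⟩ := hx
    refine ⟨fun i => a * k i, ?_⟩
    rw [Finset.smul_sum]
    exact Finset.sum_congr rfl fun i _ => by rw [Algebra.smul_def, map_mul, mul_assoc]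

/-- **Constants.** -/
theorem mem_M_of_alg (ρ : (M ≃ₐ[E] M) →* (F ≃+* F))
    (hρM : ∀ g c, ρ g (algebraMap M F c) = algebraMap M F (g c))
    (hρK : ∀ g (a : K₀), ρ g (algebraMap K₀ F a) = algebraMap K₀ F a)
    (halg : ∀ a : K₀, IsAlgebraic E a → ∃ e : E, algebraMap E K₀ e = a) {x : F}
    (hx : x ∈ Bf K₀ M F) (hxa : IsAlgebraic E x) : ∃ c : M, algebraMap M F c = x := by
  classical
  let b := Module.finBasis E M
  obtain ⟨k, hk⟩ := Bf_exp b hx
  let b' := (Algebra.traceForm E M).dualBasis (traceForm_nondegenerate E M) b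
  have htr : ∀ i j, Algebra.trace E M (b' i * b j) = if j = i then 1 else 0 := by
    intro i j
    exact LinearMap.BilinForm.apply_dualBasis_left (traceForm_nondegenerate E M) b i j
  have hρE : ∀ g (a : E), ρ g (algebraMap E F a) = algebraMap E F a := fun g a => by
    rw [IsScalarTower.algebraMap_apply E K₀ F, hρK]
  have hsum : ∀ i, ∑ g, ρ g (x * algebraMap M F (b' i)) = algebraMap K₀ F (k i) := by
    intro i
    have h1 : ∀ g, ρ g (x * algebraMap M F (b' i)) =
        ∑ j, algebraMap K₀ F (k j) * algebraMap M F (g (b' i * b j)) := by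
      intro g
      conv_lhs => rw [hk]
      rw [Finset.sum_mul, map_sum]
      refine Finset.sum_congr rfl fun j _ => ?_
      rw [map_mul, map_mul, hρK, hρM, hρM, mul_assoc, ← map_mul, ← map_mul, mul_comm (b j)]
    simp only [h1]
    rw [Finset.sum_comm]
    have h2 : ∀ j, ∑ g : M ≃ₐ[E] M, algebraMap K₀ F (k j) * algebraMap M F (g (b' i * b j)) =
        algebraMap K₀ F (k j) * algebraMap E F (if j = i then 1 else 0) := by
      intro j
      rw [← Finset.mul_sum, ← map_sum, ← trace_eq_sum_automorphisms, htr,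
        ← IsScalarTower.algebraMap_apply E M F]
    simp only [h2]
    rw [Finset.sum_eq_single i]
    · rw [if_pos rfl, map_one, mul_one]
    · intro j _ hj
      rw [if_neg hj, map_zero, mul_zero]
    · intro h
      exact absurd (Finset.mem_univ i) h
  have hka : ∀ i, IsAlgebraic E (k i) := by
    intro i
    have h1 : IsAlgebraic E (algebraMap K₀ F (k i)) := by
      rw [← hsum i, isAlgebraic_iff_isIntegral]
      refine IsIntegral.sum _ fun g _ => ?_
      rw [← isAlgebraic_iff_isIntegral]
      have h2 : IsAlgebraic E (x * algebraMap M F (b' i)) :=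
        hxa.mul (Algebra.IsAlgebraic.isAlgebraic (R := E) (b' i)).algebraMap
      let f : F →ₐ[E] F := { toRingHom := (ρ g : F →+* F), commutes' := fun a => hρE g a }
      exact h2.algHom f
    exact (isAlgebraic_algebraMap_iff (algebraMap K₀ F).injective).1 h1
  choose e he using fun i => halg (k i) (hka i)
  refine ⟨∑ i, e i • b i, ?_⟩
  rw [hk, map_sum]
  refine Finset.sum_congr rfl fun i _ => ?_
  rw [Algebra.smul_def, map_mul, ← he, ← IsScalarTower.algebraMap_apply E M F,
    ← IsScalarTower.algebraMap_apply E K₀ F]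

end al

end Pool.Agent.H865.TS
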