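import Pool.Agent.H865.TS.Ver

/-!
# Finitely many bases
-/

set_option autoImplicit false
set_option linter.unusedSectionVars false
set_option linter.unusedVariables false

namespace Pool.Agent.H865.TS

open Module Pool.Agent.H918R2.Quad

section bd

variable {Λ : Type} [AddCommGroup Λ] [Module.Free ℤ Λ] [Module.Finite ℤ Λ]

/-- Finitely many bases consist of differences of elements of a finite set. -/
theorem finite_difB (P : Finset Λ) : {b : Basis (Fin (finrank ℤ Λ)) ℤ Λ | DifB P b}.Finite := by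
  classical
  let D : Finset Λ := (P ×ˢ P).image fun p => p.1 - p.2
  have h1 : (Set.univ.pi fun _ : Fin (finrank ℤ Λ) => (D : Set Λ)).Finite :=
    Set.Finite.pi fun _ => D.finite_toSet
  refine Set.Finite.of_finite_image (f := fun b : Basis (Fin (finrank ℤ Λ)) ℤ Λ =>
    (fun l => b l)) (h1.subset ?_) ?_
  · rintro _ ⟨b, hb, rfl⟩ l -
    obtain ⟨κ, hκ, κ', hκ', h⟩ := hb l
    exact Finset.mem_coe.2 (Finset.mem_image.2 ⟨(κ, κ'), Finset.mem_product.2 ⟨hκ, hκ'⟩, h.symm⟩)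
  · intro b _ b' _ h
    exact Basis.eq_of_apply_eq fun l => congrFun h l

theorem finrank_of_basis {N : ℕ} (b : Basis (Fin N) ℤ Λ) : N = finrank ℤ Λ := by
  rw [finrank_eq_card_basis b, Fintype.card_fin]

/-- A bound for the coordinates. -/
theorem exists_bd (P : Finset Λ) {G : Set Λ} (hG : G.Finite) : ∃ C : ℕ, ∀ (N : ℕ)
    (b : Basis (Fin N) ℤ Λ), DifB P b → ∀ g ∈ G, ∀ l, |b.repr g l| ≤ C := by
  classical
  set S := (finite_difB P).toFinset
  refine ⟨∑ b ∈ S, ∑ g ∈ hG.toFinset, ∑ l, (b.repr g l).natAbs, ?_⟩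
  intro N b hb g hg l
  obtain rfl := finrank_of_basis b
  have h1 : b ∈ S := (finite_difB P).mem_toFinset.2 hb
  have h2 : (b.repr g l).natAbs ≤ ∑ b ∈ S, ∑ g ∈ hG.toFinset, ∑ l, (b.repr g l).natAbs := by
    calc (b.repr g l).natAbs ≤ ∑ l, (b.repr g l).natAbs :=
          Finset.single_le_sum (f := fun l => (b.repr g l).natAbs) (fun _ _ => Nat.zero_le _)
            (Finset.mem_univ l)
      _ ≤ ∑ g ∈ hG.toFinset, ∑ l, (b.repr g l).natAbs :=
          Finset.single_le_sum (f := fun g => ∑ l, (b.repr g l).natAbs) (fun _ _ => Nat.zero_le _)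
            (hG.mem_toFinset.2 hg)
      _ ≤ _ := Finset.single_le_sum
            (f := fun b : Basis (Fin (finrank ℤ Λ)) ℤ Λ =>
              ∑ g ∈ hG.toFinset, ∑ l, (b.repr g l).natAbs) (fun _ _ => Nat.zero_le _) h1
  have h3 : |b.repr g l| = ((b.repr g l).natAbs : ℤ) := Int.abs_eq_natAbs _
  rw [h3]
  exact_mod_cast h2

/-- Finitely many elements have bounded coordinates. -/
theorem finite_Bdd (P : Finset Λ) (C : ℤ) : (Bdd P C).Finite := by
  classical
  set S := (finite_difB P).toFinset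
  have h1 : Bdd P C ⊆ ⋃ b ∈ (S : Set (Basis (Fin (finrank ℤ Λ)) ℤ Λ)),
      (fun κ => (fun l => b.repr κ l)) ⁻¹' (Set.univ.pi fun _ => Set.Icc (-C) C) := by
    rintro κ ⟨N, b, hb, hκ⟩
    obtain rfl := finrank_of_basis b
    refine Set.mem_biUnion (Finset.mem_coe.2 ((finite_difB P).mem_toFinset.2 hb)) ?_
    intro l _
    exact abs_le.1 (hκ l)
  refine (Set.Finite.biUnion S.finite_toSet fun b _ => ?_).subset h1
  refine Set.Finite.preimage ?_ (Set.Finite.pi fun _ => Set.finite_Icc _ _)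
  intro κ _ κ' _ h
  apply b.repr.injective
  ext l
  exact congrFun h l

end bd

section dom

variable {F : Type} [Field F]

/-- A valuation ring which dominates a local ring. -/
theorem exists_dom {𝒪 : Subring F} (h : IsLoc 𝒪) : ∃ V : ValuationSubring F,
    (∀ a ∈ 𝒪, a ∈ V) ∧ ∀ a ∈ 𝒪, a ≠ 0 → a⁻¹ ∈ V → a⁻¹ ∈ 𝒪 := by
  have hl : IsLocalRing 𝒪 := isLocalRing_of_isLoc h
  obtain ⟨V, hV⟩ := LocalSubring.exists_le_valuationSubring (LocalSubring.mk 𝒪)
  obtain ⟨h1, h2⟩ := hV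
  refine ⟨V, fun a ha => h1 ha, fun a ha h0 hav => ?_⟩
  have h3 : IsUnit (Subring.inclusion h1 ⟨a, ha⟩) := by
    refine isUnit_iff_exists_inv.2 ⟨⟨a⁻¹, hav⟩, Subtype.ext ?_⟩
    show a * a⁻¹ = 1
    exact mul_inv_cancel₀ h0
  have h4 : IsUnit (⟨a, ha⟩ : 𝒪) := h2.map_nonunit _ h3
  obtain ⟨c, hc⟩ := h4.exists_right_inv
  have h5 : a * (c : F) = 1 := congrArg Subtype.val hc
  rw [← eq_inv_of_mul_eq_one_right h5]
  exact c.2

end dom

end Pool.Agent.H865.TS
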