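import Pool.Agent.H865.TS.IQ
import Pool.Agent.H865.TT.Chr

/-!
# Independence of toric relations
-/

set_option autoImplicit false
set_option linter.unusedSectionVars false
set_option linter.unusedVariables false

namespace Pool.Agent.H865.TS

open MvPolynomial Module Pool.Agent.K3h75.TO Pool.Agent.H865.TT

section core

variable {W Λ 𝔖 J : Type} [CommRing W] [AddCommGroup Λ] [Fintype 𝔖] [Fintype J] {N : ℕ}
  (b : Basis (Fin N) ℤ Λ)

/-- the relation `α Y(δ) = β`, with nonnegative exponents -/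
noncomputable def rel (δ : 𝔖 → Λ) (α β : 𝔖 → W) (sg : 𝔖 → Prop) [DecidablePred sg] (q : 𝔖) :
    MvPolynomial (Fin N) W :=
  if sg q then C (α q) * mon W b (δ q) - C (β q) else C (β q) * mon W b (-δ q) - C (α q)

/-- the signs -/
def IsSgn (δ : 𝔖 → Λ) (sg : 𝔖 → Prop) : Prop :=
  ∀ q, (sg q → ∀ l, 0 ≤ b.repr (δ q) l) ∧ (¬ sg q → ∀ l, 0 ≤ b.repr (-δ q) l)

theorem ld_X (φ : Λ →+ ℤ) (l : Fin N) :
    ld W b φ (X l) = ((φ (b l) : ℤ) : MvPolynomial (Fin N) W) * X l := by
  unfold ld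
  rw [mkDerivation_X]

theorem mon_mem {Q : Ideal (MvPolynomial (Fin N) W)} [Q.IsPrime] {δ : Λ}
    (h : mon W b δ ∈ Q) : ∃ l, X l ∈ Q ∧ ps b δ l ≠ 0 := by
  have h1 : mon W b δ = ∏ l, (X l : MvPolynomial (Fin N) W) ^ (ps b δ l) := by
    unfold mon
    rw [monomial_eq, C_1, one_mul, Finsupp.prod_fintype]
    intro i
    rw [pow_zero]
  rw [h1, Ideal.IsPrime.prod_mem_iff] at h
  obtain ⟨l, -, hl⟩ := h
  refine ⟨l, Ideal.IsPrime.mem_of_pow_mem ‹_› _ hl, ?_⟩
  intro h0
  rw [h0, pow_zero] at hl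
  exact (Ideal.ne_top_iff_one Q).1 (Ideal.IsPrime.ne_top ‹_›) hl

open Classical in
/-- killing the variables in `Q` -/
noncomputable def red (Q : Ideal (MvPolynomial (Fin N) W)) :
    MvPolynomial (Fin N) W →ₐ[W] MvPolynomial (Fin N) W :=
  aeval fun l => if X l ∈ Q then 0 else X l

theorem sub_red (Q : Ideal (MvPolynomial (Fin N) W)) (w : MvPolynomial (Fin N) W) :
    w - red Q w ∈ Q := by
  classical
  induction w using MvPolynomial.induction_on with
  | C r =>
    unfold red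
    rw [algHom_C, algebraMap_eq, sub_self]
    exact Q.zero_mem
  | add p q hp hq =>
    rw [map_add]
    have := Q.add_mem hp hq
    convert this using 1
    ring
  | mul_X p l hp =>
    rw [map_mul]
    have h1 : X l - red Q (X l) ∈ Q := by
      unfold red
      rw [aeval_X]
      split_ifs with h
      · rwa [sub_zero]
      · rw [sub_self]
        exact Q.zero_mem
    have := Q.add_mem (Q.mul_mem_right (X l) hp) (Q.mul_mem_left (red Q p) h1)
    convert this using 1
    ring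

theorem red_mem {Q : Ideal (MvPolynomial (Fin N) W)} {w : MvPolynomial (Fin N) W} :
    red Q w ∈ Q ↔ w ∈ Q := by
  constructor
  · intro h
    have := Q.add_mem (sub_red Q w) h
    rwa [sub_add_cancel] at this
  · intro h
    have := Q.sub_mem h (sub_red Q w)
    rwa [sub_sub_cancel] at this

theorem red_sq {Q : Ideal (MvPolynomial (Fin N) W)} {w : MvPolynomial (Fin N) W}
    (h : w ∈ Q ^ 2) : red Q w ∈ Q ^ 2 := by
  have h1 : (Q ^ 2).map (red Q : _ →+* _) ≤ Q ^ 2 := by
    rw [Ideal.map_pow]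
    apply Ideal.pow_right_mono
    rw [Ideal.map_le_iff_le_comap]
    intro x hx
    rw [Ideal.mem_comap]
    exact red_mem.2 hx
  exact h1 (Ideal.mem_map_of_mem _ h)

theorem red_mon {Q : Ideal (MvPolynomial (Fin N) W)} [Q.IsPrime] {δ : Λ}
    (h : mon W b δ ∈ Q) : red Q (mon W b δ) = 0 := by
  classical
  obtain ⟨l, hl, hl0⟩ := mon_mem b h
  have h1 : mon W b δ = ∏ l, (X l : MvPolynomial (Fin N) W) ^ (ps b δ l) := by
    unfold mon
    rw [monomial_eq, C_1, one_mul, Finsupp.prod_fintype]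
    intro i
    rw [pow_zero]
  rw [h1, map_prod]
  refine Finset.prod_eq_zero (Finset.mem_univ l) ?_
  rw [map_pow]
  unfold red
  rw [aeval_X, if_pos hl, zero_pow hl0]

theorem core (Q : Ideal (MvPolynomial (Fin N) W)) [Q.IsPrime] (δ : 𝔖 → Λ) (α β : 𝔖 → W)
    (sg : 𝔖 → Prop) [DecidablePred sg] (h : J → W) (hsg : IsSgn b δ sg)
    (hα : ∀ q, C (α q) ∉ Q) (hrel : ∀ q, rel b δ α β sg q ∈ Q) (hh : ∀ j, C (h j) ∈ Q)
    (hneg : ∀ q, ¬ sg q → C (β q) ∉ Q)
    (hφ : ∀ q₁, C (β q₁) ∉ Q → ∃ φ : Λ →+ ℤ, (∀ q, q ≠ q₁ → C (β q) ∉ Q → φ (δ q) = 0) ∧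
      ((φ (δ q₁) : ℤ) : MvPolynomial (Fin N) W) ∉ Q)
    (hIQ : IQ Q (Sum.elim (fun q => C (β q)) (fun j => C (h j)))) :
    IQ Q (Sum.elim (fun l => X l) (Sum.elim (rel b δ α β sg) (fun j => C (h j)))) := by
  classical
  have hQp : Q.IsPrime := inferInstance
  intro c hc hs
  set S : Fin N ⊕ (𝔖 ⊕ J) → MvPolynomial (Fin N) W :=
    Sum.elim (fun l => X l) (Sum.elim (rel b δ α β sg) (fun j => C (h j))) with hS
  have hSl : ∀ l, S (Sum.inl l) = X l := fun l => rfl
  have hSq : ∀ q, S (Sum.inr (Sum.inl q)) = rel b δ α β sg q := fun q => rfl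
  have hSj : ∀ j, S (Sum.inr (Sum.inr j)) = C (h j) := fun j => rfl
  -- the monomials
  have hm1 : ∀ q, sg q → C (β q) ∈ Q → mon W b (δ q) ∈ Q := by
    intro q hq hβ
    have h1 := hrel q
    unfold rel at h1
    rw [if_pos hq] at h1
    have h2 := Q.add_mem h1 hβ
    rw [sub_add_cancel] at h2
    exact (hQp.mem_or_mem h2).resolve_left (hα q)
  have hm2 : ∀ q, sg q → C (β q) ∉ Q → mon W b (δ q) ∉ Q := by
    intro q hq hβ hm
    have h1 := hrel q
    unfold rel at h1
    rw [if_pos hq] at h1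
    have h2 := Q.sub_mem (Q.mul_mem_left (C (α q)) hm) h1
    rw [sub_sub_cancel] at h2
    exact hβ h2
  have hm3 : ∀ q, ¬ sg q → mon W b (-δ q) ∉ Q := by
    intro q hq hm
    have h1 := hrel q
    unfold rel at h1
    rw [if_neg hq] at h1
    have h2 := Q.sub_mem (Q.mul_mem_left (C (β q)) hm) h1
    rw [sub_sub_cancel] at h2
    exact hα q h2
  -- derivations
  have hder : ∀ d : Derivation W (MvPolynomial (Fin N) W) (MvPolynomial (Fin N) W),
      ∀ i₀, S i₀ ∈ Q → (∀ i, i ≠ i₀ → S i ∈ Q → c i * d (S i) ∈ Q) → c i₀ * d (S i₀) ∈ Q := by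
    intro d i₀ hi₀ hd
    have h0 : ∑ i ∈ Finset.univ.filter (fun i => S i ∈ Q), c i * S i = ∑ i, c i * S i := by
      rw [Finset.sum_filter]
      refine Finset.sum_congr rfl fun i _ => ?_
      split_ifs with hi
      · rfl
      · rw [hc i hi, zero_mul]
    have h1 := der_comb (R := W) d Q (Finset.univ.filter (fun i => S i ∈ Q)) c S
      (fun i hi => (Finset.mem_filter.1 hi).2) (by rw [h0]; exact hs)
    have hmem : i₀ ∈ Finset.univ.filter (fun i => S i ∈ Q) :=
      Finset.mem_filter.2 ⟨Finset.mem_univ _, hi₀⟩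
    rw [← Finset.add_sum_erase _ _ hmem] at h1
    have h2 : ∑ i ∈ (Finset.univ.filter (fun i => S i ∈ Q)).erase i₀, c i * d (S i) ∈ Q :=
      Q.sum_mem fun i hi => hd i (Finset.ne_of_mem_erase hi)
        (Finset.mem_filter.1 (Finset.mem_of_mem_erase hi)).2
    have h3 := Q.sub_mem h1 h2
    rwa [add_sub_cancel_right] at h3
  -- the unit relations
  have hstep1 : ∀ q₁, C (β q₁) ∉ Q → c (Sum.inr (Sum.inl q₁)) ∈ Q := by
    intro q₁ hq₁
    obtain ⟨φ, hφ0, hφ1⟩ := hφ q₁ hq₁
    have hdr : ∀ q, ld W b φ (rel b δ α β sg q) = if sg q then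
        C (α q) * (((φ (δ q) : ℤ) : MvPolynomial (Fin N) W) * mon W b (δ q)) else
        C (β q) * (((φ (-δ q) : ℤ) : MvPolynomial (Fin N) W) * mon W b (-δ q)) := by
      intro q
      unfold rel
      split_ifs with hq
      · rw [map_sub, ← smul_eq_C_mul, Derivation.map_smul, ld_mon b φ ((hsg q).1 hq),
          smul_eq_C_mul]
        have h3 : ld W b φ (C (β q)) = 0 := (ld W b φ).map_algebraMap (β q)
        rw [h3, sub_zero]
      · rw [map_sub, ← smul_eq_C_mul, Derivation.map_smul, ld_mon b φ ((hsg q).2 hq),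
          smul_eq_C_mul]
        have h3 : ld W b φ (C (α q)) = 0 := (ld W b φ).map_algebraMap (α q)
        rw [h3, sub_zero]
    have h1 := hder (ld W b φ) (Sum.inr (Sum.inl q₁)) (hrel q₁) (by
      rintro (l | q | j) hi hiQ
      · rw [hSl, ld_X]
        rw [hSl] at hiQ
        exact Q.mul_mem_left _ (Q.mul_mem_left _ hiQ)
      · have hqq : q ≠ q₁ := fun hh => hi (by rw [hh])
        rw [hSq, hdr]
        by_cases hβ : C (β q) ∈ Q
        · have hsq : sg q := by
            by_contra hh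
            exact hneg q hh hβ
          rw [if_pos hsq]
          exact Q.mul_mem_left _ (Q.mul_mem_left _ (Q.mul_mem_left _ (hm1 q hsq hβ)))
        · have h0 := hφ0 q hqq hβ
          rw [map_neg, h0]
          simp
      · rw [hSj]
        have h3 : ld W b φ (C (h j)) = 0 := (ld W b φ).map_algebraMap (h j)
        rw [h3, mul_zero]
        exact Q.zero_mem)
    rw [hSq, hdr] at h1
    by_cases hsq : sg q₁
    · rw [if_pos hsq] at h1
      rcases hQp.mem_or_mem h1 with h2 | h2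
      · exact h2
      · rcases hQp.mem_or_mem h2 with h3 | h3
        · exact absurd h3 (hα q₁)
        · rcases hQp.mem_or_mem h3 with h4 | h4
          · exact absurd h4 hφ1
          · exact absurd h4 (hm2 q₁ hsq hq₁)
    · rw [if_neg hsq] at h1
      rcases hQp.mem_or_mem h1 with h2 | h2
      · exact h2
      · rcases hQp.mem_or_mem h2 with h3 | h3
        · exact absurd h3 hq₁
        · rcases hQp.mem_or_mem h3 with h4 | h4
          · rw [map_neg, Int.cast_neg] at h4
            exact absurd ((Ideal.neg_mem_iff _).1 h4) hφ1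
          · exact absurd h4 (hm3 q₁ hsq)
  -- reduction
  obtain ⟨cl, hcl⟩ : ∃ cl : Fin N → MvPolynomial (Fin N) W, ∀ l, cl l = c (Sum.inl l) :=
    ⟨_, fun _ => rfl⟩
  obtain ⟨cq, hcqd⟩ : ∃ cq : 𝔖 → MvPolynomial (Fin N) W, ∀ q, cq q = c (Sum.inr (Sum.inl q)) :=
    ⟨_, fun _ => rfl⟩
  obtain ⟨cj, hcjd⟩ : ∃ cj : J → MvPolynomial (Fin N) W, ∀ j, cj j = c (Sum.inr (Sum.inr j)) :=
    ⟨_, fun _ => rfl⟩
  have hsum0 : ∑ l, cl l * X l + (∑ q, cq q * rel b δ α β sg q + ∑ j, cj j * C (h j)) ∈ Q ^ 2 := by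
    rw [Fintype.sum_sum_type, Fintype.sum_sum_type] at hs
    simp only [hcl, hcqd, hcjd]
    exact hs
  obtain ⟨cq', hcq'⟩ : ∃ cq' : 𝔖 → MvPolynomial (Fin N) W,
      ∀ q, cq' q = if C (β q) ∈ Q then cq q else 0 := ⟨_, fun _ => rfl⟩
  have hsum1 : ∑ l, cl l * X l + (∑ q, cq' q * rel b δ α β sg q + ∑ j, cj j * C (h j)) ∈
      Q ^ 2 := by
    have h2 : ∑ q, (cq q - cq' q) * rel b δ α β sg q ∈ Q ^ 2 := by
      refine (Q ^ 2).sum_mem fun q _ => ?_
      rw [hcq']
      by_cases hq : C (β q) ∈ Q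
      · rw [if_pos hq, sub_self, zero_mul]
        exact Ideal.zero_mem _
      · rw [if_neg hq, sub_zero, pow_two]
        refine Ideal.mul_mem_mul ?_ (hrel q)
        rw [hcqd]
        exact hstep1 q hq
    have h3 := (Q ^ 2).sub_mem hsum0 h2
    have h4 : ∑ q, (cq q - cq' q) * rel b δ α β sg q = ∑ q, cq q * rel b δ α β sg q -
        ∑ q, cq' q * rel b δ α β sg q := by
      rw [← Finset.sum_sub_distrib]
      exact Finset.sum_congr rfl fun i _ => by ring
    rw [h4] at h3
    have h5 : ∑ l, cl l * X l + (∑ q, cq' q * rel b δ α β sg q + ∑ j, cj j * C (h j)) =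
        ∑ l, cl l * X l + (∑ q, cq q * rel b δ α β sg q + ∑ j, cj j * C (h j)) -
        (∑ q, cq q * rel b δ α β sg q - ∑ q, cq' q * rel b δ α β sg q) := by ring
    rw [h5]
    exact h3
  have hrC : ∀ r : W, red Q (C r) = C r := fun r => by
    unfold red
    rw [algHom_C, algebraMap_eq]
  have hsum2 : ∑ q, (- red Q (cq' q)) * C (β q) + ∑ j, red Q (cj j) * C (h j) ∈ Q ^ 2 := by
    have h1 := red_sq hsum1
    rw [map_add, map_add, map_sum, map_sum, map_sum] at h1
    have h2 : ∑ l, red Q (cl l * X l) = 0 := by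
      refine Finset.sum_eq_zero fun l _ => ?_
      rw [map_mul]
      by_cases hl : X l ∈ Q
      · have : red Q (X l) = 0 := by
          unfold red
          rw [aeval_X, if_pos hl]
        rw [this, mul_zero]
      · rw [hcl, hc (Sum.inl l) hl, map_zero, zero_mul]
    have h3 : ∀ q, red Q (cq' q * rel b δ α β sg q) = (- red Q (cq' q)) * C (β q) := by
      intro q
      rw [map_mul]
      by_cases hβ : C (β q) ∈ Q
      · have hsq : sg q := by
          by_contra hh
          exact hneg q hh hβ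
        unfold rel
        rw [if_pos hsq, map_sub, map_mul, red_mon b (hm1 q hsq hβ), hrC, hrC]
        ring
      · rw [hcq', if_neg hβ, map_zero, neg_zero, zero_mul, zero_mul]
    have h4 : ∀ j, red Q (cj j * C (h j)) = red Q (cj j) * C (h j) := fun j => by
      rw [map_mul, hrC]
    rw [h2, zero_add, Finset.sum_congr rfl fun q _ => h3 q, Finset.sum_congr rfl fun j _ => h4 j]
      at h1
    exact h1
  obtain ⟨c2, hc2q, hc2j⟩ : ∃ c2 : 𝔖 ⊕ J → MvPolynomial (Fin N) W,
      (∀ q, c2 (Sum.inl q) = - red Q (cq' q)) ∧ ∀ j, c2 (Sum.inr j) = red Q (cj j) :=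
    ⟨Sum.elim (fun q => - red Q (cq' q)) (fun j => red Q (cj j)), fun _ => rfl, fun _ => rfl⟩
  have hfin := hIQ c2 (by
    rintro (q | j) hi
    · have hi' : C (β q) ∉ Q := hi
      rw [hc2q, hcq', if_neg hi', map_zero, neg_zero]
    · exact absurd (hh j) hi) (by
    rw [Fintype.sum_sum_type]
    simp only [Sum.elim_inl, Sum.elim_inr, hc2q, hc2j]
    exact hsum2)
  have hcq : ∀ q, c (Sum.inr (Sum.inl q)) ∈ Q := by
    intro q
    by_cases hβ : C (β q) ∈ Q
    · have h1 := hfin (Sum.inl q)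
      rw [hc2q, Ideal.neg_mem_iff, red_mem, hcq', if_pos hβ, hcqd] at h1
      exact h1
    · exact hstep1 q hβ
  have hcj : ∀ j, c (Sum.inr (Sum.inr j)) ∈ Q := by
    intro j
    have h1 := hfin (Sum.inr j)
    rw [hc2j, red_mem, hcjd] at h1
    exact h1
  rintro (l | q | j)
  · by_cases hl : X l ∈ Q
    · have h1 := hder (pderiv l) (Sum.inl l) hl (by
        rintro (l' | q | j) hi hiQ
        · rw [hSl, pderiv_X_of_ne (fun hh => hi (by rw [hh])), mul_zero]
          exact Q.zero_mem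
        · exact Q.mul_mem_right _ (hcq q)
        · exact Q.mul_mem_right _ (hcj j))
      rw [hSl, pderiv_X_self, mul_one] at h1
      exact h1
    · rw [hc (Sum.inl l) hl]
      exact Q.zero_mem
  · exact hcq q
  · exact hcj j

end core

end Pool.Agent.H865.TS
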