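import Pool.Agent.H865.TS.Cz

/-!
# Regularity of the charts, part 2
-/

set_option autoImplicit false
set_option linter.unusedSectionVars false
set_option linter.unusedVariables false

namespace Pool.Agent.H865.TS

open Module Pool.Agent.K3h75.TO Pool.Agent.H865.TT Pool.Agent.H918R2.Quad
  Pool.Agent.W418.LU2 IsLocalRing Pool.Agent.N98.RM Polynomial IsDedekindDomain

section cw

variable {O S K₀ M F : Type} [CommRing O] [CommRing S] [IsDedekindDomain S] [Algebra O S]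
  [Algebra.IsIntegral O S] [Field K₀] [Algebra O K₀] [Field M] [Algebra S M] [IsFractionRing S M]
  [Field F] [Algebra S F] [Algebra O F] [IsScalarTower O S F] [Algebra M F] [IsScalarTower S M F]
  [Algebra K₀ F] [IsScalarTower O K₀ F] {Tc I : Type} [Fintype I] [DecidableEq I]
  {X : LM (⊥ : Subalgebra O K₀) ⊤ Tc I} {T : Finset (HeightOneSpectrum S)} {r s : ℕ}
  {fu : Fin r ⊕ Fin s → F} {G : Tc → Finset K₀}
  {P : Finset (Lat1 I {v : HeightOneSpectrum S // v ∈ T} r s)} {N₁ : ℕ}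
  {PA : Finset (Lat0 I {v : HeightOneSpectrum S // v ∈ T})}
  {e : {v : HeightOneSpectrum S // v ∈ T} → ℕ} {ϖ : {v : HeightOneSpectrum S // v ∈ T} → O}
  {γ : {v : HeightOneSpectrum S // v ∈ T} → I → ℤ} {Gm : Set (I → ℤ)} {C : ℕ} {B : Subfield F}

/-- **Regularity of the charts.** -/
theorem Dt.reg (D : Dt M X T fu G P N₁ PA e ϖ γ Gm C B) (z : F)
    (hz : z ∈ MX M X T fu G P N₁) (hz0 : z ≠ 0)
    (q : Ideal (chart S (MX M X T fu G P N₁) z)) [q.IsPrime] :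
    IsRegularLocalRing (Localization.AtPrime q) := by
  classical
  obtain ⟨𝒪, hloc, hmem, hU, hreg⟩ := exists_loc ((chart S (MX M X T fu G P N₁) z).val : chart S (MX M X T fu G P N₁) z →+* F)
    Subtype.val_injective q
  have hval : ∀ a : chart S (MX M X T fu G P N₁) z, ((chart S (MX M X T fu G P N₁) z).val : chart S (MX M X T fu G P N₁) z →+* F) a = (a : F) :=
    fun a => rfl
  simp only [hval] at hmem hU
  apply hreg
  have hchart : ∀ a ∈ chart S (MX M X T fu G P N₁) z, a ∈ 𝒪 := by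
    intro a ha
    rw [hmem]
    exact ⟨⟨a, ha⟩, 1, (Ideal.ne_top_iff_one q).1 Ideal.IsPrime.ne_top', by simp⟩
  have hS𝒪 : ∀ a : S, algebraMap S F a ∈ 𝒪 := fun a => hchart _ (Subalgebra.algebraMap_mem _ _)
  have hM𝒪 : ∀ m ∈ MX M X T fu G P N₁, m / z ∈ 𝒪 := fun m hm => hchart _ (Algebra.subset_adjoin ⟨m, hm, rfl⟩)
  let 𝔓 : Ideal S := q.comap (algebraMap S (chart S (MX M X T fu G P N₁) z))
  have h𝔓 : 𝔓.IsPrime := Ideal.comap_isPrime _ _
  have hSU : ∀ s : S, U 𝒪 (algebraMap S F s) ↔ s ∉ 𝔓 := fun s =>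
    hU (algebraMap S (chart S (MX M X T fu G P N₁) z) s)
  obtain ⟨π, hπ⟩ := D.pl 𝔓 h𝔓
  obtain ⟨V, hV1, hV2⟩ := exists_dom hloc
  -- the chart
  obtain ⟨t, ht⟩ := X.cv (V.comap (algebraMap K₀ F)) (by
    intro a ha
    obtain ⟨o, rfl⟩ := Algebra.mem_bot.1 ha
    show algebraMap K₀ F (algebraMap O K₀ o) ∈ V
    rw [← IsScalarTower.algebraMap_apply O K₀ F, IsScalarTower.algebraMap_apply O S F]
    exact hV1 _ (hS𝒪 _))
  have htV : ∀ a ∈ X.A t, algebraMap K₀ F a ∈ V := fun a ha => ht a ha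
  set Y : Lat0 I {v : HeightOneSpectrum S // v ∈ T} → F := Yl (M := M) (F := F) X π t with hYdef
  have hY : IsChar Y := isChar_Yl hπ.neM
  have hYf := isChar_Yf hY D.fu0
  have hYf0 : ∀ κ, Yf Y fu κ ≠ 0 := fun κ => (hYf.isUnit κ).ne_zero
  set Z : Subring F := Subring.closure ((algebraMap K₀ F '' X.A t) ∪ Set.range (algebraMap S F))
    with hZ
  have hZV : ∀ y ∈ Z, y ∈ V := by
    have h1 : Z ≤ V.toSubring := by
      rw [hZ, Subring.closure_le]
      rintro y (⟨a, ha, rfl⟩ | ⟨s, rfl⟩)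
      · exact htV a ha
      · exact hV1 _ (hS𝒪 s)
    exact fun y hy => h1 hy
  have hw0 : algebraMap K₀ F (X.H t ^ N₁) ≠ 0 := by
    rw [Ne, map_eq_zero]
    exact pow_ne_zero _ (X.H0 t)
  set w : F := algebraMap K₀ F (X.H t ^ N₁) with hw
  have hg0 : ∀ κ, w * Yf Y fu κ ≠ 0 := fun κ => mul_ne_zero hw0 (hYf0 κ)
  have hgz : ∀ κ ∈ P, ∀ a ∈ G t, algebraMap K₀ F a * (w * Yf Y fu κ) / z ∈ 𝒪 := by
    intro κ hκ a ha
    obtain ⟨s', hs', h1⟩ := D.hB hπ t hκ ha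
    have h2 := hM𝒪 _ h1
    have h3 := (hSU s').2 hs'
    have h4 : algebraMap K₀ F a * (w * Yf Y fu κ) / z = (algebraMap S F s')⁻¹ *
        (algebraMap S F s' * (algebraMap K₀ F a * (w * Yf Y fu κ)) / z) := by
      have := h3.1
      field_simp
    rw [h4]
    exact 𝒪.mul_mem h3.2.2 h2
  have hgz1 : ∀ κ ∈ P, w * Yf Y fu κ / z ∈ 𝒪 := by
    intro κ hκ
    have h1 := hgz κ hκ 1 (D.one t)
    rwa [map_one, one_mul] at h1
  -- the smallest generator
  obtain ⟨μ₀, hμ₀, hμmax⟩ := P.exists_max_image (fun κ => V.valuation (w * Yf Y fu κ)) D.Pne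
  have hμV : ∀ κ ∈ P, (w * Yf Y fu κ) / (w * Yf Y fu μ₀) ∈ V := by
    intro κ hκ
    rw [← V.valuation_le_one_iff, map_div₀]
    have h1 : V.valuation (w * Yf Y fu μ₀) ≠ 0 := by
      rw [Ne, map_eq_zero]
      exact hg0 μ₀
    exact div_le_one_of_le₀ (hμmax κ hκ) zero_le
  have hμU : U 𝒪 (w * Yf Y fu μ₀ / z) := by
    refine ⟨div_ne_zero (hg0 _) hz0, hgz1 _ hμ₀, hV2 _ (hgz1 _ hμ₀) (div_ne_zero (hg0 _) hz0) ?_⟩
    obtain ⟨s', hs', d, hd, h1⟩ := D.hA hπ t z hz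
    have h3 := (hSU s').2 hs'
    have h4 : (w * Yf Y fu μ₀ / z)⁻¹ = (algebraMap S F s')⁻¹ *
        ∑ κ ∈ P, d κ * ((w * Yf Y fu κ) / (w * Yf Y fu μ₀)) := by
      have h5 : ∑ κ ∈ P, d κ * ((w * Yf Y fu κ) / (w * Yf Y fu μ₀)) =
          (algebraMap S F s' * z) / (w * Yf Y fu μ₀) := by
        rw [h1, Finset.sum_div]
        exact Finset.sum_congr rfl fun κ _ => (mul_div_assoc _ _ _).symm
      rw [h5, inv_div]
      have := h3.1
      field_simp
    rw [h4]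
    exact V.mul_mem _ _ (hV1 _ h3.2.2)
      (V.toSubring.sum_mem fun κ hκ => V.mul_mem _ _ (hZV _ (hd κ)) (hμV κ hκ))
  -- the coordinate ring of the chart
  have hA𝒪 : ∀ a ∈ X.A t, algebraMap K₀ F a ∈ 𝒪 := by
    intro a ha
    rw [← D.gen t] at ha
    induction ha using Algebra.adjoin_induction with
    | mem a ha =>
      have h1 := 𝒪.mul_mem (hgz μ₀ hμ₀ a ha) hμU.2.2
      have h2 : algebraMap K₀ F a * (w * Yf Y fu μ₀) / z * (w * Yf Y fu μ₀ / z)⁻¹ =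
          algebraMap K₀ F a := by
        rw [mul_div_assoc, mul_assoc, mul_inv_cancel₀ hμU.1, mul_one]
      rwa [h2] at h1
    | algebraMap o =>
      rw [← IsScalarTower.algebraMap_apply O K₀ F, IsScalarTower.algebraMap_apply O S F]
      exact hS𝒪 _
    | add a b _ _ ha hb => rw [map_add]; exact 𝒪.add_mem ha hb
    | mul a b _ _ ha hb => rw [map_mul]; exact 𝒪.mul_mem ha hb
  -- the vertex
  obtain ⟨v, hv, ⟨ms, hms, hsum⟩, N, b, hb1, hb2, hbA, hbB⟩ := D.vx μ₀ hμ₀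
  set f : F := z / w with hf
  have hYfz : ∀ κ, Yf Y fu κ / f = w * Yf Y fu κ / z := by
    intro κ
    rw [hf]
    field_simp
  have hYf' : ∀ κ ∈ P, Yf Y fu κ / f ∈ 𝒪 := fun κ hκ => by
    rw [hYfz]
    exact hgz1 κ hκ
  have hgU : U 𝒪 (Yf Y fu μ₀ / f) := by
    rw [hYfz]
    exact hμU
  have hvU : U 𝒪 (Yf Y fu v / f) := by
    have h1 : ∀ ms : Multiset (Lat1 I {v : HeightOneSpectrum S // v ∈ T} r s),
        (∀ κ ∈ ms, κ ∈ P) → Yf Y fu ms.sum / f ^ ms.card ∈ 𝒪 := by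
      intro ms
      induction ms using Multiset.induction_on with
      | empty =>
        intro _
        rw [Multiset.sum_zero, Multiset.card_zero, pow_zero, hYf.zero, div_one]
        exact 𝒪.one_mem
      | cons a ms ih =>
        intro hms
        rw [Multiset.sum_cons, Multiset.card_cons, pow_succ', hYf.add, mul_div_mul_comm]
        exact 𝒪.mul_mem (hYf' a (hms a (Multiset.mem_cons_self a ms)))
          (ih fun κ hκ => hms κ (Multiset.mem_cons_of_mem hκ))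
    have h2 : (Yf Y fu μ₀ / f) ^ (ms.card + 1) =
        (Yf Y fu v / f) * (Yf Y fu ms.sum / f ^ ms.card) := by
      rw [div_pow, ← hYf.nsmul, hsum, hYf.add, pow_succ', mul_div_mul_comm]
    have h3 : U 𝒪 ((Yf Y fu v / f) * (Yf Y fu ms.sum / f ^ ms.card)) := by
      rw [← h2]
      exact hgU.pow _
    exact h3.of_mul_left (hYf' v hv) (h1 ms hms)
  have hf0 : f ≠ 0 := div_ne_zero hz0 hw0
  have hfv : U 𝒪 (f / Yf Y fu v) := by
    have := hvU.inv
    rwa [inv_div] at this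
  have hb : ∀ l, Yf Y fu (b l) ∈ 𝒪 := by
    intro l
    have h1 : Yf Y fu (b l) = (Yf Y fu (v + b l) / f) * (f / Yf Y fu v) := by
      rw [hYf.add]
      have := hYf0 v
      field_simp
    rw [h1]
    exact 𝒪.mul_mem (hYf' _ (hb1 l)) hfv.2.1
  -- fractions
  set Zc : Subring F := Cc S (X.A t).toSubring (fun l => Yf Y fu (b l)) with hZc
  have hZZc : Z ≤ Zc := by
    rw [hZ, Subring.closure_le]
    rintro y (⟨a, ha, rfl⟩ | ⟨s, rfl⟩)
    · exact Subring.subset_closure (Or.inl (Or.inl ⟨a, ha, rfl⟩))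
    · exact Subring.subset_closure (Or.inl (Or.inr ⟨s, rfl⟩))
  have hbZc : ∀ l, Yf Y fu (b l) ∈ Zc := fun l => Subring.subset_closure (Or.inr ⟨l, rfl⟩)
  have hZc𝒪 : Zc ≤ 𝒪 := by
    rw [hZc]
    unfold Cc
    rw [Subring.closure_le]
    rintro y ((⟨a, ha, rfl⟩ | ⟨s, rfl⟩) | ⟨l, rfl⟩)
    · exact hA𝒪 a ha
    · exact hS𝒪 s
    · exact hb l
  have hPZc : ∀ κ ∈ P, Yf Y fu (κ - v) ∈ Zc := fun κ hκ => Y_mem hYf b hbZc (hb2 κ hκ)
  have hgv0 : w * Yf Y fu v ≠ 0 := hg0 v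
  have hmZ : ∀ m ∈ MX M X T fu G P N₁, ∃ s' : S, s' ∉ 𝔓 ∧ algebraMap S F s' * m / (w * Yf Y fu v) ∈ Zc := by
    intro m hm
    obtain ⟨s', hs', d, hd, h1⟩ := D.hA hπ t m hm
    refine ⟨s', hs', ?_⟩
    rw [h1, Finset.sum_div]
    refine Zc.sum_mem fun κ hκ => ?_
    have h2 : d κ * (w * Yf Y fu κ) / (w * Yf Y fu v) = d κ * Yf Y fu (κ - v) := by
      have h3 : Yf Y fu κ = Yf Y fu (κ - v) * Yf Y fu v := by
        rw [← hYf.add, sub_add_cancel]
      have h4 := hYf0 v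
      rw [h3]
      field_simp
    have h5 : d κ * (algebraMap K₀ F (X.H t ^ N₁) * Yf (Yl (M := M) (F := F) X π t) fu κ) /
        (w * Yf Y fu v) = d κ * Yf Y fu (κ - v) := h2
    rw [h5]
    exact Zc.mul_mem (hZZc (hd κ)) (hPZc κ hκ)
  obtain ⟨sz, hsz, hszZ⟩ := hmZ z hz
  have hszU : U 𝒪 (algebraMap S F sz * z / (w * Yf Y fu v)) := by
    have h1 : algebraMap S F sz * z / (w * Yf Y fu v) = algebraMap S F sz * (f / Yf Y fu v) := by
      rw [hf]
      have h3 := hYf0 v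
      field_simp
    rw [h1]
    exact ((hSU sz).2 hsz).mul hfv
  have hlo : ∀ m ∈ MX M X T fu G P N₁, m / z ∈ lo 𝒪 Zc := by
    intro m hm
    obtain ⟨s', hs', h1⟩ := hmZ m hm
    have h2 : m / z = (algebraMap S F sz * (algebraMap S F s' * m / (w * Yf Y fu v))) *
        (algebraMap S F s' * (algebraMap S F sz * z / (w * Yf Y fu v)))⁻¹ := by
      have h3 := ((hSU sz).2 hsz).1
      have h4 := ((hSU s').2 hs').1
      have h5 := hYf0 v
      field_simp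
    rw [h2]
    have h6 := ((hSU s').2 hs').mul hszU
    exact ⟨_, Zc.mul_mem (hZZc (Subring.subset_closure (Or.inr ⟨sz, rfl⟩))) h1, _,
      Zc.mul_mem (hZZc (Subring.subset_closure (Or.inr ⟨s', rfl⟩))) hszZ, h6.1, h6.2.2, rfl⟩
  have hchlo : ∀ a ∈ chart S (MX M X T fu G P N₁) z, a ∈ lo 𝒪 Zc := by
    intro a ha
    unfold chart at ha
    induction ha using Algebra.adjoin_induction with
    | mem a ha =>
      obtain ⟨m, hm, rfl⟩ := ha
      exact hlo m hm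
    | algebraMap s => exact le_lo _ _ (hZZc (Subring.subset_closure (Or.inr ⟨s, rfl⟩)))
    | add a b _ _ ha hb => exact Subring.add_mem _ ha hb
    | mul a b _ _ ha hb => exact Subring.mul_mem _ ha hb
  have hfrac : ∀ y ∈ 𝒪, ∃ a ∈ Zc, ∃ c ∈ Zc, U 𝒪 c ∧ y = a / c := by
    intro y hy
    obtain ⟨a, c, hc, rfl⟩ := (hmem y).1 hy
    have h1 := (hU c).2 hc
    have h2 : (a : F) / c ∈ lo 𝒪 Zc := by
      rw [div_eq_mul_inv]
      exact Subring.mul_mem _ (hchlo a a.2) (inv_mem_lo hZc𝒪 (hchlo c c.2) h1.1 h1.2.2)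
    obtain ⟨a', ha', c', hc', hc0, hci, h3⟩ := h2
    exact ⟨a', ha', c', hc', ⟨hc0, hZc𝒪 hc', hci⟩, by rw [h3, div_eq_mul_inv]⟩
  have hSinj : Function.Injective (algebraMap S F) := by
    rw [IsScalarTower.algebraMap_eq S M F]
    exact (algebraMap M F).injective.comp (IsFractionRing.injective S M)
  refine ver D.hmin hSinj 𝔓 (X.A t) (X.rg t) hY (fun i => Yl_X0 i)
    (hπ.mode0 fun q => D.hγ q t) D.PAne D.va (Gm := Gm) (C := C) D.bd D.fu0 B ?_ ?_
    (fun a _ => D.B1 a) ?_ D.fb D.ub ?_ b hbA hbB 𝒪 hloc hA𝒪 hS𝒪 (fun s hs => (hSU s).2 hs) hb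
    hfrac
  · intro κ
    exact B.mul_mem (D.B1 _) (D.B2 _)
  · intro y hy
    set S₀ : Set F := (algebraMap K₀ F '' X.A t) ∪ Set.range (algebraMap S F) with hS₀
    have h1 : Subfield.closure (Set.range (algebraMap K₀ F) ∪ Set.range (algebraMap M F)) ≤
        Subfield.closure S₀ := by
      rw [Subfield.closure_le]
      rintro y (⟨a, rfl⟩ | ⟨c, rfl⟩)
      · obtain ⟨a₁, ha₁, a₂, ha₂, h0, rfl⟩ := D.frc t a
        rw [map_mul, map_inv₀]
        exact Subfield.mul_mem _ (Subfield.subset_closure (Or.inl ⟨_, ha₁, rfl⟩))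
          (Subfield.inv_mem _ (Subfield.subset_closure (Or.inl ⟨_, ha₂, rfl⟩)))
      · obtain ⟨a₁, a₂, h0, rfl⟩ := IsFractionRing.div_surjective (A := S) c
        rw [map_div₀, ← IsScalarTower.algebraMap_apply, ← IsScalarTower.algebraMap_apply]
        exact Subfield.div_mem _ (Subfield.subset_closure (Or.inr ⟨_, rfl⟩))
          (Subfield.subset_closure (Or.inr ⟨_, rfl⟩))
    obtain ⟨a, ha, c, hc, h2⟩ := Subfield.mem_closure_iff.1 (h1 (D.B3 hy))
    by_cases hc0 : c = 0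
    · refine ⟨0, Subring.zero_mem _, 1, Subring.one_mem _, one_ne_zero, ?_⟩
      rw [← h2, hc0, div_zero, zero_div]
    · exact ⟨a, ha, c, hc, hc0, h2.symm⟩
  · intro a
    rw [IsScalarTower.algebraMap_apply S M F]
    exact D.B2 _
  · intro m
    obtain ⟨p, h1, h2, h3, h4⟩ := D.pf m
    exact ⟨p, h1, h2, h3, fun j => (h4 j).imp_right fun ⟨g, hg, h5⟩ => ⟨g, hg, h5 t⟩⟩

end cw

end Pool.Agent.H865.TS
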