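import Pool.Agent.H865.TS.Md

/-!
# Local data at the primes, and the local character
-/

set_option autoImplicit false
set_option linter.unusedSectionVars false
set_option linter.unusedVariables false

namespace Pool.Agent.H865.TS

open Module Pool.Agent.K3h75.TO Pool.Agent.H865.TT Pool.Agent.H918R2.Quad
  Pool.Agent.W418.LU2 IsLocalRing Pool.Agent.N98.RM Polynomial IsDedekindDomain

section pl

variable {O S : Type} [CommRing O] [CommRing S] [IsDedekindDomain S] [Algebra O S]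

variable (M : Type) [Field M] [Algebra S M] [IsFractionRing S M]

/-- Local data at the prime `𝔓`. -/
structure PL (𝔓 : Ideal S) (T : Finset (HeightOneSpectrum S))
    (e : {v : HeightOneSpectrum S // v ∈ T} → ℕ) (ϖ : {v : HeightOneSpectrum S // v ∈ T} → O)
    (π : {v : HeightOneSpectrum S // v ∈ T} → S) : Prop where
  ne : ∀ q, π q ≠ 0
  vl : ∀ (q : {v : HeightOneSpectrum S // v ∈ T}) (v : HeightOneSpectrum S), v.asIdeal = 𝔓 →
    ((q : HeightOneSpectrum S) = v → vd v (algebraMap S M (π q)) = 1) ∧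
    (¬ (q : HeightOneSpectrum S) = v → vd v (algebraMap S M (π q)) = 0)
  md : (∃ θ : S, LGen O 𝔓 θ ∧ aeval θ (derivative (minpoly O θ)) ∉ 𝔓 ∧ ∀ q, π q = 1) ∨
    ∃ (θ : S) (q r₁ r₂ k : O[X]) (q₀ : {v : HeightOneSpectrum S // v ∈ T}),
      PT 𝔓 θ q r₁ r₂ k (ϖ q₀) (e q₀) ∧ π q₀ = aeval θ q ∧ ∀ q', q' ≠ q₀ → π q' = 1

variable {M} {𝔓 : Ideal S} {T : Finset (HeightOneSpectrum S)}
  {e : {v : HeightOneSpectrum S // v ∈ T} → ℕ} {ϖ : {v : HeightOneSpectrum S // v ∈ T} → O}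
  {π : {v : HeightOneSpectrum S // v ∈ T} → S}

variable (M) in
/-- the local generator of the fractional ideal -/
noncomputable def Pk (π : {v : HeightOneSpectrum S // v ∈ T} → S)
    (a : {v : HeightOneSpectrum S // v ∈ T} → ℤ) : M := chr (fun q => algebraMap S M (π q)) a

theorem PL.neM (h : PL M 𝔓 T e ϖ π) (q : {v : HeightOneSpectrum S // v ∈ T}) :
    algebraMap S M (π q) ≠ 0 := fun h0 =>
  h.ne q (IsFractionRing.injective S M (by rw [h0, map_zero]))

theorem PL.Pk_ne (h : PL M 𝔓 T e ϖ π) (a : {v : HeightOneSpectrum S // v ∈ T} → ℤ) :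
    Pk M π a ≠ 0 := chr_ne_zero h.neM a

theorem PL.vd_Pk (h : PL M 𝔓 T e ϖ π) (a : {v : HeightOneSpectrum S // v ∈ T} → ℤ)
    (v : HeightOneSpectrum S) (hv : v.asIdeal = 𝔓) : vd v (Pk M π a) = ex0 T a v := by
  unfold Pk
  rw [vd_chr v h.neM]
  exact ex0_sum T a v (fun q => vd v (algebraMap S M (π q))) fun q => h.vl q v hv

theorem PL.fid1 (h : PL M 𝔓 T e ϖ π) [𝔓.IsPrime] (a : {v : HeightOneSpectrum S // v ∈ T} → ℤ)
    {c : M} (hc : c ∈ fid M (ex0 T a)) :
    ∃ s : S, s ∉ 𝔓 ∧ ∃ b : S, algebraMap S M s * c = algebraMap S M b * Pk M π a := by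
  by_cases hc0 : c = 0
  · exact ⟨1, (Ideal.ne_top_iff_one 𝔓).1 Ideal.IsPrime.ne_top', 0, by rw [hc0]; simp⟩
  obtain ⟨s, hs, b, hb⟩ := exists_denom 𝔓 (c * (Pk M π a)⁻¹) (by
    intro v hv
    rw [vd_mul v hc0 (inv_ne_zero (h.Pk_ne a)), vd_inv, h.vd_Pk a v hv]
    have := (mem_fid hc0).1 hc v
    linarith)
  refine ⟨s, hs, b, ?_⟩
  rw [← hb, mul_assoc, inv_mul_cancel_right₀ (h.Pk_ne a)]

theorem PL.fid2 (h : PL M 𝔓 T e ϖ π) [𝔓.IsPrime] (a : {v : HeightOneSpectrum S // v ∈ T} → ℤ) :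
    ∃ s : S, s ∉ 𝔓 ∧ algebraMap S M s * Pk M π a ∈ fid M (ex0 T a) := by
  classical
  let T' : Finset (HeightOneSpectrum S) :=
    ((vd_support (O := S) (Pk M π a)).toFinset ∪ T).filter fun v => v.asIdeal ≠ 𝔓
  obtain ⟨y, hy𝔭, hyT⟩ := approx (k := M) T' (fun v => ex0 T a v - vd v (Pk M π a)) 𝔓
    fun v hv => (Finset.mem_filter.1 hv).2
  have hy0 : algebraMap S M y ≠ 0 := by
    intro h
    have h2 : y = 0 := IsFractionRing.injective S M (by rw [h, map_zero])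
    exact hy𝔭 (by rw [h2]; exact 𝔓.zero_mem)
  refine ⟨y, hy𝔭, (mem_fid (mul_ne_zero hy0 (h.Pk_ne a))).2 fun v => ?_⟩
  rw [vd_mul v hy0 (h.Pk_ne a)]
  have h2 := vd_nonneg v y hy0
  by_cases hv : v.asIdeal = 𝔓
  · rw [h.vd_Pk a v hv]
    linarith
  · by_cases h3 : v ∈ T'
    · have := hyT v h3
      linarith
    · have h4 : v ∉ (vd_support (O := S) (Pk M π a)).toFinset ∪ T := fun h4 =>
        h3 (Finset.mem_filter.2 ⟨h4, hv⟩)
      rw [Finset.mem_union] at h4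
      push Not at h4
      have h5 : vd v (Pk M π a) = 0 := by
        by_contra h6
        exact h4.1 ((vd_support (O := S) (Pk M π a)).mem_toFinset.2 h6)
      have h6 : ex0 T a v = 0 := dif_neg h4.2
      rw [h5, h6]
      linarith

end pl

section cy

variable {O S K₀ M F : Type} [CommRing O] [CommRing S] [IsDedekindDomain S] [Algebra O S]
  [Algebra.IsIntegral O S] [Field K₀] [Algebra O K₀] [Field M] [Algebra S M] [IsFractionRing S M]
  [Field F] [Algebra S F] [Algebra O F] [IsScalarTower O S F] [Algebra M F] [IsScalarTower S M F]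
  [Algebra K₀ F] [IsScalarTower O K₀ F] {Tc I : Type} [Fintype I] [DecidableEq I]
  (X : LM (⊥ : Subalgebra O K₀) ⊤ Tc I) {T : Finset (HeightOneSpectrum S)}
  (π : {v : HeightOneSpectrum S // v ∈ T} → S) (t : Tc)

/-- the local character -/
noncomputable def Yl (κ : Lat0 I {v : HeightOneSpectrum S // v ∈ T}) : F :=
  algebraMap K₀ F (chr (X.x t) κ.1) * algebraMap M F (Pk M π κ.2)

variable {X π t}

theorem isChar_Yl (hπ : ∀ q, algebraMap S M (π q) ≠ 0) :
    IsChar (Yl (M := M) (F := F) X π t) where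
  zero := by
    show algebraMap K₀ F (chr (X.x t) 0) * algebraMap M F (chr _ 0) = 1
    rw [chr_zero, chr_zero, map_one, map_one, one_mul]
  add a b := by
    show algebraMap K₀ F (chr (X.x t) (a.1 + b.1)) * algebraMap M F (chr _ (a.2 + b.2)) =
      (algebraMap K₀ F (chr (X.x t) a.1) * algebraMap M F (chr _ a.2)) *
      (algebraMap K₀ F (chr (X.x t) b.1) * algebraMap M F (chr _ b.2))
    rw [chr_add (X.x0 t), chr_add hπ, map_mul, map_mul]
    ring

theorem Yl_X0 [DecidableEq {v : HeightOneSpectrum S // v ∈ T}] (i : I) :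
    Yl (M := M) (F := F) X π t (X0 _ i) = algebraMap K₀ F (X.x t i) := by
  show algebraMap K₀ F (chr (X.x t) (Pi.single i 1)) * algebraMap M F (chr _ 0) = _
  rw [chr_zero, map_one, mul_one, chr_single]

theorem Yl_E0 [DecidableEq {v : HeightOneSpectrum S // v ∈ T}]
    (q : {v : HeightOneSpectrum S // v ∈ T}) :
    Yl (M := M) (F := F) X π t (E0 I q) = algebraMap S F (π q) := by
  show algebraMap K₀ F (chr (X.x t) 0) * algebraMap M F (chr _ (Pi.single q 1)) = _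
  rw [chr_zero, map_one, one_mul, chr_single, ← IsScalarTower.algebraMap_apply S M F]

theorem PL.mode0 [DecidableEq {v : HeightOneSpectrum S // v ∈ T}] {𝔓 : Ideal S}
    {e : {v : HeightOneSpectrum S // v ∈ T} → ℕ} {ϖ : {v : HeightOneSpectrum S // v ∈ T} → O}
    (h : PL M 𝔓 T e ϖ π) {γ : {v : HeightOneSpectrum S // v ∈ T} → I → ℤ}
    (hγ : ∀ q, IsM (X.A t) (X.x t) (algebraMap O K₀ (ϖ q)) (γ q)) :
    Mode0 𝔓 (X.A t) (X.x t) (Yl (M := M) (F := F) X π t) e γ := by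
  rcases h.md with ⟨θ, h1, h2, h3⟩ | ⟨θ, q, r₁, r₂, k, q₀, h1, h2, h3⟩
  · refine Or.inl ⟨θ, h1, h2, fun q => ?_⟩
    rw [Yl_E0, h3, map_one]
  · refine Or.inr ⟨θ, q, r₁, r₂, k, ϖ q₀, q₀, h1, hγ q₀, ?_, fun q' hq' => ?_⟩
    · rw [Yl_E0, h2]
    · rw [Yl_E0, h3 q' hq', map_one]

end cy

end Pool.Agent.H865.TS
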