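import Pool.Agent.H865.TS.Cx

/-!
# Regularity of the charts
-/

set_option autoImplicit false
set_option linter.unusedSectionVars false
set_option linter.unusedVariables false

namespace Pool.Agent.H865.TS

open Module Pool.Agent.K3h75.TO Pool.Agent.H865.TT Pool.Agent.H918R2.Quad
  Pool.Agent.W418.LU2 IsLocalRing Pool.Agent.N98.RM Polynomial IsDedekindDomain

section cz

variable {O S K₀ M F : Type} [CommRing O] [CommRing S] [IsDedekindDomain S] [Algebra O S]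
  [Algebra.IsIntegral O S] [Field K₀] [Algebra O K₀] [Field M] [Algebra S M] [IsFractionRing S M]
  [Field F] [Algebra S F] [Algebra O F] [IsScalarTower O S F] [Algebra M F] [IsScalarTower S M F]
  [Algebra K₀ F] [IsScalarTower O K₀ F] {Tc I : Type} [Fintype I] [DecidableEq I]

/-- The data of the construction. -/
structure Dt (M : Type) [Field M] [Algebra S M] [IsFractionRing S M] [Algebra M F]
    (X : LM (⊥ : Subalgebra O K₀) ⊤ Tc I)
    (T : Finset (HeightOneSpectrum S)) {r s : ℕ} (fu : Fin r ⊕ Fin s → F) (G : Tc → Finset K₀)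
    (P : Finset (Lat1 I {v : HeightOneSpectrum S // v ∈ T} r s)) (N₁ : ℕ)
    (PA : Finset (Lat0 I {v : HeightOneSpectrum S // v ∈ T}))
    (e : {v : HeightOneSpectrum S // v ∈ T} → ℕ) (ϖ : {v : HeightOneSpectrum S // v ∈ T} → O)
    (γ : {v : HeightOneSpectrum S // v ∈ T} → I → ℤ) (Gm : Set (I → ℤ)) (C : ℕ)
    (B : Subfield F) : Prop where
  frc : Frc X
  fu0 : ∀ a, fu a ≠ 0
  gen : ∀ t, Algebra.adjoin O (G t : Set K₀) = X.A t
  one : ∀ t, (1 : K₀) ∈ G t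
  hγ : ∀ q t, IsM (X.A t) (X.x t) (algebraMap O K₀ (ϖ q)) (γ q)
  PAne : PA.Nonempty
  va : ∀ [DecidableEq {v : HeightOneSpectrum S // v ∈ T}], VA PA e γ
  bd : ∀ (N : ℕ) (b : Basis (Fin N) ℤ (Lat0 I {v : HeightOneSpectrum S // v ∈ T})), DifB PA b →
    ∀ g ∈ Gm, ∀ l, |b.repr (g, 0) l| ≤ C
  B1 : ∀ a : K₀, algebraMap K₀ F a ∈ B
  B2 : ∀ c : M, algebraMap M F c ∈ B
  B3 : B ≤ Subfield.closure (Set.range (algebraMap K₀ F) ∪ Set.range (algebraMap M F))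
  fb : ∀ m, fu (Sum.inl m) ∈ B
  ub : ∀ p : MvPolynomial (Fin s) B,
    MvPolynomial.eval₂Hom B.subtype (fun j => fu (Sum.inr j)) p = 0 → p = 0
  pf : ∀ m, ∃ p : K₀[X], p.Monic ∧ eval₂ (algebraMap K₀ F) (fu (Sum.inl m)) p = 0 ∧
    p.coeff 0 ≠ 0 ∧ ∀ j, p.coeff j = 0 ∨ ∃ g ∈ Gm, ∀ t, IsM (X.A t) (X.x t) (p.coeff j) g
  N1 : ∀ t t', ∀ a ∈ G t', ∀ κ ∈ P,
    (X.H t' / X.H t) ^ N₁ * (a * ∏ i, (X.x t' i / X.x t i) ^ κ.1 i) ∈ X.A t
  Pne : P.Nonempty
  vx : ∀ μ ∈ P, ∃ v ∈ P,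
    (∃ s : Multiset (Lat1 I {v : HeightOneSpectrum S // v ∈ T} r s), (∀ κ ∈ s, κ ∈ P) ∧
      (s.card + 1) • μ = v + s.sum) ∧
    ∃ (N : ℕ) (b : Basis (Fin N) ℤ (Lat1 I {v : HeightOneSpectrum S // v ∈ T} r s)),
      (∀ i, v + b i ∈ P) ∧ (∀ κ ∈ P, ∀ i, 0 ≤ b.repr (κ - v) i) ∧
      (∀ κ ∈ PA, ∀ κ' ∈ PA, Sgn b (j0 r s (κ - κ'))) ∧
      ∀ m, ∀ κ ∈ Bdd PA (3 * C), Sgn b (F0 I _ (Sum.inl m) - j0 r s κ)
  pl : ∀ 𝔓 : Ideal S, 𝔓.IsPrime → ∃ π, PL M 𝔓 T e ϖ π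
  hmin : HMin O S K₀ F

variable {X : LM (⊥ : Subalgebra O K₀) ⊤ Tc I} {T : Finset (HeightOneSpectrum S)} {r s : ℕ}
  {fu : Fin r ⊕ Fin s → F} {G : Tc → Finset K₀}
  {P : Finset (Lat1 I {v : HeightOneSpectrum S // v ∈ T} r s)} {N₁ : ℕ}
  {PA : Finset (Lat0 I {v : HeightOneSpectrum S // v ∈ T})}
  {e : {v : HeightOneSpectrum S // v ∈ T} → ℕ} {ϖ : {v : HeightOneSpectrum S // v ∈ T} → O}
  {γ : {v : HeightOneSpectrum S // v ∈ T} → I → ℤ} {Gm : Set (I → ℤ)} {C : ℕ} {B : Subfield F}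

theorem Dt.hA (D : Dt M X T fu G P N₁ PA e ϖ γ Gm C B) {𝔓 : Ideal S} [𝔓.IsPrime]
    {π : {v : HeightOneSpectrum S // v ∈ T} → S} (hπ : PL M 𝔓 T e ϖ π) (t : Tc) :
    ∀ m ∈ MX M X T fu G P N₁, ∃ s' : S, s' ∉ 𝔓 ∧
      ∃ d : Lat1 I {v : HeightOneSpectrum S // v ∈ T} r s → F,
      (∀ κ, d κ ∈ Subring.closure ((algebraMap K₀ F '' X.A t) ∪ Set.range (algebraMap S F))) ∧
      algebraMap S F s' * m = ∑ κ ∈ P, d κ * (algebraMap K₀ F (X.H t ^ N₁) *
        Yf (Yl (M := M) (F := F) X π t) fu κ) := by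
  classical
  intro m hm
  set Z : Subring F := Subring.closure ((algebraMap K₀ F '' X.A t) ∪ Set.range (algebraMap S F))
    with hZ
  have hAZ : ∀ a ∈ X.A t, algebraMap K₀ F a ∈ Z := fun a ha =>
    Subring.subset_closure (Or.inl ⟨a, ha, rfl⟩)
  have hSZ : ∀ s : S, algebraMap S F s ∈ Z := fun s => Subring.subset_closure (Or.inr ⟨s, rfl⟩)
  unfold MX at hm
  induction hm using Submodule.span_induction with
  | mem m hm =>
    obtain ⟨t', a, ha, κ, hκ, c, hc, rfl⟩ := hm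
    obtain ⟨s', hs', b, hb⟩ := hπ.fid1 κ.2.2 hc
    refine ⟨s', hs', fun κ' => if κ' = κ then algebraMap K₀ F ((X.H t' / X.H t) ^ N₁ *
      (a * ∏ i, (X.x t' i / X.x t i) ^ κ.1 i)) * algebraMap S F b else 0, ?_, ?_⟩
    · intro κ'
      dsimp only
      split_ifs
      · exact Z.mul_mem (hAZ _ (D.N1 t t' a ha κ hκ)) (hSZ b)
      · exact Z.zero_mem
    · rw [Finset.sum_eq_single κ]
      · beta_reduce
        rw [if_pos rfl]
        have h1 : bf X N₁ t' a κ.1 = ((X.H t' / X.H t) ^ N₁ *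
            (a * ∏ i, (X.x t' i / X.x t i) ^ κ.1 i)) * (X.H t ^ N₁ * chr (X.x t) κ.1) := by
          unfold bf chr
          have h2 : ∏ i, X.x t' i ^ κ.1 i =
              (∏ i, (X.x t' i / X.x t i) ^ κ.1 i) * ∏ i, X.x t i ^ κ.1 i := by
            rw [← Finset.prod_mul_distrib]
            refine Finset.prod_congr rfl fun i _ => ?_
            rw [← mul_zpow, div_mul_cancel₀ _ (X.x0 t i)]
          rw [h2, div_pow]
          have h3 := pow_ne_zero N₁ (X.H0 t)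
          field_simp
        rw [h1]
        have h4 : algebraMap S F s' * algebraMap M F c =
            algebraMap S F b * algebraMap M F (Pk M π κ.2.2) := by
          rw [IsScalarTower.algebraMap_apply S M F, IsScalarTower.algebraMap_apply S M F b,
            ← map_mul, ← map_mul, hb]
        show _ = _ * (_ * ((algebraMap K₀ F (chr (X.x t) κ.1) *
          algebraMap M F (Pk M π κ.2.2)) * chr fu κ.2.1))
        rw [map_mul, map_mul (algebraMap K₀ F) (X.H t ^ N₁)]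
        linear_combination (algebraMap K₀ F ((X.H t' / X.H t) ^ N₁ *
            (a * ∏ i, (X.x t' i / X.x t i) ^ κ.1 i)) * (algebraMap K₀ F (X.H t ^ N₁) *
            algebraMap K₀ F (chr (X.x t) κ.1)) * chr fu κ.2.1) * h4
      · intro κ' _ hκ'
        beta_reduce
        rw [if_neg hκ', zero_mul]
      · intro h
        exact absurd hκ h
  | zero =>
    refine ⟨1, (Ideal.ne_top_iff_one 𝔓).1 Ideal.IsPrime.ne_top', 0, fun κ => Z.zero_mem, ?_⟩
    simp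
  | add m m' _ _ h h' =>
    obtain ⟨s', hs', d, hd, h1⟩ := h
    obtain ⟨s'', hs'', d', hd', h2⟩ := h'
    refine ⟨s' * s'', fun h => (Ideal.IsPrime.mem_or_mem ‹𝔓.IsPrime› h).elim hs' hs'',
      fun κ => algebraMap S F s'' * d κ + algebraMap S F s' * d' κ,
      fun κ => Z.add_mem (Z.mul_mem (hSZ _) (hd κ)) (Z.mul_mem (hSZ _) (hd' κ)), ?_⟩
    have h3 : algebraMap S F (s' * s'') * (m + m') = algebraMap S F s'' *
        (algebraMap S F s' * m) + algebraMap S F s' * (algebraMap S F s'' * m') := by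
      rw [map_mul]
      ring
    rw [h3, h1, h2, Finset.mul_sum, Finset.mul_sum, ← Finset.sum_add_distrib]
    exact Finset.sum_congr rfl fun κ _ => by ring
  | smul a m _ h =>
    obtain ⟨s', hs', d, hd, h1⟩ := h
    refine ⟨s', hs', fun κ => algebraMap S F a * d κ, fun κ => Z.mul_mem (hSZ _) (hd κ), ?_⟩
    rw [Algebra.smul_def]
    have h3 : algebraMap S F s' * (algebraMap S F a * m) =
        algebraMap S F a * (algebraMap S F s' * m) := by ring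
    rw [h3, h1, Finset.mul_sum]
    exact Finset.sum_congr rfl fun κ _ => by ring

theorem Dt.hB (D : Dt M X T fu G P N₁ PA e ϖ γ Gm C B) {𝔓 : Ideal S} [𝔓.IsPrime]
    {π : {v : HeightOneSpectrum S // v ∈ T} → S} (hπ : PL M 𝔓 T e ϖ π) (t : Tc)
    {κ : Lat1 I {v : HeightOneSpectrum S // v ∈ T} r s} (hκ : κ ∈ P) {a : K₀} (ha : a ∈ G t) :
    ∃ s' : S, s' ∉ 𝔓 ∧ algebraMap S F s' * (algebraMap K₀ F a * (algebraMap K₀ F (X.H t ^ N₁) *
        Yf (Yl (M := M) (F := F) X π t) fu κ)) ∈ MX M X T fu G P N₁ := by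
  obtain ⟨s', hs', h1⟩ := hπ.fid2 κ.2.2
  refine ⟨s', hs', ?_⟩
  have h2 := mem_MX (F := F) (X := X) (fu := fu) (N₁ := N₁) ha hκ h1
  have h3 : algebraMap S F s' * (algebraMap K₀ F a * (algebraMap K₀ F (X.H t ^ N₁) *
        Yf (Yl (M := M) (F := F) X π t) fu κ)) = algebraMap K₀ F (bf X N₁ t a κ.1) *
        (algebraMap M F (algebraMap S M s' * Pk M π κ.2.2) * chr fu κ.2.1) := by
    show algebraMap S F s' * (algebraMap K₀ F a * (algebraMap K₀ F (X.H t ^ N₁) *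
      ((algebraMap K₀ F (chr (X.x t) κ.1) * algebraMap M F (Pk M π κ.2.2)) * chr fu κ.2.1))) = _
    have h4 : bf X N₁ t a κ.1 = X.H t ^ N₁ * (a * chr (X.x t) κ.1) := rfl
    rw [h4, map_mul, map_mul, map_mul (algebraMap M F), ← IsScalarTower.algebraMap_apply S M F]
    ring
  rw [h3]
  exact h2

end cz

end Pool.Agent.H865.TS
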