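import Pool.Agent.H865.TS.Cw
import Pool.Agent.H865.TT.Fin

/-!
# Existence of the module
-/

set_option autoImplicit false
set_option linter.unusedSectionVars false
set_option linter.unusedVariables false

namespace Pool.Agent.H865.TS

open Module Pool.Agent.K3h75.TO Pool.Agent.H865.TT Pool.Agent.H918R2.Quad
  Pool.Agent.W418.LU2 IsLocalRing Pool.Agent.N98.RM Polynomial IsDedekindDomain

/-- A compatible polytope, without a group. -/
theorem exists_cpoly1 (Λ : Type) [AddCommGroup Λ] [Module.Free ℤ Λ] [Module.Finite ℤ Λ]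
    (H : Set Λ) (hH : H.Finite) : ∃ P : Finset Λ, P.Nonempty ∧ ∀ μ ∈ P, ∃ v ∈ P,
    (∃ s : Multiset Λ, (∀ κ ∈ s, κ ∈ P) ∧ (s.card + 1) • μ = v + s.sum) ∧
    ∃ (n : ℕ) (b : Basis (Fin n) ℤ Λ), (∀ i, v + b i ∈ P) ∧
      (∀ κ ∈ P, ∀ i, 0 ≤ b.repr (κ - v) i) ∧ ∀ δ ∈ H, Sgn b δ := by
  let _ : DistribMulAction Unit Λ :=
    { smul := fun _ x => x
      one_smul := fun _ => rfl
      mul_smul := fun _ _ _ => rfl
      smul_zero := fun _ => rfl
      smul_add := fun _ _ _ => rfl }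
  obtain ⟨P, hP⟩ := exists_cpoly Unit Λ H hH
  exact ⟨P, hP.ne, hP.vx⟩

section ex

variable {G₀ O S K₀ M F : Type} [Group G₀] [Finite G₀] [CommRing O] [CommRing S]
  [IsDedekindDomain S] [Algebra O S]
  [Algebra.IsIntegral O S] [Field K₀] [Algebra O K₀] [Field M] [Algebra S M] [IsFractionRing S M]
  [MulSemiringAction G₀ S] [MulSemiringAction G₀ M]
  [Field F] [Algebra S F] [Algebra O F] [IsScalarTower O S F] [Algebra M F] [IsScalarTower S M F]
  [Algebra K₀ F] [IsScalarTower O K₀ F] {Tc I : Type} [Finite Tc] [Fintype I] [DecidableEq I]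

/-- the action on the full lattice -/
@[reducible] noncomputable def latAct1 (I : Type) {r s : ℕ} {fu : Fin r ⊕ Fin s → F}
    {ρ : G₀ →* (F ≃+* F)} (D : MonA (k := M) G₀ ρ fu)
    (hSM : ∀ (g : G₀) (a : S), algebraMap S M (g • a) = g • algebraMap S M a)
    (T : Finset (HeightOneSpectrum S)) (hT : ∀ (g : G₀), ∀ v ∈ T, sv g v ∈ T) :
    DistribMulAction G₀ (Lat1 I {v : HeightOneSpectrum S // v ∈ T} r s) :=
  letI := D.latAct hSM T hT
  { smul := fun g x => (x.1, g • x.2)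
    one_smul := fun x => by
      show (x.1, (1 : G₀) • x.2) = x
      rw [one_smul]
    mul_smul := fun g h x => by
      show (x.1, (g * h) • x.2) = (x.1, g • h • x.2)
      rw [mul_smul]
    smul_zero := fun g => by
      show ((0 : I → ℤ), g • (0 : (Fin r ⊕ Fin s → ℤ) ×
        ({v : HeightOneSpectrum S // v ∈ T} → ℤ))) = 0
      rw [smul_zero]
      rfl
    smul_add := fun g x y => by
      show (x.1 + y.1, g • (x.2 + y.2)) = (x.1, g • x.2) + (y.1, g • y.2)
      rw [smul_add]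
      rfl }

theorem exists_gens {k K : Type} [CommRing k] [Field K] [Algebra k K] (A : Subalgebra k K)
    [h : Algebra.FiniteType k A] : ∃ G : Finset K, Algebra.adjoin k (G : Set K) = A ∧ 1 ∈ G := by
  classical
  obtain ⟨s, hs⟩ := (Subalgebra.fg_iff_finiteType A).2 h
  refine ⟨insert 1 s, ?_, Finset.mem_insert_self _ _⟩
  apply le_antisymm
  · rw [Algebra.adjoin_le_iff, Finset.coe_insert]
    rintro x (rfl | hx)
    · exact A.one_mem
    · rw [← hs]
      exact Algebra.subset_adjoin hx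
  · rw [← hs]
    exact Algebra.adjoin_mono (Finset.coe_subset.2 (Finset.subset_insert _ _))

/-- nonzero elements of the fractional ideals -/
theorem exists_fid (T : Finset (HeightOneSpectrum S))
    (a : {v : HeightOneSpectrum S // v ∈ T} → ℤ) : ∃ c ∈ fid M (ex0 T a), c ≠ 0 := by
  have hinj : Function.Injective (algebraMap S M) := IsFractionRing.injective S M
  obtain ⟨y, hy, hyT⟩ := approx (k := M) (ex0_fin T a).toFinset (ex0 T a) (⊥ : Ideal S)
    fun v _ => v.ne_bot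
  have hy0 : algebraMap S M y ≠ 0 := by
    intro h
    exact hy (by rw [hinj (h.trans (map_zero _).symm)]; exact Ideal.zero_mem _)
  refine ⟨algebraMap S M y, (mem_fid hy0).2 fun v => ?_, hy0⟩
  by_cases h0 : ex0 T a v = 0
  · rw [h0]
    exact vd_nonneg v y hy0
  · exact hyT v ((ex0_fin T a).mem_toFinset.2 h0)

/-- **The module.** -/
theorem exists_MX (hSM : ∀ (g : G₀) (a : S), algebraMap S M (g • a) = g • algebraMap S M a)
    (ρ : G₀ →* (F ≃+* F)) (hρK : ∀ g (a : K₀), ρ g (algebraMap K₀ F a) = algebraMap K₀ F a)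
    {r s : ℕ} {fu : Fin r ⊕ Fin s → F} (D : MonA (k := M) G₀ ρ fu)
    (T : Finset (HeightOneSpectrum S)) (hTst : ∀ (g : G₀), ∀ v ∈ T, sv g v ∈ T)
    (hTc : ∀ v, v ∉ T → ∀ g i, vd v (D.c0 g i) = 0)
    (X : LM (⊥ : Subalgebra O K₀) ⊤ Tc I) (hX : Frc X)
    (e : {v : HeightOneSpectrum S // v ∈ T} → ℕ) (ϖ : {v : HeightOneSpectrum S // v ∈ T} → O)
    (hϖ : ∀ q, IsB X (algebraMap O K₀ (ϖ q)))
    (B : Subfield F) (B1 : ∀ a : K₀, algebraMap K₀ F a ∈ B) (B2 : ∀ c : M, algebraMap M F c ∈ B)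
    (B3 : B ≤ Subfield.closure (Set.range (algebraMap K₀ F) ∪ Set.range (algebraMap M F)))
    (fb : ∀ m, fu (Sum.inl m) ∈ B)
    (ub : ∀ p : MvPolynomial (Fin s) B,
      MvPolynomial.eval₂Hom B.subtype (fun j => fu (Sum.inr j)) p = 0 → p = 0)
    (pf : ∀ m, ∃ p : K₀[X], p.Monic ∧ eval₂ (algebraMap K₀ F) (fu (Sum.inl m)) p = 0 ∧
      p.coeff 0 ≠ 0 ∧ ∀ j, p.coeff j = 0 ∨ IsB X (p.coeff j))
    (pl : ∀ 𝔓 : Ideal S, 𝔓.IsPrime → ∃ π, PL M 𝔓 T e ϖ π) (hmin : HMin O S K₀ F) :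
    ∃ MM : Submodule S F, MM.FG ∧ (∀ g, ∀ z ∈ MM, ρ g z ∈ MM) ∧
      (∀ f ∈ MM, f ≠ 0 → ∀ (q : Ideal (chart S MM f)) [q.IsPrime],
        IsRegularLocalRing (Localization.AtPrime q)) ∧ (∃ z ∈ MM, z ≠ 0) ∧
      ∀ (L : Subfield F) (f : F), (∀ c : M, algebraMap M F c ∈ L) → (∀ z ∈ MM, z / f ∈ L) →
        f ≠ 0 → (∀ a : K₀, algebraMap K₀ F a ∈ L) ∧ ∀ a, fu a ∈ L := by
  classical
  choose γ hγ using hϖ
  choose p hpm hp0 hpc hpj using pf
  -- the exponents of the coefficients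
  have h1 : ∀ m j, ∃ g : I → ℤ, (p m).coeff j ≠ 0 →
      ∀ t, IsM (X.A t) (X.x t) ((p m).coeff j) g := by
    intro m j
    rcases hpj m j with h | ⟨g, hg⟩
    · exact ⟨0, fun h' => absurd h h'⟩
    · exact ⟨g, fun _ => hg⟩
  choose gm hgm using h1
  let Gm : Set (I → ℤ) := ⋃ m, (gm m) '' (Finset.range ((p m).natDegree + 1) : Set ℕ)
  have hGm : Gm.Finite := Set.finite_iUnion fun m => (Finset.finite_toSet _).image _
  have hpf : ∀ m, ∃ p : K₀[X], p.Monic ∧ eval₂ (algebraMap K₀ F) (fu (Sum.inl m)) p = 0 ∧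
      p.coeff 0 ≠ 0 ∧ ∀ j, p.coeff j = 0 ∨ ∃ g ∈ Gm, ∀ t, IsM (X.A t) (X.x t) (p.coeff j) g := by
    intro m
    refine ⟨p m, hpm m, hp0 m, hpc m, fun j => ?_⟩
    by_cases h0 : (p m).coeff j = 0
    · exact Or.inl h0
    · refine Or.inr ⟨gm m j, Set.mem_iUnion.2 ⟨m, j, ?_, rfl⟩, hgm m j h0⟩
      rw [Finset.mem_coe, Finset.mem_range]
      exact Nat.lt_succ_of_le (le_natDegree_of_ne_zero h0)
  -- the first polytope
  let HA : Set (Lat0 I {v : HeightOneSpectrum S // v ∈ T}) :=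
    (Set.range (X0 (I := I) {v : HeightOneSpectrum S // v ∈ T}) ∪
      Set.range (E0 (T := {v : HeightOneSpectrum S // v ∈ T}) I)) ∪
      Set.range fun q => e q • E0 I q - (γ q, 0)
  have hHA : HA.Finite :=
    ((Set.finite_range _).union (Set.finite_range _)).union (Set.finite_range _)
  obtain ⟨PA, hPAne, hPAv⟩ := exists_cpoly1 _ HA hHA
  have hVA0 : VA PA e γ := by
    intro μ hμ
    obtain ⟨v, hv, hs, N, b, h1, h2, h3⟩ := hPAv μ hμ
    refine ⟨v, hv, hs, N, b, h1, h2, fun i => h3 _ (Or.inl (Or.inl ⟨i, rfl⟩)), fun q => ?_,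
      fun q => ?_⟩
    · exact h3 _ (Or.inl (Or.inr ⟨q, rfl⟩))
    · exact h3 _ (Or.inr ⟨q, rfl⟩)
  have hVA : ∀ [DecidableEq {v : HeightOneSpectrum S // v ∈ T}], VA PA e γ := by
    have key : ∀ (d1 d2 : DecidableEq {v : HeightOneSpectrum S // v ∈ T}),
        (letI := d1; VA PA e γ) → (letI := d2; VA PA e γ) := by
      intro d1 d2 h
      obtain rfl : d1 = d2 := Subsingleton.elim _ _
      exact h
    intro dec
    exact key _ dec hVA0
  obtain ⟨C, hC⟩ := exists_bd PA (G := (fun g : I → ℤ =>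
    ((g, 0) : Lat0 I {v : HeightOneSpectrum S // v ∈ T})) '' Gm) (hGm.image _)
  -- the second polytope
  let _ : DistribMulAction G₀ (Lat1 I {v : HeightOneSpectrum S // v ∈ T} r s) :=
    latAct1 I D hSM T hTst
  let H : Set (Lat1 I {v : HeightOneSpectrum S // v ∈ T} r s) :=
    (Set.range fun p : {κ // κ ∈ PA} × {κ // κ ∈ PA} => j0 r s (p.1.1 - p.2.1)) ∪
      ⋃ m : Fin r, (fun κ => F0 I _ (Sum.inl m) - j0 r s κ) '' Bdd PA (3 * C)
  have hH : H.Finite := (Set.finite_range _).union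
    (Set.finite_iUnion fun m => (finite_Bdd PA _).image _)
  obtain ⟨P, hP⟩ := exists_cpoly G₀ (Lat1 I {v : HeightOneSpectrum S // v ∈ T} r s) H hH
  have hPv : ∀ μ ∈ P, ∃ v ∈ P,
      (∃ s : Multiset (Lat1 I {v : HeightOneSpectrum S // v ∈ T} r s), (∀ κ ∈ s, κ ∈ P) ∧
        (s.card + 1) • μ = v + s.sum) ∧
      ∃ (N : ℕ) (b : Basis (Fin N) ℤ (Lat1 I {v : HeightOneSpectrum S // v ∈ T} r s)),
        (∀ i, v + b i ∈ P) ∧ (∀ κ ∈ P, ∀ i, 0 ≤ b.repr (κ - v) i) ∧
        (∀ κ ∈ PA, ∀ κ' ∈ PA, Sgn b (j0 r s (κ - κ'))) ∧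
        ∀ m, ∀ κ ∈ Bdd PA (3 * C), Sgn b (F0 I _ (Sum.inl m) - j0 r s κ) := by
    intro μ hμ
    obtain ⟨v, hv, hs, N, b, h1, h2, h3⟩ := hP.vx μ hμ
    exact ⟨v, hv, hs, N, b, h1, h2,
      fun κ hκ κ' hκ' => h3 _ (Or.inl ⟨(⟨κ, hκ⟩, ⟨κ', hκ'⟩), rfl⟩),
      fun m κ hκ => h3 _ (Or.inr (Set.mem_iUnion.2 ⟨m, κ, hκ, rfl⟩))⟩
  -- generators of the charts
  have hgen : ∀ t, ∃ G : Finset K₀, Algebra.adjoin O (G : Set K₀) = X.A t ∧ 1 ∈ G := by
    intro t
    have := X.ft t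
    exact exists_gens (X.A t)
  choose G hG hG1 using hgen
  have hGA : ∀ t, ∀ a ∈ G t, a ∈ X.A t := fun t a ha => by
    rw [← hG t]
    exact Algebra.subset_adjoin ha
  obtain ⟨N₁, hN₁⟩ := exists_N1 (X := X) G hGA P fun κ => κ.1
  have hDt : Dt M X T fu G P N₁ PA e ϖ γ Gm C B :=
    { frc := hX
      fu0 := D.hy
      gen := hG
      one := hG1
      hγ := hγ
      PAne := hPAne
      va := hVA
      bd := fun N b hb g hg l => hC N b hb _ ⟨g, hg, rfl⟩ l
      B1 := B1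
      B2 := B2
      B3 := B3
      fb := fb
      ub := ub
      pf := hpf
      N1 := fun t t' a ha κ hκ => hN₁ t t' a ha κ hκ
      Pne := hP.ne
      vx := hPv
      pl := pl
      hmin := hmin }
  refine ⟨MX M X T fu G P N₁, MX_fg X T fu G P N₁, ?_, fun f hf hf0 q _ => hDt.reg f hf hf0 q,
    ?_, ?_⟩
  · -- stability
    intro g z hz
    have hTcc : ∀ v, v ∉ T → ∀ g a, vd v (D.cc g a) = 0 := fun v hv g a =>
      D.cc_supp (fun g i => hTc v hv g i) g a
    unfold MX at hz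
    induction hz using Submodule.span_induction with
    | mem z hz =>
      obtain ⟨t, a, ha, κ, hκ, c, hc, rfl⟩ := hz
      rw [map_mul, hρK, map_mul, D.hρ, D.eq, ← mul_assoc (algebraMap M F (g • c)), ← map_mul]
      have h1 : (g • κ).2.1 = D.act g κ.2.1 := rfl
      have h0 : (g • κ).1 = κ.1 := rfl
      rw [← h1, ← h0]
      apply mem_MX ha (hP.st g κ hκ)
      by_cases hc0 : c = 0
      · rw [hc0, smul_zero, zero_mul]
        exact Submodule.zero_mem _
      · have hgc0 : g • c ≠ 0 := (smul_ne_zero_iff_ne g).2 hc0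
        rw [mem_fid (mul_ne_zero hgc0 (D.cc_ne _ _))]
        intro v
        rw [vd_mul v hgc0 (D.cc_ne _ _)]
        have h2 : vd v (g • c) = vd (sv g⁻¹ v) c := by
          have h3 := vd_smul hSM g (sv g⁻¹ v) c
          rwa [← sv_mul, mul_inv_cancel, sv_one] at h3
        have h3 := (mem_fid hc0).1 hc (sv g⁻¹ v)
        rw [h2]
        by_cases hv : v ∈ T
        · rw [ex0_of_mem T _ v hv]
          show ex0 T κ.2.2 (sv g⁻¹ v) + vd v (D.cc g κ.2.1) ≤ _
          linarith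
        · rw [ex0_of_notMem T _ v hv, hTcc v hv]
          have h4 : sv g⁻¹ v ∉ T := by
            intro h4
            have h5 := hTst g _ h4
            rw [← sv_mul, mul_inv_cancel, sv_one] at h5
            exact hv h5
          rw [ex0_of_notMem T _ _ h4] at h3
          linarith
    | zero => rw [map_zero]; exact Submodule.zero_mem _
    | add x y _ _ hx hy => rw [map_add]; exact Submodule.add_mem _ hx hy
    | smul r x _ hx =>
      rw [Algebra.smul_def, map_mul, IsScalarTower.algebraMap_apply S M F, D.hρ, ← hSM,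
        ← IsScalarTower.algebraMap_apply, ← Algebra.smul_def]
      exact Submodule.smul_mem _ _ hx
  · -- nonzero elements
    obtain ⟨κ, hκ⟩ := hP.ne
    obtain ⟨t⟩ := nonempty_T X
    obtain ⟨c, hc, hc0⟩ := exists_fid (M := M) T κ.2.2
    refine ⟨_, mem_MX (hG1 t) hκ hc, mul_ne_zero ?_ (mul_ne_zero ?_ (chr_ne_zero D.hy _))⟩
    · rw [Ne, map_eq_zero]
      exact mul_ne_zero (pow_ne_zero _ (X.H0 t)) (mul_ne_zero one_ne_zero
        (chr_ne_zero (X.x0 t) κ.1))
    · rwa [Ne, map_eq_zero]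
  · -- generation
    intro L f hML hzL hf0
    obtain ⟨t⟩ := nonempty_T X
    have hbf : ∀ a : K₀, a ≠ 0 → ∀ κ : I → ℤ, algebraMap K₀ F (bf X N₁ t a κ) ≠ 0 := by
      intro a ha κ
      rw [Ne, map_eq_zero]
      exact mul_ne_zero (pow_ne_zero _ (X.H0 t)) (mul_ne_zero ha (chr_ne_zero (X.x0 t) κ))
    have h1 : ∀ κ ∈ P, ∀ a ∈ G t,
        algebraMap K₀ F (bf X N₁ t a κ.1) * chr fu κ.2.1 / f ∈ L := by
      intro κ hκ a ha
      obtain ⟨c, hc, hc0⟩ := exists_fid (M := M) T κ.2.2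
      have h2 := hzL _ (mem_MX (F := F) (X := X) (fu := fu) (N₁ := N₁) ha hκ hc)
      have hcF : algebraMap M F c ≠ 0 := by rwa [Ne, map_eq_zero]
      have h3 : algebraMap K₀ F (bf X N₁ t a κ.1) * chr fu κ.2.1 / f = (algebraMap M F c)⁻¹ *
          (algebraMap K₀ F (bf X N₁ t a κ.1) * (algebraMap M F c * chr fu κ.2.1) / f) := by
        field_simp
      rw [h3]
      exact L.mul_mem (L.inv_mem (hML c)) h2
    obtain ⟨μ, hμ⟩ := hP.ne
    have h2 : ∀ a ∈ G t, algebraMap K₀ F a ∈ L := by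
      intro a ha
      have h3 := h1 μ hμ a ha
      have h4 := h1 μ hμ 1 (hG1 t)
      have h5 : algebraMap K₀ F a = (algebraMap K₀ F (bf X N₁ t a μ.1) * chr fu μ.2.1 / f) /
          (algebraMap K₀ F (bf X N₁ t 1 μ.1) * chr fu μ.2.1 / f) := by
        have h6 : bf X N₁ t a μ.1 = a * bf X N₁ t 1 μ.1 := by
          unfold bf
          ring
        have h7 := hbf 1 one_ne_zero μ.1
        have h8 := chr_ne_zero D.hy μ.2.1
        rw [h6, map_mul]
        field_simp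
      rw [h5]
      exact L.div_mem h3 h4
    have h3 : ∀ a ∈ X.A t, algebraMap K₀ F a ∈ L := by
      intro a ha
      rw [← hG t] at ha
      induction ha using Algebra.adjoin_induction with
      | mem a ha => exact h2 a ha
      | algebraMap o =>
        rw [← IsScalarTower.algebraMap_apply O K₀ F, IsScalarTower.algebraMap_apply O S F,
          IsScalarTower.algebraMap_apply S M F]
        exact hML _
      | add a b _ _ ha hb => rw [map_add]; exact L.add_mem ha hb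
      | mul a b _ _ ha hb => rw [map_mul]; exact L.mul_mem ha hb
    have h4 : ∀ a : K₀, algebraMap K₀ F a ∈ L := by
      intro a
      obtain ⟨a₁, ha₁, a₂, ha₂, -, rfl⟩ := hX t a
      rw [map_mul, map_inv₀]
      exact L.mul_mem (h3 _ ha₁) (L.inv_mem (h3 _ ha₂))
    refine ⟨h4, ?_⟩
    have h5 : ∀ κ ∈ P, chr fu κ.2.1 / f ∈ L := by
      intro κ hκ
      have h6 := h1 κ hκ 1 (hG1 t)
      have h7 := hbf 1 one_ne_zero κ.1
      have h8 : chr fu κ.2.1 / f = (algebraMap K₀ F (bf X N₁ t 1 κ.1))⁻¹ *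
          (algebraMap K₀ F (bf X N₁ t 1 κ.1) * chr fu κ.2.1 / f) := by
        field_simp
      rw [h8]
      exact L.mul_mem (L.inv_mem (h4 _)) h6
    obtain ⟨v, hv, -, N, b, hb1, -, -⟩ := hPv μ hμ
    have h6 : ∀ i, chr fu (b i).2.1 ∈ L := by
      intro i
      have h7 : chr fu (b i).2.1 = (chr fu (v + b i).2.1 / f) / (chr fu v.2.1 / f) := by
        have h8 : (v + b i).2.1 = v.2.1 + (b i).2.1 := rfl
        rw [h8, chr_add D.hy]
        have := chr_ne_zero D.hy v.2.1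
        field_simp
      rw [h7]
      exact L.div_mem (h5 _ (hb1 i)) (h5 _ hv)
    have h7 : ∀ κ : Lat1 I {v : HeightOneSpectrum S // v ∈ T} r s, chr fu κ.2.1 ∈ L := by
      intro κ
      have h8 : κ.2.1 = ∑ i, b.repr κ i • (b i).2.1 := by
        conv_lhs => rw [← b.sum_repr κ]
        rw [Prod.snd_sum, Prod.fst_sum]
        rfl
      rw [h8, chr_sum D.hy]
      refine Subfield.prod_mem L fun i _ => ?_
      rw [chr_zsmul]
      exact L.zpow_mem (h6 i) _
    intro a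
    have h8 := h7 (0, (Pi.single a 1, 0))
    rwa [chr_single] at h8

end ex

end Pool.Agent.H865.TS
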