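import Pool.Agent.H865.TS.StC

/-!
# Functions with boundary characteristic polynomials are units times characters
-/

set_option autoImplicit false
set_option linter.unusedSectionVars false
set_option linter.unusedVariables false

namespace Pool.Agent.H865.TS

open Module Pool.Agent.K3h75.TO Pool.Agent.H865.TT Pool.Agent.H918R2.Quad
  Pool.Agent.W418.LU2 IsLocalRing Polynomial

/-- Divisors of products of powers of units and primes. -/
theorem dvd_prod_pow {R : Type} [CommRing R] [IsDomain R] {N : ℕ} {z : Fin N → R}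
    (hz : ∀ l, IsUnit (z l) ∨ Prime (z l)) : ∀ (m : ℕ) (n : Fin N → ℕ), ∑ l, n l = m → ∀ g : R,
    g ∣ ∏ l, z l ^ n l → ∃ (k : Fin N → ℕ) (u : R), IsUnit u ∧ (∀ l, k l ≤ n l) ∧
      g = u * ∏ l, z l ^ k l := by
  classical
  intro m
  induction m with
  | zero =>
    intro n hn g hg
    have h1 : ∀ l, n l = 0 := fun l => (Finset.sum_eq_zero_iff.1 hn) l (Finset.mem_univ l)
    simp only [h1, pow_zero, Finset.prod_const_one] at hg
    exact ⟨fun _ => 0, g, isUnit_of_dvd_one hg, fun l => Nat.zero_le _, by simp⟩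
  | succ m ih =>
    intro n hn g hg
    obtain ⟨l₀, hl₀⟩ : ∃ l, n l ≠ 0 := by
      by_contra hcon
      push Not at hcon
      simp [hcon] at hn
    let n' : Fin N → ℕ := Function.update n l₀ (n l₀ - 1)
    have hn'0 : n' l₀ = n l₀ - 1 := Function.update_self _ _ _
    have hn'1 : ∀ l, l ≠ l₀ → n' l = n l := fun l hl => Function.update_of_ne hl _ _
    have hsum : ∑ l, n' l = m := by
      have e1 : ∑ l ∈ Finset.univ.erase l₀, n' l = ∑ l ∈ Finset.univ.erase l₀, n l :=
        Finset.sum_congr rfl fun l hl => hn'1 l (Finset.ne_of_mem_erase hl)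
      have e2 := Finset.add_sum_erase Finset.univ n (Finset.mem_univ l₀)
      have e3 := Finset.add_sum_erase Finset.univ n' (Finset.mem_univ l₀)
      rw [e1, hn'0] at e3
      omega
    have hle : ∀ l, n' l ≤ n l := by
      intro l
      by_cases h : l = l₀
      · rw [h, hn'0]; omega
      · rw [hn'1 l h]
    have hprod : ∏ l, z l ^ n l = z l₀ * ∏ l, z l ^ n' l := by
      have e1 : ∏ l ∈ Finset.univ.erase l₀, z l ^ n' l = ∏ l ∈ Finset.univ.erase l₀, z l ^ n l :=
        Finset.prod_congr rfl fun l hl => by rw [hn'1 l (Finset.ne_of_mem_erase hl)]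
      rw [← Finset.mul_prod_erase _ (fun l => z l ^ n l) (Finset.mem_univ l₀),
        ← Finset.mul_prod_erase _ (fun l => z l ^ n' l) (Finset.mem_univ l₀), hn'0, e1,
        ← mul_assoc, ← pow_succ', Nat.sub_add_cancel (Nat.one_le_iff_ne_zero.2 hl₀)]
    have hfin : g ∣ ∏ l, z l ^ n' l → ∃ (k : Fin N → ℕ) (u : R), IsUnit u ∧
        (∀ l, k l ≤ n l) ∧ g = u * ∏ l, z l ^ k l := by
      intro h
      obtain ⟨k, u, hu, hk, rfl⟩ := ih n' hsum g h
      exact ⟨k, u, hu, fun l => (hk l).trans (hle l), rfl⟩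
    rw [hprod] at hg
    rcases hz l₀ with hu | hp
    · exact hfin ((IsUnit.dvd_mul_left hu).1 hg)
    · by_cases hd : z l₀ ∣ g
      · obtain ⟨g', rfl⟩ := hd
        have h1 : g' ∣ ∏ l, z l ^ n' l := (mul_dvd_mul_iff_left hp.ne_zero).1 hg
        obtain ⟨k, u, hu, hk, rfl⟩ := ih n' hsum g' h1
        refine ⟨Function.update k l₀ (k l₀ + 1), u, hu, ?_, ?_⟩
        · intro l
          by_cases h : l = l₀
          · rw [h, Function.update_self]
            have := hk l₀
            rw [hn'0] at this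
            omega
          · rw [Function.update_of_ne h]
            exact (hk l).trans (hle l)
        · have e1 : ∏ l ∈ Finset.univ.erase l₀, z l ^ Function.update k l₀ (k l₀ + 1) l =
              ∏ l ∈ Finset.univ.erase l₀, z l ^ k l :=
            Finset.prod_congr rfl fun l hl => by
              rw [Function.update_of_ne (Finset.ne_of_mem_erase hl)]
          rw [← Finset.mul_prod_erase _ (fun l => z l ^ k l) (Finset.mem_univ l₀),
            ← Finset.mul_prod_erase _ (fun l => z l ^ Function.update k l₀ (k l₀ + 1) l)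
              (Finset.mem_univ l₀), Function.update_self, e1]
          ring
      · obtain ⟨h, hh⟩ := hg
        have h1 : z l₀ ∣ g * h := ⟨_, hh.symm⟩
        rcases hp.dvd_or_dvd h1 with h2 | ⟨h', rfl⟩
        · exact absurd h2 hd
        · apply hfin
          refine ⟨h', ?_⟩
          apply mul_left_cancel₀ hp.ne_zero
          rw [hh]
          ring

section loc

variable {F Λ : Type} [Field F] [AddCommGroup Λ] {N : ℕ}

/-- a unit times a character with bounded exponents, or zero -/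
def IsMn (R : Subring F) (Y : Λ → F) (b : Basis (Fin N) ℤ Λ) (C : ℤ) (a : F) : Prop :=
  a = 0 ∨ ∃ (w : F) (γ : Λ), U R w ∧ a = w * Y γ ∧ ∀ l, |b.repr γ l| ≤ C

theorem IsMn.div {R : Subring F} {Y : Λ → F} (hY : IsChar Y) {b : Basis (Fin N) ℤ Λ} {C C' : ℤ}
    {a a' : F} (h : IsMn R Y b C a) (h' : IsMn R Y b C' a') : IsMn R Y b (C + C') (a / a') := by
  rcases h with rfl | ⟨w, γ, hw, rfl, hγ⟩
  · exact Or.inl (zero_div _)
  rcases h' with rfl | ⟨w', γ', hw', rfl, hγ'⟩
  · exact Or.inl (div_zero _)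
  refine Or.inr ⟨w / w', γ - γ', hw.div hw', ?_, fun l => ?_⟩
  · rw [sub_eq_add_neg, hY.add]
    have h1 := hY.neg_mul γ'
    have h2 : Y (-γ') = (Y γ')⁻¹ := eq_inv_of_mul_eq_one_left h1
    rw [h2]
    have := hw'.1
    have := (hY.isUnit γ').ne_zero
    field_simp
  · rw [map_sub, Finsupp.sub_apply]
    exact (abs_sub _ _).trans (add_le_add (hγ l) (hγ' l))

theorem IsMn.mono {R : Subring F} {Y : Λ → F} {b : Basis (Fin N) ℤ Λ} {C C' : ℤ}
    {a : F} (h : IsMn R Y b C a) (hC : C ≤ C') : IsMn R Y b C' a := by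
  rcases h with rfl | ⟨w, γ, hw, rfl, hγ⟩
  · exact Or.inl rfl
  · exact Or.inr ⟨w, γ, hw, rfl, fun l => (hγ l).trans hC⟩

variable {R : Subring F} {Y : Λ → F} (hY : IsChar Y) (b : Basis (Fin N) ℤ Λ)
  (hbR : ∀ l, Y (b l) ∈ R)

include hY hbR in
theorem Y_mem {κ : Λ} (hκ : ∀ l, 0 ≤ b.repr κ l) : Y κ ∈ R := by
  rw [hY.pos b hκ]
  exact R.prod_mem fun l _ => R.pow_mem (hbR l) _

include hY hbR in
theorem IsMn.mul_mem {C : ℕ} {a : F} (h : IsMn R Y b C a) :
    a * (∏ l, Y (b l)) ^ C ∈ R := by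
  rcases h with rfl | ⟨w, γ, hw, rfl, hγ⟩
  · rw [zero_mul]
    exact R.zero_mem
  · have h1 : (∏ l, Y (b l)) ^ C = Y (C • ∑ l, b l) := by
      rw [hY.nsmul, hY.sum]
    rw [h1, mul_assoc, ← hY.add]
    refine R.mul_mem hw.2.1 (Y_mem hY b hbR fun l => ?_)
    rw [map_add, Finsupp.add_apply, map_nsmul, map_sum, Finsupp.smul_apply, Finsupp.finsetSum_apply]
    have h2 : ∑ i, (b.repr (b i)) l = 1 := by
      rw [Finset.sum_eq_single l]
      · rw [b.repr_self, Finsupp.single_eq_same]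
      · intro i _ hi
        rw [b.repr_self, Finsupp.single_eq_of_ne (Ne.symm hi)]
      · intro h
        exact absurd (Finset.mem_univ l) h
    rw [h2]
    have h3 := (abs_le.1 (hγ l)).1
    simp only [nsmul_eq_mul, mul_one]
    linarith

include hY hbR in
/-- integrality -/
theorem int_mem (hic : IsIntegrallyClosed R) {C : ℕ} {f : F}
    (hfr : ∃ a ∈ R, ∃ c ∈ R, c ≠ 0 ∧ f = a / c) (p : F[X]) (hp : p.Monic) (hf : p.eval f = 0)
    (hc : ∀ j, IsMn R Y b C (p.coeff j)) : f * (∏ l, Y (b l)) ^ C ∈ R := by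
  classical
  obtain ⟨Z, hZ⟩ : ∃ Z, Z = (∏ l, Y (b l)) ^ C := ⟨_, rfl⟩
  rw [← hZ]
  have hZR : Z ∈ R := by
    rw [hZ]
    exact R.pow_mem (R.prod_mem fun l _ => hbR l) _
  have hsc : ∀ j, (scaleRoots p Z).coeff j ∈ R := by
    intro j
    rw [coeff_scaleRoots]
    by_cases hj : j < p.natDegree
    · obtain ⟨d, hd⟩ := Nat.exists_eq_add_of_lt hj
      have : p.natDegree - j = d + 1 := by omega
      rw [this, pow_succ', ← mul_assoc]
      refine R.mul_mem ?_ (R.pow_mem hZR _)
      rw [hZ]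
      exact (hc j).mul_mem hY b hbR
    · have h0 : p.natDegree - j = 0 := by omega
      rw [h0, pow_zero, mul_one]
      by_cases hj' : j = p.natDegree
      · rw [hj', hp.coeff_natDegree]
        exact R.one_mem
      · rw [coeff_eq_zero_of_natDegree_lt (by omega)]
        exact R.zero_mem
  have hlift : scaleRoots p Z ∈ lifts (algebraMap R F) := by
    rw [lifts_iff_coeff_lifts]
    intro j
    exact ⟨⟨_, hsc j⟩, rfl⟩
  obtain ⟨P, hP, -, hPm⟩ := lifts_and_natDegree_eq_and_monic hlift ((monic_scaleRoots_iff Z).2 hp)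
  have hroot : P.eval₂ (algebraMap R F) (f * Z) = 0 := by
    rw [← eval_map, hP, mul_comm]
    exact scaleRoots_eval₂_eq_zero (RingHom.id F) (by rwa [eval₂_id])
  have hint : IsIntegral R (f * Z) := ⟨P, hPm, hroot⟩
  -- the fraction field
  let K := FractionRing R
  have hRF : Function.Injective (algebraMap R F) := Subtype.val_injective
  let g : K →+* F := IsLocalization.lift (M := nonZeroDivisors R) (g := algebraMap R F)
    (fun y => IsUnit.mk0 _ fun h => nonZeroDivisors.ne_zero y.2 (hRF (by rw [h, map_zero])))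
  have hg : ∀ r, g (algebraMap R K r) = algebraMap R F r := fun r => IsLocalization.lift_eq _ r
  obtain ⟨a, ha, c, hc', hc0, rfl⟩ := hfr
  obtain ⟨x, hx⟩ : ∃ x : K, g x = a / c * Z := by
    refine ⟨algebraMap R K ⟨a, ha⟩ / algebraMap R K ⟨c, hc'⟩ * algebraMap R K ⟨Z, hZR⟩, ?_⟩
    rw [map_mul, map_div₀, hg, hg, hg]
    rfl
  have hxint : IsIntegral R x := by
    refine ⟨P, hPm, ?_⟩
    apply g.injective
    rw [map_zero, hom_eval₂, hx]
    convert hroot using 2
    ext r
    exact hg r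
  obtain ⟨y, hy⟩ := IsIntegrallyClosed.isIntegral_iff.1 hxint
  rw [← hx, ← hy, hg]
  exact y.2

include hY in
/-- **Functions with boundary characteristic polynomials.** -/
theorem loc_fac (hreg : IsRegularLocalRing R)
    (hind : @IndN R _ hreg.toIsLocalRing (Fin N) _ (fun l => ⟨Y (b l), hbR l⟩))
    (hic : IsIntegrallyClosed R) {C : ℕ} {f : F} (hf0 : f ≠ 0)
    (hfr : ∃ a ∈ R, ∃ c ∈ R, c ≠ 0 ∧ f = a / c) (p : F[X]) (hp : p.Monic) (hf : p.eval f = 0)
    (hp0 : p.coeff 0 ≠ 0) (hc : ∀ j, IsMn R Y b C (p.coeff j)) :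
    ∃ (w : F) (k : Fin N → ℤ), U R w ∧ (∀ l, |k l| ≤ 3 * C) ∧ f = w * Y (∑ l, k l • b l) := by
  classical
  have h1 := int_mem hY b hbR hic hfr p hp hf hc
  -- the inverse
  have hfr' : ∃ a ∈ R, ∃ c ∈ R, c ≠ 0 ∧ f⁻¹ = a / c := by
    obtain ⟨a, ha, c, hc, hc0, rfl⟩ := hfr
    refine ⟨c, hc, a, ha, ?_, by rw [inv_div]⟩
    rintro rfl
    exact hf0 (zero_div _)
  have hrl : p.reverse.leadingCoeff = p.coeff 0 := by
    rw [reverse_leadingCoeff, trailingCoeff, natTrailingDegree_eq_zero.2 (Or.inr hp0)]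
  have h2 := int_mem (C := 2 * C) hY b hbR hic hfr' (Polynomial.C (p.coeff 0)⁻¹ * p.reverse)
    (by
      rw [Monic, leadingCoeff_mul, leadingCoeff_C, hrl, inv_mul_cancel₀ hp0])
    (by
      rw [eval_mul]
      have h3 : p.reverse.eval f⁻¹ = 0 := by
        let _ : Invertible f := invertibleOfNonzero hf0
        have h4 := (eval₂_reverse_eq_zero_iff (RingHom.id F) f p).2 (by rwa [eval₂_id])
        rwa [eval₂_id, invOf_eq_inv] at h4
      rw [h3, mul_zero])
    (by
      intro j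
      rw [coeff_C_mul, mul_comm (p.coeff 0)⁻¹, ← div_eq_mul_inv]
      have h3 : IsMn R Y b C (p.reverse.coeff j) := by
        rw [coeff_reverse]
        exact hc _
      have h4 := h3.div hY (hc 0)
      refine h4.mono ?_
      push_cast
      linarith)
  obtain ⟨Z, hZ⟩ : ∃ Z, Z = ∏ l, Y (b l) := ⟨_, rfl⟩
  rw [← hZ] at h1 h2
  have hdom : IsDomain R := inferInstance
  have hlr : IsLocalRing R := hreg.toIsLocalRing
  let z : Fin N → R := fun l => ⟨Y (b l), hbR l⟩
  have hzp : ∀ l, IsUnit (z l) ∨ Prime (z l) := by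
    intro l
    by_cases hu : IsUnit (z l)
    · exact Or.inl hu
    · right
      have hm : z l ∈ maximalIdeal R := hu
      have h3 : Ind (fun _ : Unit => z l) := hind.ind (fun _ : Unit => l) (fun _ _ _ => rfl)
        (fun _ => hm)
      exact h3.prime ()
  have hprod : (⟨_, h1⟩ : R) * ⟨_, h2⟩ = ∏ l, z l ^ (3 * C) := by
    apply Subtype.ext
    rw [Subring.coe_mul, SubmonoidClass.coe_finsetProd]
    have h3 : ∏ l, ((z l ^ (3 * C) : R) : F) = Z ^ (3 * C) := by
      rw [hZ, ← Finset.prod_pow]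
      rfl
    rw [h3]
    show f * Z ^ C * (f⁻¹ * Z ^ (2 * C)) = Z ^ (3 * C)
    have h4 : 3 * C = C + 2 * C := by ring
    rw [h4, pow_add]
    field_simp
  obtain ⟨k, u, hu, hk, hku⟩ := dvd_prod_pow hzp _ (fun _ => 3 * C) rfl ⟨_, h1⟩ ⟨_, hprod.symm⟩
  have hku' : f * Z ^ C = (u : F) * ∏ l, Y (b l) ^ k l := by
    have h3 := congrArg Subtype.val hku
    rw [Subring.coe_mul, SubmonoidClass.coe_finsetProd] at h3
    exact h3
  refine ⟨u, fun l => (k l : ℤ) - C, (isUnit_iff_U u).1 hu, ?_, ?_⟩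
  · intro l
    have h3 := hk l
    rw [abs_le]
    constructor
    · have : (0 : ℤ) ≤ (k l : ℤ) := Int.natCast_nonneg _
      have : (0 : ℤ) ≤ (C : ℤ) := Int.natCast_nonneg _
      linarith
    · have h4 : ((k l : ℕ) : ℤ) ≤ 3 * C := by exact_mod_cast h3
      have : (0 : ℤ) ≤ (C : ℤ) := Int.natCast_nonneg _
      linarith
  · have hZY : Z ^ C = Y (∑ l, (C : ℤ) • b l) := by
      rw [hZ, ← Finset.prod_pow, hY.sum]
      refine Finset.prod_congr rfl fun l _ => ?_
      rw [natCast_zsmul, hY.nsmul]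
    have hkY : ∏ l, Y (b l) ^ k l = Y (∑ l, (k l : ℤ) • b l) := by
      rw [hY.sum]
      refine Finset.prod_congr rfl fun l _ => ?_
      rw [natCast_zsmul, hY.nsmul]
    have hne : Z ^ C ≠ 0 := by
      rw [hZY]
      exact (hY.isUnit _).ne_zero
    apply mul_right_cancel₀ hne
    rw [hku', hkY, mul_assoc]
    congr 1
    rw [hZY, ← hY.add, ← Finset.sum_add_distrib]
    congr 1
    refine Finset.sum_congr rfl fun l _ => ?_
    rw [sub_smul, sub_add_cancel]

end loc

end Pool.Agent.H865.TS
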