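import Pool.Agent.H865.TS.Al
import Pool.Agent.H865.NF.Diag

/-!
# The functions of the action
-/

set_option autoImplicit false
set_option linter.unusedSectionVars false
set_option linter.unusedVariables false

namespace Pool.Agent.H865.TS

open Module Pool.Agent.K3h75.TO Pool.Agent.H865.TT Pool.Agent.H918R2.Quad
  Polynomial IsDedekindDomain

section fu

variable {E M K₀ F : Type} [Field E] [Field M] [Algebra E M] [FiniteDimensional E M]
  [IsGalois E M] [Field K₀] [Algebra E K₀] [Field F] [Algebra E F] [Algebra K₀ F] [Algebra M F]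
  [IsScalarTower E K₀ F] [IsScalarTower E M F]

/-- Monomials which are in the ground field are trivial. -/
theorem chr_mem {L : Type} [Field L] [Algebra L F] {s : ℕ} {u : Fin s → F}
    (hu : AlgebraicIndependent L u) {a : Fin s → ℤ} {b : L} (h : chr u a = algebraMap L F b) :
    a = 0 := by
  classical
  by_contra ha
  have h1 := Pool.Agent.H865.NF.lm_linearIndependent hu
  rw [linearIndependent_iff'] at h1
  have h2 := h1 {a, 0} (fun f => if f = a then 1 else -b) (by
    rw [Finset.sum_pair ha, if_pos rfl, if_neg (Ne.symm ha), one_smul, neg_smul,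
      Pool.Agent.H865.NF.lm_zero, Algebra.smul_def, mul_one]
    show chr u a + -(algebraMap L F b) = 0
    rw [h, add_neg_cancel]) a (Finset.mem_insert_self a _)
  rw [if_pos rfl] at h2
  exact one_ne_zero h2

/-- **The functions of the action.** -/
theorem exists_fu (ρ : (M ≃ₐ[E] M) →* (F ≃+* F))
    (hρM : ∀ g c, ρ g (algebraMap M F c) = algebraMap M F (g c))
    (hρK : ∀ g (a : K₀), ρ g (algebraMap K₀ F a) = algebraMap K₀ F a)
    (halg : ∀ a : K₀, IsAlgebraic E a → ∃ e : E, algebraMap E K₀ e = a)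
    (Good : Subgroup Fˣ) (hG1 : ∀ q ∈ Good, (q : F) ∈ Bf K₀ M F)
    (hG2 : ∀ g, ∀ q ∈ Good, ∃ q' ∈ Good, (q' : F) = ρ g q) {s : ℕ} (u : Fin s → F)
    (hu : AlgebraicIndependent (Bf K₀ M F) u)
    (hmon : ∀ g j, ∃ q ∈ Good, ∃ a : Fin s → ℤ, ρ g (u j) = (q : F) * chr u a) :
    ∃ (r : ℕ) (f : Fin r → F), (∀ m, ∃ q ∈ Good, f m = (q : F)) ∧
      Nonempty (MonA (k := M) (M ≃ₐ[E] M) ρ (Sum.elim f u)) := by
  classical
  choose q hq a ha using hmon
  choose q' hq' hq'ρ using hG2
  let ι : Type := (M ≃ₐ[E] M) × (M ≃ₐ[E] M) × Fin s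
  let c : ι → F := fun i => ρ i.1 (q i.2.1 i.2.2)
  have hcG : ∀ i, ∃ x ∈ Good, (x : F) = c i := fun i =>
    ⟨_, hq' i.1 _ (hq i.2.1 i.2.2), hq'ρ i.1 _ (hq i.2.1 i.2.2)⟩
  have hc0 : ∀ i, c i ≠ 0 := by
    intro i
    obtain ⟨x, -, hx⟩ := hcG i
    rw [← hx]
    exact x.ne_zero
  have hcB : ∀ i, c i ∈ Bf K₀ M F := by
    intro i
    obtain ⟨x, hx1, hx⟩ := hcG i
    rw [← hx]
    exact hG1 x hx1
  have hchG : ∀ z : ι → ℤ, ∃ x ∈ Good, (x : F) = chr c z := by
    intro z
    choose x hx1 hx2 using hcG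
    refine ⟨∏ i, x i ^ z i, Good.prod_mem fun i _ => Good.zpow_mem (hx1 i) _, ?_⟩
    unfold chr
    rw [Units.coe_prod]
    refine Finset.prod_congr rfl fun i _ => ?_
    rw [Units.val_zpow_eq_zpow_val, hx2]
  have hchB : ∀ z : ι → ℤ, chr c z ∈ Bf K₀ M F := by
    intro z
    obtain ⟨x, hx1, hx2⟩ := hchG z
    rw [← hx2]
    exact hG1 x hx1
  have hMinj : Function.Injective (algebraMap M F) := (algebraMap M F).injective
  -- the lattice of the constants
  let K' : Submodule ℤ (ι → ℤ) :=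
    { carrier := {z | ∃ e : M, algebraMap M F e = chr c z}
      add_mem' := by
        rintro z z' ⟨e, he⟩ ⟨e', he'⟩
        exact ⟨e * e', by rw [map_mul, he, he', chr_add hc0]⟩
      zero_mem' := ⟨1, by rw [map_one, chr_zero]⟩
      smul_mem' := by
        rintro n z ⟨e, he⟩
        exact ⟨e ^ n, by rw [map_zpow₀, he, chr_zsmul]⟩ }
  have hK' : ∀ z, z ∈ K' ↔ ∃ e : M, algebraMap M F e = chr c z := fun z => Iff.rfl
  have hsat : ∀ (n : ℤ) (z : ι → ℤ), n ≠ 0 → n • z ∈ K' → z ∈ K' := by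
    intro n z hn hz
    obtain ⟨e, he⟩ := (hK' _).1 hz
    rw [chr_zsmul] at he
    have h1 : IsAlgebraic E (chr c z ^ n.natAbs) := by
      rcases Int.natAbs_eq n with h | h
      · have h2 : chr c z ^ n.natAbs = algebraMap M F e := by
          rw [he, ← zpow_natCast, ← h]
        rw [h2]
        exact (Algebra.IsAlgebraic.isAlgebraic (R := E) e).algebraMap
      · have h2 : chr c z ^ n.natAbs = algebraMap M F e⁻¹ := by
          rw [map_inv₀, he, ← zpow_natCast, ← zpow_neg]
          congr 1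
          omega
        rw [h2]
        exact (Algebra.IsAlgebraic.isAlgebraic (R := E) e⁻¹).algebraMap
    have h2 : IsAlgebraic E (chr c z) := h1.of_pow (Int.natAbs_pos.2 hn)
    exact (hK' _).2 (mem_M_of_alg ρ hρM hρK halg (hchB z) h2)
  have htf : Module.IsTorsionFree ℤ ((ι → ℤ) ⧸ K') := by
    constructor
    intro n hn x y hxy
    have hn0 : n ≠ 0 := hn.ne_zero
    obtain ⟨x, rfl⟩ := Submodule.Quotient.mk_surjective K' x
    obtain ⟨y, rfl⟩ := Submodule.Quotient.mk_surjective K' y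
    have h1 : n • (Submodule.Quotient.mk x : (ι → ℤ) ⧸ K') = n • Submodule.Quotient.mk y := hxy
    rw [← Submodule.Quotient.mk_smul, ← Submodule.Quotient.mk_smul, Submodule.Quotient.eq,
      ← smul_sub] at h1
    exact (Submodule.Quotient.eq K').2 (hsat n _ hn0 h1)
  have hfree : Module.Free ℤ ((ι → ℤ) ⧸ K') := inferInstance
  let b := Module.finBasis ℤ ((ι → ℤ) ⧸ K')
  choose w hw using fun m => Submodule.Quotient.mk_surjective K' (b m)
  let f : Fin (Module.finrank ℤ ((ι → ℤ) ⧸ K')) → F := fun m => chr c (w m)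
  have hf0 : ∀ m, f m ≠ 0 := fun m => chr_ne_zero hc0 _
  have hchf : ∀ z, chr f z = chr c (∑ m, z m • w m) := by
    intro z
    rw [chr_sum hc0]
    unfold chr
    refine Finset.prod_congr rfl fun m _ => ?_
    have h1 := chr_zsmul c (z m) (w m)
    unfold chr at h1
    rw [h1]
    rfl
  have hexp : ∀ z : ι → ℤ, ∃ (e : M) (y : Fin (Module.finrank ℤ ((ι → ℤ) ⧸ K')) → ℤ), e ≠ 0 ∧
      chr c z = algebraMap M F e * chr f y := by
    intro z
    have h1 : z - ∑ m, b.repr (Submodule.Quotient.mk z) m • w m ∈ K' := by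
      rw [← Submodule.Quotient.eq]
      conv_lhs => rw [← b.sum_repr (Submodule.Quotient.mk z)]
      have h2 : (Submodule.Quotient.mk (∑ m, b.repr (Submodule.Quotient.mk z) m • w m) :
          (ι → ℤ) ⧸ K') = K'.mkQ (∑ m, b.repr (Submodule.Quotient.mk z) m • w m) := rfl
      rw [h2, map_sum]
      refine Finset.sum_congr rfl fun m _ => ?_
      rw [map_smul, Submodule.mkQ_apply, hw]
    obtain ⟨e, he⟩ := (hK' _).1 h1
    refine ⟨e, fun m => b.repr (Submodule.Quotient.mk z) m, ?_, ?_⟩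
    · rintro rfl
      rw [map_zero] at he
      exact chr_ne_zero hc0 _ he.symm
    · rw [he, hchf, ← chr_add hc0, sub_add_cancel]
  have hfB : ∀ z, chr f z ∈ Bf K₀ M F := fun z => by
    rw [hchf]
    exact hchB _
  refine ⟨_, f, fun m => ?_, ⟨?_⟩⟩
  · obtain ⟨x, hx1, hx2⟩ := hchG (w m)
    exact ⟨x, hx1, hx2.symm⟩
  have hρc : ∀ g i, ρ g (c i) = c (g * i.1, i.2) := by
    intro g i
    show ρ g (ρ i.1 (q i.2.1 i.2.2)) = ρ (g * i.1) (q i.2.1 i.2.2)
    rw [map_mul]
    rfl
  have hρchr : ∀ g (z : ι → ℤ), ρ g (chr c z) = chr c (fun i => z (g⁻¹ * i.1, i.2)) := by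
    intro g z
    unfold chr
    rw [map_prod]
    let eq : ι ≃ ι := (Equiv.mulLeft g).prodCongr (Equiv.refl _)
    refine Fintype.prod_equiv eq _ _ fun i => ?_
    rw [map_zpow₀, hρc]
    show c (g * i.1, i.2) ^ z i = c (g * i.1, i.2) ^ z (g⁻¹ * (g * i.1), i.2)
    rw [inv_mul_cancel_left]
  have hu0 : ∀ j, u j ≠ 0 := fun j => hu.ne_zero j
  have hsum : ∀ (y : Fin (Module.finrank ℤ ((ι → ℤ) ⧸ K')) → ℤ) (x : Fin s → ℤ),
      chr (Sum.elim f u) (Sum.elim y x) = chr f y * chr u x := by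
    intro y x
    unfold chr
    rw [Fintype.prod_sum_type]
    rfl
  have key : ∀ g (i : Fin (Module.finrank ℤ ((ι → ℤ) ⧸ K')) ⊕ Fin s), ∃ (e : M)
      (z : Fin (Module.finrank ℤ ((ι → ℤ) ⧸ K')) ⊕ Fin s → ℤ), e ≠ 0 ∧
      ρ g (Sum.elim f u i) = algebraMap M F e * chr (Sum.elim f u) z := by
    rintro g (m | j)
    · obtain ⟨e, y, he, h1⟩ := hexp fun i => w m (g⁻¹ * i.1, i.2)
      refine ⟨e, Sum.elim y 0, he, ?_⟩
      rw [hsum, chr_zero, mul_one, ← h1]
      exact hρchr g (w m)
    · obtain ⟨e, y, he, h1⟩ := hexp (Pi.single (1, g, j) 1)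
      rw [chr_single] at h1
      refine ⟨e, Sum.elim y (a g j), he, ?_⟩
      rw [hsum, ← mul_assoc, ← h1]
      have h2 : c (1, g, j) = (q g j : F) := by
        show ρ 1 (q g j) = q g j
        rw [map_one]
        rfl
      rw [h2]
      exact ha g j
  choose c0 A0 hc00 hA0 using key
  exact
    { hρ := hρM
      hy := by
        rintro (m | j)
        · exact hf0 m
        · exact hu0 j
      uq := by
        intro x e he hx
        have h1 : x = Sum.elim (fun m => x (Sum.inl m)) (fun j => x (Sum.inr j)) := by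
          funext i
          rcases i with m | j <;> rfl
        rw [h1, hsum] at hx
        have h2 := chr_ne_zero hf0 fun m => x (Sum.inl m)
        have h3 : (fun j => x (Sum.inr j)) = 0 := by
          refine chr_mem hu (b := ⟨algebraMap M F e / chr f fun m => x (Sum.inl m),
            (Bf K₀ M F).div_mem (mem_Bf_M e) (hfB _)⟩) ?_
          show chr u _ = algebraMap M F e / chr f fun m => x (Sum.inl m)
          rw [← hx]
          field_simp
        rw [h3, chr_zero, mul_one, hchf] at hx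
        have h4 : ∑ m, x (Sum.inl m) • w m ∈ K' := (hK' _).2 ⟨e, hx.symm⟩
        have h5 : ∑ m, x (Sum.inl m) • b m = 0 := by
          have h6 : K'.mkQ (∑ m, x (Sum.inl m) • w m) = 0 :=
            (Submodule.Quotient.mk_eq_zero K').2 h4
          rw [map_sum] at h6
          rw [← h6]
          refine Finset.sum_congr rfl fun m _ => ?_
          rw [map_smul, Submodule.mkQ_apply, hw]
        have h6 := Fintype.linearIndependent_iff.1 b.linearIndependent _ h5
        rw [h1, h3]
        funext i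
        rcases i with m | j
        · exact h6 m
        · rfl
      c0 := c0
      A0 := A0
      hc0 := hc00
      hA0 := hA0 }

end fu

end Pool.Agent.H865.TS
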