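import Pool.Agent.H865.TS.Fu

/-!
# Minimal polynomials
-/

set_option autoImplicit false
set_option linter.unusedSectionVars false
set_option linter.unusedVariables false

namespace Pool.Agent.H865.TS

open Module Pool.Agent.K3h75.TO Pool.Agent.H865.TT Pool.Agent.H918R2.Quad
  Polynomial IsDedekindDomain NumberField

section hm

variable {E M K₀ F : Type} [Field E] [NumberField E] [Field M] [NumberField M] [Algebra E M]
  [IsGalois E M] [Field K₀] [Algebra E K₀] [Algebra (𝓞 E) K₀] [IsScalarTower (𝓞 E) E K₀] [Field F]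
  [Algebra E F] [Algebra K₀ F] [Algebra M F] [Algebra (𝓞 M) F] [IsScalarTower (𝓞 M) M F]
  [IsScalarTower E K₀ F] [IsScalarTower E M F]

theorem hmin_of (ρ : (M ≃ₐ[E] M) →* (F ≃+* F))
    (hρM : ∀ g c, ρ g (algebraMap M F c) = algebraMap M F (g c))
    (hρK : ∀ g (a : K₀), ρ g (algebraMap K₀ F a) = algebraMap K₀ F a) :
    HMin (𝓞 E) (𝓞 M) K₀ F := by
  classical
  intro θ p hp
  by_cases hp0 : p = 0
  · rw [hp0]
    exact dvd_zero _
  set x : M := algebraMap (𝓞 M) M θ with hx
  have hint : IsIntegral (𝓞 E) θ := Algebra.IsIntegral.isIntegral θ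
  have h1 : minpoly E x = (minpoly (𝓞 E) θ).map (algebraMap (𝓞 E) E) :=
    minpoly.isIntegrallyClosed_eq_field_fractions E M hint
  have h2 : IsIntegral E x := Algebra.IsIntegral.isIntegral _
  have h3 : (minpoly (𝓞 E) θ).map (algebraMap (𝓞 E) K₀) =
      (minpoly E x).map (algebraMap E K₀) := by
    rw [h1, Polynomial.map_map, ← IsScalarTower.algebraMap_eq]
  rw [h3]
  refine (map_dvd_map (algebraMap K₀ F) (algebraMap K₀ F).injective
    ((minpoly.monic h2).map _)).1 ?_
  have h4 : ((minpoly E x).map (algebraMap E K₀)).map (algebraMap K₀ F) =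
      ((minpoly E x).map (algebraMap E M)).map (algebraMap M F) := by
    rw [Polynomial.map_map, Polynomial.map_map, ← IsScalarTower.algebraMap_eq,
      ← IsScalarTower.algebraMap_eq]
  rw [h4]
  have hspl : ((minpoly E x).map (algebraMap E M)).Splits := Normal.splits inferInstance x
  have hsep : ((minpoly E x).map (algebraMap E M)).Separable :=
    (minpoly.irreducible h2).separable.map
  have hm0 : (minpoly E x).map (algebraMap E M) ≠ 0 := ((minpoly.monic h2).map _).ne_zero
  have hpm0 : p.map (algebraMap K₀ F) ≠ 0 := by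
    rwa [Ne, Polynomial.map_eq_zero]
  refine (hspl.map (algebraMap M F)).dvd_of_roots_le_roots
    (by rwa [Ne, Polynomial.map_eq_zero]) ?_
  rw [Multiset.le_iff_subset (nodup_roots (hsep.map))]
  intro β hβ
  rw [hspl.roots_map, Multiset.mem_map] at hβ
  obtain ⟨α, hα, rfl⟩ := hβ
  rw [mem_roots hm0, IsRoot.def, eval_map_algebraMap] at hα
  obtain ⟨g, hg⟩ := minpoly.exists_algEquiv_of_root' (Algebra.IsAlgebraic.isAlgebraic x) hα
  rw [mem_roots hpm0, IsRoot.def, eval_map_algebraMap, ← hg, ← hρM]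
  have h5 : ∀ y : F, aeval (ρ g y) p = ρ g (aeval y p) := by
    intro y
    rw [aeval_eq_sum_range, aeval_eq_sum_range, map_sum]
    refine Finset.sum_congr rfl fun i _ => ?_
    rw [Algebra.smul_def, Algebra.smul_def, map_mul, map_pow, hρK]
  rw [h5, hx, ← IsScalarTower.algebraMap_apply (𝓞 M) M F, hp, map_zero]

end hm

end Pool.Agent.H865.TS
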