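import Pool.Graph.R_seed8.W418.LU2.Reg
import Pool.Graph.R_seed8.W418.LU2.Pair

/-!
# Parts of regular systems of parameters at a prime of a polynomial ring
-/

set_option autoImplicit false
set_option linter.unusedSectionVars false
set_option linter.unusedVariables false

namespace Pool.Agent.H865.TS

open IsLocalRing Pool.Agent.W418.LU2

/-- The members of the family which are in `Q` are independent modulo `Q ^ 2`. -/
def IQ {W : Type} [CommRing W] (Q : Ideal W) {ι : Type} [Fintype ι] (z : ι → W) : Prop :=
  ∀ c : ι → W, (∀ i, z i ∉ Q → c i = 0) → ∑ i, c i * z i ∈ Q ^ 2 → ∀ i, c i ∈ Q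

section basic

variable {W : Type} [CommRing W] {ι : Type} [Fintype ι]

theorem IQ.indN (Q : Ideal W) [Q.IsPrime] (T : Type) [CommRing T] [Algebra W T]
    [IsLocalization.AtPrime T Q] [IsLocalRing T] {z : ι → W} (h : IQ Q z) :
    IndN (fun i => algebraMap W T (z i)) := by
  classical
  intro c hc hs i
  obtain ⟨s, hs1⟩ := IsLocalization.exist_integer_multiples_of_finite Q.primeCompl c
  choose a' ha' using hs1
  let a : ι → W := fun i => if c i = 0 then 0 else a' i
  have ha : ∀ i, algebraMap W T (a i) = algebraMap W T s * c i := by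
    intro i
    by_cases h0 : c i = 0
    · simp [a, h0]
    · simp only [a, if_neg h0]
      rw [ha']
      exact Algebra.smul_def _ _
  have hmem : ∀ w : W, algebraMap W T w ∈ maximalIdeal T ↔ w ∈ Q := fun w =>
    IsLocalization.AtPrime.to_map_mem_maximal_iff T Q w
  have h1 : algebraMap W T (∑ i, a i * z i) ∈ (Q ^ 2).map (algebraMap W T) := by
    rw [Ideal.map_pow, IsLocalization.AtPrime.map_eq_maximalIdeal Q T]
    rw [map_sum]
    have : ∑ i, algebraMap W T (a i * z i) = algebraMap W T s * ∑ i, c i * algebraMap W T (z i) := by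
      rw [Finset.mul_sum]
      refine Finset.sum_congr rfl fun i _ => ?_
      rw [map_mul, ha]
      ring
    rw [this]
    exact Ideal.mul_mem_left _ _ hs
  obtain ⟨m, hm, hm2⟩ := (IsLocalization.algebraMap_mem_map_algebraMap_iff Q.primeCompl T _ _).1 h1
  have h2 := h (fun i => m * a i) (by
    intro i hi
    have h3 : c i = 0 := hc i (by rwa [hmem])
    simp [a, h3]) (by
    rw [Finset.mul_sum] at hm2
    convert hm2 using 1
    exact Finset.sum_congr rfl fun i _ => by ring) i
  have h3 : a i ∈ Q := (Ideal.IsPrime.mem_or_mem ‹_› h2).resolve_left hm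
  have h4 := (hmem _).2 h3
  rw [ha] at h4
  exact ((maximalIdeal.isMaximal T).isPrime.mem_or_mem h4).resolve_left fun h5 =>
    s.2 ((hmem _).1 h5)

theorem iq_of_indN (Q : Ideal W) [Q.IsPrime] (T : Type) [CommRing T] [Algebra W T]
    [IsLocalization.AtPrime T Q] [IsLocalRing T] {z : ι → W}
    (h : IndN (fun i => algebraMap W T (z i))) : IQ Q z := by
  intro c hc hs i
  have hmem : ∀ w : W, algebraMap W T w ∈ maximalIdeal T ↔ w ∈ Q := fun w =>
    IsLocalization.AtPrime.to_map_mem_maximal_iff T Q w
  rw [← hmem]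
  refine h (fun i => algebraMap W T (c i)) (fun i hi => ?_) ?_ i
  · rw [hmem] at hi
    rw [hc i hi, map_zero]
  · have h1 := Ideal.mem_map_of_mem (algebraMap W T) hs
    rw [Ideal.map_pow, IsLocalization.AtPrime.map_eq_maximalIdeal Q T, map_sum] at h1
    simpa only [map_mul] using h1

/-- Adding elements which are not in `Q`. -/
theorem IQ.of_inj {κ : Type} [Fintype κ] {Q : Ideal W} {z : ι → W} (f : κ → ι)
    (hf : Function.Injective f) (hr : ∀ i, z i ∈ Q → i ∈ Set.range f)
    (h : IQ Q (fun k => z (f k))) : IQ Q z := by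
  classical
  intro c hc hs i
  by_cases hi : z i ∈ Q
  · obtain ⟨k, rfl⟩ := hr i hi
    refine h (fun k => c (f k)) (fun k hk => hc _ hk) ?_ k
    rw [Fintype.sum_of_injective f hf (fun k => c (f k) * z (f k)) (fun i => c i * z i)]
    · exact hs
    · intro i hi
      have h1 : z i ∉ Q := fun h => hi (hr i h)
      rw [hc i h1, zero_mul]
    · intro k; rfl
  · rw [hc i hi]
    exact Q.zero_mem

/-- Regularity at a prime, and independence. -/
def RQ (Q : Ideal W) [Q.IsPrime] (z : ι → W) : Prop :=
  IsRegularLocalRing (Localization.AtPrime Q) ∧ IQ Q z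

theorem RQ.equiv {W' : Type} [CommRing W'] (e : W ≃+* W') (Q : Ideal W') [Q.IsPrime]
    {z : ι → W} (h : RQ (Q.comap (e : W →+* W')) z) : RQ Q (fun i => e (z i)) := by
  obtain ⟨h1, h2⟩ := h
  refine ⟨?_, ?_⟩
  · have h3 : IsRegularLocalRing (Localization.AtPrime (Q.comap e)) := h1
    exact IsRegularLocalRing.of_ringEquiv <| IsLocalization.ringEquivOfRingEquiv
      (Localization.AtPrime (Q.comap e)) (Localization.AtPrime Q) e
      (e.map_primeCompl_comap_eq Q)
  · intro c hc hs i
    have h3 := h2 (fun i => e.symm (c i)) (fun i hi => by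
      rw [Ideal.mem_comap] at hi
      rw [hc i hi, map_zero]) (by
      have h4 : ∑ i, e.symm (c i) * z i = e.symm (∑ i, c i * e (z i)) := by
        rw [map_sum]
        exact Finset.sum_congr rfl fun i _ => by rw [map_mul, e.symm_apply_apply]
      rw [h4]
      have h5 : (Q ^ 2).map (e.symm : W' →+* W) ≤ (Q.comap (e : W →+* W')) ^ 2 := by
        rw [Ideal.map_pow]
        apply Ideal.pow_right_mono
        rw [Ideal.map_le_iff_le_comap]
        intro x hx
        rw [Ideal.mem_comap, Ideal.mem_comap]
        simpa using hx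
      exact h5 (Ideal.mem_map_of_mem _ hs)) i
    rw [Ideal.mem_comap] at h3
    simpa using h3

open Polynomial in
theorem RQ.poly {𝔮 : Ideal W} [𝔮.IsPrime] {z : ι → W} (h : RQ 𝔮 z) (P : Ideal W[X]) [P.IsPrime]
    (hP : P.comap C = 𝔮) : RQ P (fun i => C (z i)) := by
  subst hP
  obtain ⟨h1, h2⟩ := h
  let q := P.comap C
  let S := (Localization.AtPrime q)[X]
  let pc := Submonoid.map Polynomial.C.toMonoidHom q.primeCompl
  let : Algebra W[X] S := algebra W (Localization.AtPrime q)
  have : IsLocalization pc S := Polynomial.isLocalization _ _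
  let pS := P.map (algebraMap W[X] S)
  have disj : Disjoint (pc : Set W[X]) (P : Set W[X]) := by
    simpa [pc, q] using! Set.disjoint_image_left.mpr
      (Set.disjoint_compl_left_iff_subset.mpr (fun _ a ↦ a))
  have : pS.IsPrime := IsLocalization.isPrime_of_isPrime_disjoint pc _ _ ‹_› disj
  have : IsLocalization.AtPrime (Localization.AtPrime pS) P := by
    convert IsLocalization.isLocalization_isLocalization_atPrime_isLocalization pc
      (Localization.AtPrime pS) pS
    exact (IsLocalization.under_map_of_isPrime_disjoint pc _ ‹_› disj).symm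
  have eq : Ideal.comap C pS = maximalIdeal (Localization.AtPrime q) := by
    rw [← IsLocalization.map_under q.primeCompl _ (Ideal.comap C pS),
      ← IsLocalization.map_under q.primeCompl _ (maximalIdeal (Localization.AtPrime q))]
    simp only [Ideal.comap_comap, S, pS]
    rw [← Polynomial.algebraMap_eq (R := Localization.AtPrime q),
      ← IsScalarTower.algebraMap_eq W (Localization.AtPrime q) (Localization.AtPrime q)[X],
      IsScalarTower.algebraMap_eq W W[X] (Localization.AtPrime q)[X], ← Ideal.comap_comap,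
      ← Ideal.under_def W[X], IsLocalization.under_map_of_isPrime_disjoint pc _ ‹_› disj]
    simp [q, IsLocalization.AtPrime.under_maximalIdeal (Localization.AtPrime q) q]
  have h3 : IndN (fun i => algebraMap W (Localization.AtPrime q) (z i)) := h2.indN q _
  obtain ⟨h4, h5, -⟩ := poly_indN pS eq h3
  have h6 : IsRegularLocalRing (Localization.AtPrime P) :=
    IsRegularLocalRing.of_ringEquiv (R := Localization.AtPrime pS)
      (IsLocalization.algEquiv P.primeCompl
        (Localization.AtPrime pS) (Localization.AtPrime P)).toRingEquiv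
  refine ⟨h6, ?_⟩
  refine iq_of_indN P (Localization.AtPrime pS) ?_
  convert h5 using 2 with i
  rw [IsScalarTower.algebraMap_apply W[X] S (Localization.AtPrime pS)]
  congr 1
  change _ = C (algebraMap W _ (z i))
  rw [← Polynomial.map_C]
  rfl

open Polynomial in
/-- A new parameter. -/
theorem RQ.polyX {𝔮 : Ideal W} [𝔮.IsPrime] {z : ι → W} (h : RQ 𝔮 z) (P : Ideal W[X]) [P.IsPrime]
    (hP : P.comap C = 𝔮) (g : W[X]) (hg : g ∈ P) (hg' : derivative g ∉ P) :
    RQ P (Sum.elim (fun i => C (z i)) (fun _ : Unit => g)) := by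
  obtain ⟨h1, h2⟩ := h.poly P hP
  refine ⟨h1, ?_⟩
  intro c hc hs
  rw [Fintype.sum_sum_type, Fintype.sum_unique (ι := Unit)] at hs
  simp only [Sum.elim_inl, Sum.elim_inr] at hs
  have hder : ∀ w ∈ P ^ 2, derivative w ∈ P := by
    intro w hw
    rw [pow_two] at hw
    refine Submodule.mul_induction_on hw ?_ ?_
    · intro x hx y hy
      rw [derivative_mul]
      exact P.add_mem (P.mul_mem_left _ hy) (P.mul_mem_right _ hx)
    · intro x y hx hy
      rw [derivative_add]
      exact P.add_mem hx hy
  have h3 := hder _ hs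
  rw [derivative_add, derivative_sum, derivative_mul] at h3
  have h4 : ∑ i, derivative (c (Sum.inl i) * C (z i)) ∈ P := by
    refine P.sum_mem fun i _ => ?_
    rw [derivative_mul, derivative_C, mul_zero, add_zero]
    by_cases hi : C (z i) ∈ P
    · exact P.mul_mem_left _ hi
    · rw [hc (Sum.inl i) hi, derivative_zero, zero_mul]
      exact P.zero_mem
  have h5 : c (Sum.inr default) * derivative g ∈ P := by
    have h6 := P.sub_mem (P.sub_mem h3 h4) (P.mul_mem_left (derivative (c (Sum.inr default))) hg)
    convert h6 using 1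
    ring
  have h6 : c (Sum.inr default) ∈ P := (Ideal.IsPrime.mem_or_mem ‹_› h5).resolve_right hg'
  have h7 : ∑ i, c (Sum.inl i) * C (z i) ∈ P ^ 2 := by
    have h8 : c (Sum.inr default) * g ∈ P ^ 2 := by
      rw [pow_two]
      exact Ideal.mul_mem_mul h6 hg
    have h9 := (P ^ 2).sub_mem hs h8
    rwa [add_sub_cancel_right] at h9
  have h8 := h2 (fun i => c (Sum.inl i)) (fun i hi => hc (Sum.inl i) hi) h7
  rintro (i | i)
  · exact h8 i
  · exact h6

theorem RQ.mv (N : ℕ) : ∀ {W : Type} [CommRing W] {𝔮 : Ideal W} [𝔮.IsPrime] {z : ι → W}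
    (_ : RQ 𝔮 z) (Q : Ideal (MvPolynomial (Fin N) W)) [Q.IsPrime]
    (_ : Q.comap MvPolynomial.C = 𝔮), RQ Q (fun i => MvPolynomial.C (z i)) := by
  induction N with
  | zero =>
    intro W _ 𝔮 _ z h Q _ hQ
    let e : W ≃+* MvPolynomial (Fin 0) W := (MvPolynomial.isEmptyRingEquiv W (Fin 0)).symm
    have he : ∀ w, e w = MvPolynomial.C w := fun w => rfl
    have h1 : Q.comap (e : W →+* MvPolynomial (Fin 0) W) = 𝔮 := by
      rw [← hQ]
      rfl
    subst h1
    exact h.equiv e Q
  | succ N ih =>
    intro W _ 𝔮 _ z h Q _ hQ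
    let e : Polynomial (MvPolynomial (Fin N) W) ≃+* MvPolynomial (Fin (N + 1)) W :=
      (MvPolynomial.finSuccEquiv W N).symm.toRingEquiv
    have he : ∀ w, e (Polynomial.C (MvPolynomial.C w)) = MvPolynomial.C w := by
      intro w
      show (MvPolynomial.finSuccEquiv W N).symm (Polynomial.C (MvPolynomial.C w)) = _
      rw [AlgEquiv.symm_apply_eq]
      have := MvPolynomial.finSuccEquiv_apply (R := W) (n := N) (MvPolynomial.C w)
      rw [this, MvPolynomial.eval₂Hom_C]
      rfl
    let P : Ideal (Polynomial (MvPolynomial (Fin N) W)) := Q.comap (e : _ →+* _)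
    let Q' : Ideal (MvPolynomial (Fin N) W) := P.comap Polynomial.C
    have h1 : Q'.comap MvPolynomial.C = 𝔮 := by
      rw [← hQ]
      ext w
      rw [Ideal.mem_comap, Ideal.mem_comap, Ideal.mem_comap, Ideal.mem_comap]
      have := he w
      show e (Polynomial.C (MvPolynomial.C w)) ∈ Q ↔ _
      rw [this]
    have h2 : RQ Q' (fun i => MvPolynomial.C (z i)) := ih h Q' h1
    have h3 : RQ P (fun i => Polynomial.C (MvPolynomial.C (z i))) := h2.poly P rfl
    have h4 := h3.equiv e Q
    simpa only [he] using h4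

/-- At the maximal ideal of a regular local ring. -/
theorem rq_max {R : Type} [CommRing R] [IsRegularLocalRing R] {z : ι → R} (h : IndN z) :
    RQ (maximalIdeal R) z := by
  refine ⟨?_, h⟩
  let e : R ≃ₐ[R] (Localization.AtPrime (maximalIdeal R)) :=
    IsLocalization.atUnits R (maximalIdeal R).primeCompl (fun x ↦ by simpa using! fun a ↦ a)
  exact IsRegularLocalRing.of_ringEquiv e.toRingEquiv

end basic

end Pool.Agent.H865.TS
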