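import Pool.Agent.H865.TS.IQ
import Pool.Agent.H865.TT.RG

/-!
# Regularity of a local subring, with parameters
-/

set_option autoImplicit false
set_option linter.unusedSectionVars false
set_option linter.unusedVariables false

namespace Pool.Agent.H865.TS

open IsLocalRing Pool.Agent.W418.LU2 Pool.Agent.H918R2.Quad

theorem isUnit_iff_U {F : Type} [Field F] {𝒪 : Subring F} (x : 𝒪) : IsUnit x ↔ U 𝒪 (x : F) := by
  constructor
  · intro h
    obtain ⟨y, hy⟩ := isUnit_iff_exists_inv.1 h
    have h1 : (x : F) * y = 1 := congrArg Subtype.val hy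
    have h2 : (x : F) ≠ 0 := left_ne_zero_of_mul_eq_one h1
    refine ⟨h2, x.2, ?_⟩
    rw [← eq_inv_of_mul_eq_one_right h1]
    exact y.2
  · rintro ⟨h0, -, h1⟩
    exact isUnit_iff_exists_inv.2 ⟨⟨_, h1⟩, Subtype.ext (mul_inv_cancel₀ h0)⟩

theorem isLocalRing_of_isLoc {F : Type} [Field F] {𝒪 : Subring F} (h : IsLoc 𝒪) :
    IsLocalRing 𝒪 := by
  refine IsLocalRing.of_isUnit_or_isUnit_of_isUnit_add fun a b hab => ?_
  rw [isUnit_iff_U] at hab
  rw [isUnit_iff_U, isUnit_iff_U]
  exact h _ _ a.2 b.2 hab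

theorem RG2 {W F κ ι : Type} [CommRing W] [Field F] [Fintype κ] [Fintype ι] (𝒪 : Subring F)
    (hloc : IsLoc 𝒪) (e : W →+* F) (he : ∀ w, e w ∈ 𝒪)
    (hfrac : ∀ x ∈ 𝒪, ∃ a b : W, U 𝒪 (e b) ∧ x = e a / e b)
    (hreg : IsRegularLocalRing (Localization.AtPrime (primeOf hloc e he)))
    (z : ι → W) (S : κ → W) (hS : ∀ i, e (S i) = 0)
    (hind : IQ (primeOf hloc e he) (Sum.elim z S))
    (t : W) (ht : e t ≠ 0)
    (hker : ∀ w, e w = 0 → ∃ N : ℕ, t ^ N * w ∈ Ideal.span (Set.range S)) :
    ∃ h : IsRegularLocalRing 𝒪, @IndN 𝒪 _ h.toIsLocalRing ι _ (fun i => ⟨e (z i), he _⟩) := by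
  classical
  have hlr : IsLocalRing 𝒪 := isLocalRing_of_isLoc hloc
  set Q := primeOf hloc e he with hQ
  have hmem : ∀ w, w ∈ Q ↔ ¬ U 𝒪 (e w) := fun w => mem_primeOf hloc e he w
  let L := Localization.AtPrime Q
  let g : W →+* 𝒪 := e.codRestrict 𝒪 he
  have hg : ∀ w, ((g w : 𝒪) : F) = e w := fun w => rfl
  have hgu : ∀ y : Q.primeCompl, IsUnit (g y) := by
    intro y
    rw [isUnit_iff_U, hg]
    by_contra h
    exact y.2 ((hmem _).2 h)
  let θ : L →+* 𝒪 := IsLocalization.lift (M := Q.primeCompl) (g := g) hgu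
  have hθa : ∀ w, θ (algebraMap W L w) = g w := fun w => IsLocalization.lift_eq _ w
  have hθsurj : Function.Surjective θ := by
    intro x
    obtain ⟨a, b, hb, hx⟩ := hfrac x x.2
    have hbQ : b ∈ Q.primeCompl := fun h => (hmem b).1 h hb
    refine ⟨IsLocalization.mk' L a (⟨b, hbQ⟩ : Q.primeCompl), ?_⟩
    have h0 := IsLocalization.mk'_spec L a (⟨b, hbQ⟩ : Q.primeCompl)
    have h1 : θ (IsLocalization.mk' L a (⟨b, hbQ⟩ : Q.primeCompl)) * g b = g a := by
      rw [← hθa a, ← h0, map_mul, hθa]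
    apply Subtype.ext
    have h2 := congrArg Subtype.val h1
    change (_ : F) * (_ : F) = _ at h2
    rw [hg, hg] at h2
    rw [hx, eq_div_iff hb.1]
    exact h2
  have hSQ : ∀ k, S k ∈ Q := fun k => by
    rw [hmem, hS]
    exact not_U_zero
  let s : κ → L := fun k => algebraMap W L (S k)
  have hI : IndN (Sum.elim (fun i => algebraMap W L (z i)) s) := by
    have h1 := hind.indN Q L
    convert h1 using 1
    funext i
    rcases i with i | i <;> rfl
  have hsm : ∀ k, s k ∈ maximalIdeal L := fun k =>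
    (IsLocalization.AtPrime.to_map_mem_maximal_iff L Q _).2 (hSQ k)
  have hIs : Ind s := hI.ind Sum.inr Sum.inr_injective hsm
  have hI1 : Ideal.span (Set.range s) ≤ RingHom.ker θ := by
    rw [Ideal.span_le]
    rintro _ ⟨k, rfl⟩
    rw [SetLike.mem_coe, RingHom.mem_ker, hθa]
    exact Subtype.ext (hS k)
  have hreg' : IsRegularLocalRing (L ⧸ Ideal.span (Set.range s)) := hIs.regular
  have hdom : IsDomain (L ⧸ Ideal.span (Set.range s)) := regular_isDomain _
  have hprime : (Ideal.span (Set.range s)).IsPrime := (Ideal.Quotient.isDomain_iff_prime _).1 hdom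
  have hker' : RingHom.ker θ = Ideal.span (Set.range s) := by
    apply le_antisymm _ hI1
    intro x hx
    rw [RingHom.mem_ker] at hx
    obtain ⟨a, b, rfl⟩ := IsLocalization.exists_mk'_eq Q.primeCompl x
    have h1 : IsLocalization.mk' L a b * algebraMap W L b = algebraMap W L a :=
      IsLocalization.mk'_spec L a b
    have h2 : g a = 0 := by rw [← hθa, ← h1, map_mul, hx, zero_mul]
    have h3 : e a = 0 := by rw [← hg, h2]; rfl
    obtain ⟨N, hN⟩ := hker a h3
    have h4 : algebraMap W L (t ^ N * a) ∈ Ideal.span (Set.range s) := by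
      have h5 := Ideal.mem_map_of_mem (algebraMap W L) hN
      rw [Ideal.map_span, ← Set.range_comp] at h5
      exact h5
    rw [map_mul, map_pow] at h4
    have h5 : algebraMap W L t ∉ Ideal.span (Set.range s) := by
      intro h
      have h6 := hI1 h
      rw [RingHom.mem_ker, hθa] at h6
      apply ht
      rw [← hg, h6]
      rfl
    have h6 : algebraMap W L a ∈ Ideal.span (Set.range s) := by
      rcases hprime.mem_or_mem h4 with h | h
      · exact absurd (hprime.mem_of_pow_mem _ h) h5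
      · exact h
    rw [← h1] at h6
    have h7 : IsUnit (algebraMap W L b) := IsLocalization.map_units L b
    exact (Ideal.mul_unit_mem_iff_mem _ h7).1 h6
  obtain ⟨h1, h2⟩ := quot_regular' hI hsm θ hθsurj hker'
  refine ⟨h1, ?_⟩
  convert h2 using 1
  funext i
  exact (hθa (z i)).symm

end Pool.Agent.H865.TS
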