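import Pool.Agent.H865.TS.Core
import Pool.Agent.H865.TS.RG2
import Pool.Agent.H865.TT.Ker3

/-!
# Toric relations: the kernel, and regularity
-/

set_option autoImplicit false
set_option linter.unusedSectionVars false
set_option linter.unusedVariables false

namespace Pool.Agent.H865.TS

open MvPolynomial Module Pool.Agent.K3h75.TO Pool.Agent.H865.TT Pool.Agent.H918R2.Quad
  Pool.Agent.W418.LU2

section kl

variable {W Λ 𝔖 J F : Type} [CommRing W] [AddCommGroup Λ] [Fintype 𝔖] [Fintype J] [Field F]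
  {N s : ℕ} (b : Basis (Fin N) ℤ Λ)

/-- The hypothesis on the kernel for the free variables. -/
def HKer (Y : Λ → F) (e₀ : W →+* F) (δ : 𝔖 → Λ) (α β : 𝔖 → W) (h : J → W) (υ : Fin s → Λ)
    (t₀ : W) : Prop :=
  ∀ (L : Type) [CommRing L] (c : W →+* L) (y : Λ → L), IsChar y →
    (∀ q, c (α q) * y (δ q) = c (β q)) → (∀ j, c (h j) = 0) → IsUnit (c t₀) →
    ∀ p : MvPolynomial (Fin s) W, eval₂Hom e₀ (fun j => Y (υ j)) p = 0 →
      eval₂Hom c (fun j => y (υ j)) p = 0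

theorem kl {δ : 𝔖 → Λ} {α β : 𝔖 → W} {sg : 𝔖 → Prop} [DecidablePred sg] {h : J → W}
    (hsg : IsSgn b δ sg) {Y : Λ → F} (hY : IsChar Y) (e₀ : W →+* F)
    (hrelF : ∀ q, e₀ (α q) * Y (δ q) = e₀ (β q)) {υ : Fin s → Λ}
    (hgen : AddSubgroup.closure (Set.range δ ∪ Set.range υ) = ⊤) {t₀ : W}
    (HK : HKer Y e₀ δ α β h υ t₀)
    (w : MvPolynomial (Fin N) W) (hw : eval₂Hom e₀ (fun l => Y (b l)) w = 0) :
    ∃ m : ℕ, ((∏ l, X l) * C (t₀ * ∏ q, α q)) ^ m * w ∈
      Ideal.span (Set.range (Sum.elim (rel b δ α β sg) (fun j => C (h j)))) := by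
  classical
  obtain ⟨L, _, can, hcanJ, hcan0, hτu⟩ :=
    exists_quot_loc (Ideal.span (Set.range (Sum.elim (rel b δ α β sg) (fun j => C (h j)))))
      ((∏ l, X l) * C (t₀ * ∏ q, α q))
  rw [map_mul, map_prod, C_mul, map_mul] at hτu
  have hcu : IsUnit (can (C t₀)) := isUnit_of_mul_isUnit_left (isUnit_of_mul_isUnit_right hτu)
  have hcα : ∀ q, IsUnit (can (C (α q))) := by
    intro q
    have h1 := isUnit_of_mul_isUnit_right (isUnit_of_mul_isUnit_right hτu)
    rw [map_prod, map_prod, IsUnit.prod_iff] at h1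
    exact h1 q (Finset.mem_univ q)
  have hXu : ∀ l, IsUnit (can (X l)) := by
    intro l
    have h1 := isUnit_of_mul_isUnit_left hτu
    rw [IsUnit.prod_iff] at h1
    exact h1 l (Finset.mem_univ l)
  let c : W →+* L := can.comp C
  have hcC : ∀ r, can (C r) = c r := fun r => rfl
  -- the character of the localization
  let yu : Fin N → Lˣ := fun l => (hXu l).unit
  let y : Λ → L := fun κ => ((∏ l, (yu l) ^ (b.repr κ l) : Lˣ) : L)
  have hy : IsChar y := by
    constructor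
    · show ((∏ l, (yu l) ^ (b.repr 0 l) : Lˣ) : L) = 1
      simp
    · intro κ κ'
      show ((∏ l, (yu l) ^ (b.repr (κ + κ') l) : Lˣ) : L) =
        ((∏ l, (yu l) ^ (b.repr κ l) : Lˣ) : L) * ((∏ l, (yu l) ^ (b.repr κ' l) : Lˣ) : L)
      rw [← Units.val_mul, ← Finset.prod_mul_distrib]
      congr 1
      refine Finset.prod_congr rfl fun l _ => ?_
      rw [map_add, Finsupp.add_apply, zpow_add]
  have hyb : ∀ l, can (X l) = y (b l) := by
    intro l
    show can (X l) = ((∏ l', (yu l') ^ (b.repr (b l) l') : Lˣ) : L)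
    rw [Finset.prod_eq_single l]
    · rw [b.repr_self, Finsupp.single_eq_same, zpow_one]
      rfl
    · intro l' _ hl
      rw [b.repr_self, Finsupp.single_eq_of_ne hl, zpow_zero]
    · intro hh
      exact absurd (Finset.mem_univ l) hh
  have hyrel : ∀ q, c (α q) * y (δ q) = c (β q) := by
    intro q
    have h1 : rel b δ α β sg q ∈
        Ideal.span (Set.range (Sum.elim (rel b δ α β sg) (fun j => C (h j)))) :=
      Ideal.subset_span ⟨Sum.inl q, rfl⟩
    have h2 := hcanJ _ h1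
    unfold rel at h2
    split_ifs at h2 with hq
    · rw [map_sub, map_mul, sub_eq_zero, eval_mon b can hy hyb ((hsg q).1 hq)] at h2
      exact h2
    · rw [map_sub, map_mul, sub_eq_zero, eval_mon b can hy hyb ((hsg q).2 hq), hcC, hcC] at h2
      rw [← h2, mul_assoc, hy.neg_mul, mul_one]
  have hyh : ∀ j, c (h j) = 0 := fun j => hcanJ _ (Ideal.subset_span ⟨Sum.inr j, rfl⟩)
  have hcβ : ∀ q, IsUnit (c (β q)) := by
    intro q
    rw [← hyrel q]
    exact (hcα q).mul (hy.isUnit _)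
  let ev : MvPolynomial (Fin s) W →+* F := eval₂Hom e₀ (fun j => Y (υ j))
  let θ : MvPolynomial (Fin s) W →+* L := eval₂Hom c (fun j => y (υ j))
  have hevC : ∀ r, ev (C r) = e₀ r := fun r => eval₂Hom_C _ _ r
  have hθC : ∀ r, θ (C r) = c r := fun r => eval₂Hom_C _ _ r
  have hevX : ∀ j, ev (X j) = Y (υ j) := fun j => eval₂Hom_X' _ _ j
  have hθX : ∀ j, θ (X j) = y (υ j) := fun j => eval₂Hom_X' _ _ j
  obtain ⟨H, hH⟩ : ∃ H : MvPolynomial (Fin s) W,
      H = (∏ q, C (α q)) * (∏ q, C (β q)) * ∏ j, X j := ⟨_, rfl⟩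
  have hHu : IsUnit (θ H) := by
    rw [hH, map_mul, map_mul, map_prod, map_prod, map_prod]
    refine IsUnit.mul (IsUnit.mul ?_ ?_) ?_
    · rw [IsUnit.prod_iff]
      intro q _
      rw [hθC]
      exact hcα q
    · rw [IsUnit.prod_iff]
      intro q _
      rw [hθC]
      exact hcβ q
    · rw [IsUnit.prod_iff]
      intro j _
      rw [hθX]
      exact hy.isUnit _
  let Pr : F → L → Prop := fun a z => ∃ (M : ℕ) (p : MvPolynomial (Fin s) W),
    a * ev H ^ M = ev p ∧ z * θ H ^ M = θ p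
  have hPadd : ∀ a z a' z', Pr a z → Pr a' z' → Pr (a + a') (z + z') := by
    rintro a z a' z' ⟨M, p, h1, h2⟩ ⟨M', p', h3, h4⟩
    refine ⟨M + M', p * H ^ M' + p' * H ^ M, ?_, ?_⟩
    · rw [map_add, map_mul, map_mul, ← h1, ← h3, map_pow, map_pow]
      ring
    · rw [map_add, map_mul, map_mul, ← h2, ← h4, map_pow, map_pow]
      ring
  have hPmul : ∀ a z a' z', Pr a z → Pr a' z' → Pr (a * a') (z * z') := by
    rintro a z a' z' ⟨M, p, h1, h2⟩ ⟨M', p', h3, h4⟩
    refine ⟨M + M', p * p', ?_, ?_⟩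
    · rw [map_mul, ← h1, ← h3]
      ring
    · rw [map_mul, ← h2, ← h4]
      ring
  have hPC : ∀ r : W, Pr (e₀ r) (c r) := fun r =>
    ⟨0, C r, by rw [pow_zero, mul_one, hevC], by rw [pow_zero, mul_one, hθC]⟩
  have hPdiv : ∀ (a : F) (z : L) (g g' p : MvPolynomial (Fin s) W), H = g * g' →
      a * ev g = ev p → z * θ g = θ p → Pr a z := by
    intro a z g g' p hg h1 h2
    refine ⟨1, p * g', ?_, ?_⟩
    · rw [pow_one, hg, map_mul, ← mul_assoc, h1, map_mul]
    · rw [pow_one, hg, map_mul, ← mul_assoc, h2, map_mul]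
  have hPgen : ∀ κ ∈ Set.range δ ∪ Set.range υ, Pr (Y κ) (y κ) ∧ Pr (Y (-κ)) (y (-κ)) := by
    intro κ hκ
    rcases hκ with ⟨q, rfl⟩ | ⟨j, rfl⟩
    · constructor
      · refine hPdiv _ _ (C (α q)) ((∏ q' ∈ Finset.univ.erase q, C (α q')) * (∏ q, C (β q)) *
          ∏ j, X j) (C (β q)) ?_ ?_ ?_
        · rw [hH, ← Finset.mul_prod_erase Finset.univ (fun q => (C (α q) :
            MvPolynomial (Fin s) W)) (Finset.mem_univ q)]
          ring
        · rw [hevC, hevC, ← hrelF q, mul_comm]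
        · rw [hθC, hθC, ← hyrel q, mul_comm]
      · refine hPdiv _ _ (C (β q)) ((∏ q, C (α q)) * (∏ q' ∈ Finset.univ.erase q, C (β q')) *
          ∏ j, X j) (C (α q)) ?_ ?_ ?_
        · rw [hH, ← Finset.mul_prod_erase Finset.univ (fun q => (C (β q) :
            MvPolynomial (Fin s) W)) (Finset.mem_univ q)]
          ring
        · rw [hevC, hevC, ← hrelF q, mul_comm, mul_assoc, mul_comm (Y (δ q)), hY.neg_mul, mul_one]
        · rw [hθC, hθC, ← hyrel q, mul_comm, mul_assoc, mul_comm (y (δ q)), hy.neg_mul, mul_one]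
    · constructor
      · exact ⟨0, X j, by rw [pow_zero, mul_one, hevX], by rw [pow_zero, mul_one, hθX]⟩
      · refine hPdiv _ _ (X j) ((∏ q, C (α q)) * (∏ q, C (β q)) *
          ∏ j' ∈ Finset.univ.erase j, X j') 1 ?_ ?_ ?_
        · rw [hH, ← Finset.mul_prod_erase Finset.univ (fun j => (X j :
            MvPolynomial (Fin s) W)) (Finset.mem_univ j)]
          ring
        · rw [hevX, map_one, hY.neg_mul]
        · rw [hθX, map_one, hy.neg_mul]
  have hPchar : ∀ κ : Λ, Pr (Y κ) (y κ) ∧ Pr (Y (-κ)) (y (-κ)) := by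
    intro κ
    have hκ : κ ∈ AddSubgroup.closure (Set.range δ ∪ Set.range υ) := by
      rw [hgen]; trivial
    induction hκ using AddSubgroup.closure_induction with
    | mem x hx => exact hPgen x hx
    | zero =>
      have h1 : Pr (Y 0) (y 0) := by
        rw [hY.zero, hy.zero]
        have := hPC 1
        rwa [map_one, map_one] at this
      exact ⟨h1, by rw [neg_zero]; exact h1⟩
    | add x x' _ _ h1 h2 =>
      refine ⟨?_, ?_⟩
      · rw [hY.add, hy.add]
        exact hPmul _ _ _ _ h1.1 h2.1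
      · rw [neg_add, hY.add, hy.add]
        exact hPmul _ _ _ _ h1.2 h2.2
    | neg x _ h1 => exact ⟨h1.2, by rw [neg_neg]; exact h1.1⟩
  have hPall : ∀ x : MvPolynomial (Fin N) W, Pr (eval₂Hom e₀ (fun l => Y (b l)) x) (can x) := by
    intro x
    induction x using MvPolynomial.induction_on with
    | C r =>
      rw [eval₂Hom_C]
      exact hPC _
    | add p q hp hq =>
      rw [map_add, map_add]
      exact hPadd _ _ _ _ hp hq
    | mul_X p l hp =>
      rw [map_mul, map_mul, eval₂Hom_X', hyb]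
      exact hPmul _ _ _ _ hp (hPchar (b l)).1
  apply hcan0
  obtain ⟨M, p, h1, h2⟩ := hPall w
  rw [hw, zero_mul] at h1
  have h3 : θ p = 0 := HK L c y hy hyrel hyh hcu p h1.symm
  rw [h3] at h2
  exact (IsUnit.mul_left_eq_zero (hHu.pow M)).1 h2

/-- **Regularity from toric relations.** -/
theorem tor {𝒪 : Subring F} (hloc : IsLoc 𝒪) {Y : Λ → F} (hY : IsChar Y)
    (e₀ : W →+* F) (he₀ : ∀ w, e₀ w ∈ 𝒪) (hb : ∀ l, Y (b l) ∈ 𝒪)
    (δ : 𝔖 → Λ) (α β : 𝔖 → W) (h : J → W) (hrelF : ∀ q, e₀ (α q) * Y (δ q) = e₀ (β q))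
    (hαU : ∀ q, U 𝒪 (e₀ (α q))) (hh : ∀ j, e₀ (h j) = 0)
    (hcomp : ∀ q, (∀ l, 0 ≤ b.repr (δ q) l) ∨ (∀ l, b.repr (δ q) l ≤ 0))
    (hRQ : RQ (primeOf hloc e₀ he₀) (Sum.elim β h))
    (hφ : ∀ q₁, U 𝒪 (e₀ (β q₁)) → ∃ φ : Λ →+ ℤ,
      (∀ q, q ≠ q₁ → U 𝒪 (e₀ (β q)) → φ (δ q) = 0) ∧ U 𝒪 ((φ (δ q₁) : ℤ) : F))
    {s : ℕ} (υ : Fin s → Λ) (hgen : AddSubgroup.closure (Set.range δ ∪ Set.range υ) = ⊤) (t₀ : W)
    (ht₀ : e₀ t₀ ≠ 0) (HK : HKer Y e₀ δ α β h υ t₀)
    (hfrac : ∀ x ∈ 𝒪, ∃ v w : MvPolynomial (Fin N) W,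
      U 𝒪 (eval₂Hom e₀ (fun l => Y (b l)) w) ∧
      x = eval₂Hom e₀ (fun l => Y (b l)) v / eval₂Hom e₀ (fun l => Y (b l)) w) :
    ∃ hr : IsRegularLocalRing 𝒪, @IndN 𝒪 _ hr.toIsLocalRing (Fin N) _
      (fun l => ⟨Y (b l), hb l⟩) := by
  classical
  let e : MvPolynomial (Fin N) W →+* F := eval₂Hom e₀ (fun l => Y (b l))
  have heC : ∀ r, e (C r) = e₀ r := fun r => eval₂Hom_C _ _ r
  have heX : ∀ l, e (X l) = Y (b l) := fun l => eval₂Hom_X' _ _ l
  have he : ∀ w, e w ∈ 𝒪 := by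
    intro w
    induction w using MvPolynomial.induction_on with
    | C r => rw [heC]; exact he₀ r
    | add p q hp hq => rw [map_add]; exact 𝒪.add_mem hp hq
    | mul_X p l hp => rw [map_mul, heX]; exact 𝒪.mul_mem hp (hb l)
  have hY0 : ∀ κ, Y κ ≠ 0 := fun κ => (hY.isUnit κ).ne_zero
  have hmon : ∀ {κ : Λ}, (∀ l, 0 ≤ b.repr κ l) → e (mon W b κ) = Y κ := fun hκ =>
    eval_mon b e hY heX hκ
  let sg : 𝔖 → Prop := fun q => ∀ l, 0 ≤ b.repr (δ q) l
  have hsg : IsSgn b δ sg := by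
    intro q
    refine ⟨fun h => h, fun h l => ?_⟩
    have h1 := (hcomp q).resolve_left h l
    rw [map_neg, Finsupp.neg_apply]
    linarith
  set Q := primeOf hloc e he with hQ
  have hmem : ∀ w, w ∈ Q ↔ ¬ U 𝒪 (e w) := fun w => mem_primeOf hloc e he w
  have hmemC : ∀ r, C r ∈ Q ↔ ¬ U 𝒪 (e₀ r) := fun r => by rw [hmem, heC]
  have hcomap : Q.comap C = primeOf hloc e₀ he₀ := by
    ext r
    rw [Ideal.mem_comap, hmemC, mem_primeOf]
  have h0Q : ∀ w, e w = 0 → w ∈ Q := fun w hw => by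
    rw [hmem, hw]
    exact not_U_zero
  have hrel0 : ∀ q, e (rel b δ α β sg q) = 0 := by
    intro q
    unfold rel
    split_ifs with hq
    · rw [map_sub, map_mul, heC, heC, hmon ((hsg q).1 hq), hrelF, sub_self]
    · rw [map_sub, map_mul, heC, heC, hmon ((hsg q).2 hq), ← hrelF q, mul_assoc,
        mul_comm (Y (δ q)), hY.neg_mul, mul_one, sub_self]
  have hneg : ∀ q, ¬ sg q → U 𝒪 (e₀ (β q)) := by
    intro q hq
    have h1 : Y (-δ q) ∈ 𝒪 := by
      rw [← hmon ((hsg q).2 hq)]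
      exact he _
    have h2 : e₀ (β q) * Y (-δ q) = e₀ (α q) := by
      rw [← hrelF q, mul_assoc, mul_comm (Y (δ q)), hY.neg_mul, mul_one]
    refine U.of_mul_left (he₀ _) h1 ?_
    rw [h2]
    exact hαU q
  obtain ⟨hreg, hIQ⟩ := hRQ.mv N Q hcomap
  have hIQ' : IQ Q (Sum.elim (fun q => C (β q)) (fun j => C (h j))) := by
    convert hIQ using 1
    funext i
    rcases i with i | i <;> rfl
  have hcore := core b Q δ α β sg h hsg (fun q hq => (hmemC _).1 hq (hαU q))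
    (fun q => h0Q _ (hrel0 q)) (fun j => h0Q _ (by rw [heC]; exact hh j))
    (fun q hq hβ => (hmemC _).1 hβ (hneg q hq)) (by
      intro q₁ hq₁
      rw [hmemC, not_not] at hq₁
      obtain ⟨φ, h1, h2⟩ := hφ q₁ hq₁
      refine ⟨φ, fun q hq hqU => h1 q hq ?_, ?_⟩
      · rw [hmemC, not_not] at hqU
        exact hqU
      · rw [hmem, not_not, map_intCast]
        exact h2) hIQ'
  obtain ⟨hr, hind⟩ := RG2 𝒪 hloc e he hfrac hreg (fun l => X l)
    (Sum.elim (rel b δ α β sg) (fun j => C (h j))) (by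
      rintro (q | j)
      · exact hrel0 q
      · show e (C (h j)) = 0
        rw [heC]
        exact hh j) hcore ((∏ l, X l) * C (t₀ * ∏ q, α q)) (by
      rw [map_mul, map_prod, heC, map_mul, map_prod]
      refine mul_ne_zero (Finset.prod_ne_zero_iff.2 fun l _ => ?_)
        (mul_ne_zero ht₀ (Finset.prod_ne_zero_iff.2 fun q _ => (hαU q).1))
      rw [heX]
      exact hY0 _) (fun w hw => kl b hsg hY e₀ hrelF hgen HK w hw)
  refine ⟨hr, ?_⟩
  convert hind using 1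
  funext l
  exact Subtype.ext (heX l).symm

end kl

end Pool.Agent.H865.TS
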