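import Mathlib

/-!
# Constants of rational function fields
-/

set_option autoImplicit false
set_option linter.unusedSectionVars false
set_option linter.unusedVariables false

namespace Pool.Agent.H865.TS

open Module

theorem alg_rat {κ K₀ : Type} [Field κ] [Field K₀] [Algebra κ K₀] {n : ℕ} (y : Fin n → K₀)
    (hy : AlgebraicIndependent κ y) (htop : IntermediateField.adjoin κ (Set.range y) = ⊤)
    {a : K₀} (ha : IsAlgebraic κ a) : ∃ c : κ, algebraMap κ K₀ c = a := by
  classical
  by_cases ha0 : a = 0
  · exact ⟨0, by rw [ha0, map_zero]⟩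
  let A := MvPolynomial (Fin n) κ
  let e : FractionRing A ≃ₐ[κ] K₀ := hy.aevalEquivField.trans
    ((IntermediateField.equivOfEq htop).trans IntermediateField.topEquiv)
  have key : ∀ b : K₀, IsAlgebraic κ b → ∃ p : A, algebraMap A (FractionRing A) p = e.symm b := by
    intro b hb
    have h1 : IsIntegral κ (e.symm b) := (hb.isIntegral).map e.symm.toAlgHom
    have h2 : IsIntegral A (e.symm b) := h1.tower_top
    exact IsIntegrallyClosed.isIntegral_iff.1 h2
  obtain ⟨p, hp⟩ := key a ha
  obtain ⟨q, hq⟩ := key a⁻¹ ha.inv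
  have hpq : p * q = 1 := by
    apply IsFractionRing.injective A (FractionRing A)
    rw [map_mul, hp, hq, map_one, ← map_mul, mul_inv_cancel₀ ha0, map_one]
  have hp0 : p ≠ 0 := left_ne_zero_of_mul_eq_one hpq
  have hq0 : q ≠ 0 := right_ne_zero_of_mul_eq_one hpq
  have hdeg : p.totalDegree = 0 := by
    have h1 := MvPolynomial.totalDegree_mul_of_isDomain hp0 hq0
    rw [hpq, MvPolynomial.totalDegree_one] at h1
    omega
  have hpC := MvPolynomial.totalDegree_eq_zero_iff_eq_C.1 hdeg
  refine ⟨MvPolynomial.coeff 0 p, ?_⟩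
  have h1 : e (algebraMap A (FractionRing A) p) = a := by rw [hp, AlgEquiv.apply_symm_apply]
  rw [← h1, hpC]
  have h2 : algebraMap A (FractionRing A) (MvPolynomial.C (MvPolynomial.coeff 0 p)) =
      algebraMap κ (FractionRing A) (MvPolynomial.coeff 0 p) := by
    rw [IsScalarTower.algebraMap_apply κ A (FractionRing A)]
    rfl
  rw [h2, AlgEquiv.commutes, MvPolynomial.coeff_C, if_pos rfl]

end Pool.Agent.H865.TS
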