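import Pool.Agent.H865.TS.Al
import Pool.Agent.H865.TS.Rt

/-!
# Rational function fields with constants
-/

set_option autoImplicit false
set_option linter.unusedSectionVars false
set_option linter.unusedVariables false

namespace Pool.Agent.H865.TS

open Module Pool.Agent.K3h75.TO Polynomial

section rg

variable {κ K : Type} [Field κ] [Field K] [Algebra κ K]

theorem adj_top {n : ℕ} (y : Fin n → K) (y₀ : Fin n → IntermediateField.adjoin κ (Set.range y))
    (h : ∀ i, (y₀ i : K) = y i) : IntermediateField.adjoin κ (Set.range y₀) = ⊤ := by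
  rw [eq_top_iff]
  rintro ⟨x, hx⟩ -
  have h1 : Subtype.val '' Set.range y₀ = Set.range y := by
    ext z
    constructor
    · rintro ⟨_, ⟨i, rfl⟩, rfl⟩
      exact ⟨i, (h i).symm⟩
    · rintro ⟨i, rfl⟩
      exact ⟨_, ⟨i, rfl⟩, h i⟩
  have h2 := IntermediateField.lift_adjoin κ (IntermediateField.adjoin κ (Set.range y))
    (Set.range y₀)
  rw [h1] at h2
  have h3 := hx
  rw [← h2] at h3
  exact (IntermediateField.mem_lift (F := IntermediateField.adjoin κ (Set.range y)) ⟨x, hx⟩).1 h3

variable {M : Type} [Field M] [Algebra M K] 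

/-- the compositum is algebraic -/
theorem kM_alg (hM : ∀ c : M, IsAlgebraic κ (algebraMap M K c)) :
    Algebra.IsAlgebraic κ (IntermediateField.adjoin κ (Set.range (algebraMap M K))) := by
  apply IntermediateField.isAlgebraic_adjoin
  rintro _ ⟨c, rfl⟩
  exact (hM c).isIntegral

/-- constants -/
theorem alg_kM (hM : ∀ c : M, IsAlgebraic κ (algebraMap M K c)) {n s : ℕ} (y : Fin n → K)
    (u : Fin s → K) (hind : AlgebraicIndependent κ (Sum.elim y u))
    (hgen : IntermediateField.adjoin κ (Set.range (algebraMap M K) ∪
      Set.range (Sum.elim y u)) = ⊤) {a : K} (ha : IsAlgebraic κ a) :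
    a ∈ IntermediateField.adjoin κ (Set.range (algebraMap M K)) := by
  have := kM_alg hM
  let L := IntermediateField.adjoin κ (Set.range (algebraMap M K))
  have h1 : AlgebraicIndependent L (Sum.elim y u) := hind.extendScalars L
  have h2 : AlgebraicIndependent L (Sum.elim y u ∘ finSumFinEquiv.symm) :=
    h1.comp _ finSumFinEquiv.symm.injective
  have h3 : Set.range (Sum.elim y u ∘ finSumFinEquiv.symm) = Set.range (Sum.elim y u) :=
    EquivLike.range_comp _ _
  have h4 : IntermediateField.adjoin L (Set.range (Sum.elim y u ∘ finSumFinEquiv.symm)) = ⊤ := by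
    rw [h3]
    have h5 := IntermediateField.adjoin_adjoin_left κ (Set.range (algebraMap M K))
      (Set.range (Sum.elim y u))
    rw [hgen] at h5
    rw [eq_top_iff]
    intro x _
    have h6 : x ∈ (IntermediateField.adjoin L (Set.range (Sum.elim y u))).restrictScalars κ := by
      rw [h5]
      trivial
    exact h6
  obtain ⟨c, hc⟩ := alg_rat _ h2 h4 (a := a) (ha.tower_top L)
  rw [← hc]
  exact c.2

theorem ind_inc {A B K : Type} [CommRing A] [CommRing B] [CommRing K] [Algebra A K] [Algebra B K]
    (inc : A →+* B) (h : Function.Injective inc) (hc : (algebraMap B K).comp inc = algebraMap A K)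
    {s : ℕ} {u : Fin s → K} (hu : AlgebraicIndependent B u) : AlgebraicIndependent A u := by
  rw [AlgebraicIndependent, injective_iff_map_eq_zero]
  intro p hp
  have h9 : MvPolynomial.map inc p = 0 := by
    apply hu
    rw [map_zero, MvPolynomial.aeval_def, MvPolynomial.eval₂_map, hc]
    exact hp
  exact MvPolynomial.map_injective inc h (by rw [h9, map_zero])

theorem Bf_sub {x : K} {n : ℕ} {y : Fin n → K}
    (hx : x ∈ Bf (IntermediateField.adjoin κ (Set.range y)) M K) :
    x ∈ IntermediateField.adjoin (IntermediateField.adjoin κ (Set.range (algebraMap M K)))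
      (Set.range y) := by
  set L := IntermediateField.adjoin κ (Set.range (algebraMap M K)) with hL
  set N := IntermediateField.adjoin L (Set.range y) with hN
  have h6 : ∀ z ∈ IntermediateField.adjoin κ (Set.range y), z ∈ N := by
    intro z hz
    have h7 : IntermediateField.adjoin κ (Set.range y) ≤ N.restrictScalars κ :=
      IntermediateField.adjoin_le_iff.2 fun w hw => IntermediateField.subset_adjoin L _ hw
    exact h7 hz
  have h9 : x ∈ (Bf (IntermediateField.adjoin κ (Set.range y)) M K).toSubfield := hx
  unfold Bf at h9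
  rw [IntermediateField.adjoin_toSubfield] at h9
  have h8 : (Subfield.closure (Set.range (algebraMap (IntermediateField.adjoin κ (Set.range y)) K) ∪
      Set.range (algebraMap M K)) : Subfield K) ≤ N.toSubfield := by
    rw [Subfield.closure_le]
    rintro z (⟨w, rfl⟩ | ⟨c, rfl⟩)
    · exact h6 _ w.2
    · exact N.algebraMap_mem ⟨algebraMap M K c, IntermediateField.subset_adjoin κ _ ⟨c, rfl⟩⟩
  exact h8 h9

/-- independence -/
theorem ind_sw {n s : ℕ} {L : Type} [Field L] [Algebra L K] {y : Fin n → K}
    {u : Fin s → K} (h1 : AlgebraicIndependent L (Sum.elim y u)) :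
    AlgebraicIndependent (IntermediateField.adjoin L (Set.range y)) u := by
  have h2 : AlgebraicIndependent L (Sum.elim u y) := by
    have h3 := h1.comp (Equiv.sumComm (Fin s) (Fin n)) (Equiv.sumComm _ _).injective
    have h4 : Sum.elim y u ∘ (Equiv.sumComm (Fin s) (Fin n)) = Sum.elim u y := by
      funext x
      rcases x with x | x <;> rfl
    rw [h4] at h3
    exact h3
  have h4 := (AlgebraicIndependent.sumElim_iff.1 h2).2
  rw [← IntermediateField.algebraicIndependent_adjoin_iff] at h4
  exact h4

theorem ind_cod {A K : Type} [CommRing A] [Field K] [Algebra A K]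
    (hA : Function.Injective (algebraMap A K)) {L : Type} [Field L] [Algebra L K]
    (N : IntermediateField L K) (h : ∀ x : A, algebraMap A K x ∈ N)
    {s : ℕ} {u : Fin s → K} (hu : AlgebraicIndependent N u) : AlgebraicIndependent A u := by
  refine ind_inc ((algebraMap A K).codRestrict N h) (fun x y hxy => hA ?_)
    (RingHom.ext fun x => rfl) hu
  exact congrArg (fun z : N => (z : K)) hxy

/-- independence -/
theorem ind_Bf (hM : ∀ c : M, IsAlgebraic κ (algebraMap M K c)) {n s : ℕ} (y : Fin n → K)
    (u : Fin s → K) (hind : AlgebraicIndependent κ (Sum.elim y u)) :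
    AlgebraicIndependent (Bf (IntermediateField.adjoin κ (Set.range y)) M K) u := by
  have := kM_alg hM
  have h1 : AlgebraicIndependent (IntermediateField.adjoin κ (Set.range (algebraMap M K)))
    (Sum.elim y u) := hind.extendScalars _
  have h4 := ind_sw h1
  exact ind_cod Subtype.val_injective _ (fun x => Bf_sub x.2) h4

end rg

end Pool.Agent.H865.TS
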