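import Pool.Agent.H865.TS.Kl

/-!
# Toric relations: the local ring inside a given local ring
-/

set_option autoImplicit false
set_option linter.unusedSectionVars false
set_option linter.unusedVariables false

namespace Pool.Agent.H865.TS

open MvPolynomial Module Pool.Agent.K3h75.TO Pool.Agent.H865.TT Pool.Agent.H918R2.Quad
  Pool.Agent.W418.LU2

section lo

variable {F : Type} [Field F] {𝒪 S : Subring F}

theorem U_lo (hS : S ≤ 𝒪) {x : F} (hx : x ∈ lo 𝒪 S) : U (lo 𝒪 S) x ↔ U 𝒪 x := by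
  constructor
  · rintro ⟨h0, -, h1⟩
    exact ⟨h0, lo_le hS hx, lo_le hS h1⟩
  · rintro ⟨h0, -, h1⟩
    exact ⟨h0, hx, inv_mem_lo hS hx h0 h1⟩

theorem isLoc_lo (hloc : IsLoc 𝒪) (hS : S ≤ 𝒪) : IsLoc (lo 𝒪 S) := by
  intro x y hx hy hxy
  have h1 := (U_lo hS ((lo 𝒪 S).add_mem hx hy)).1 hxy
  rcases hloc x y (lo_le hS hx) (lo_le hS hy) h1 with h | h
  · exact Or.inl ((U_lo hS hx).2 h)
  · exact Or.inr ((U_lo hS hy).2 h)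

theorem isLoc_of_Loc {A : Subring F} (hA : Loc A) : IsLoc A := by
  intro x y hx hy hxy
  have h1 : (x + y)⁻¹ * x ∈ A := A.mul_mem hxy.2.2 hx
  rcases hA _ h1 with ⟨h2, h3⟩ | ⟨h2, h3⟩
  · left
    have hx0 : x ≠ 0 := right_ne_zero_of_mul h2
    refine ⟨hx0, hx, ?_⟩
    have h4 : x⁻¹ = ((x + y)⁻¹ * x)⁻¹ * (x + y)⁻¹ := by
      have := hxy.1
      field_simp
    rw [h4]
    exact A.mul_mem h3 hxy.2.2
  · right
    have h5 : 1 - (x + y)⁻¹ * x = (x + y)⁻¹ * y := by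
      have := hxy.1
      field_simp
      ring
    rw [h5] at h2 h3
    have hy0 : y ≠ 0 := right_ne_zero_of_mul h2
    refine ⟨hy0, hy, ?_⟩
    have h4 : y⁻¹ = ((x + y)⁻¹ * y)⁻¹ * (x + y)⁻¹ := by
      have := hxy.1
      field_simp
    rw [h4]
    exact A.mul_mem h3 hxy.2.2

theorem Loc_of_isLoc {A : Subring F} (hA : IsLoc A) : Loc A := by
  intro a ha
  rcases hA a (1 - a) ha (A.sub_mem A.one_mem ha) (by rw [add_sub_cancel]; exact U_one) with h | h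
  · exact Or.inl ⟨h.1, h.2.2⟩
  · exact Or.inr ⟨h.1, h.2.2⟩

end lo

section tor

variable {W Λ 𝔖 J F : Type} [CommRing W] [AddCommGroup Λ] [Fintype 𝔖] [Fintype J] [Field F]
  {N s : ℕ} (b : Basis (Fin N) ℤ Λ)

theorem torA {𝒪 : Subring F} (hloc : IsLoc 𝒪) {Y : Λ → F} (hY : IsChar Y)
    (e₀ : W →+* F) (he₀ : ∀ w, e₀ w ∈ 𝒪) (hb : ∀ l, Y (b l) ∈ 𝒪)
    (δ : 𝔖 → Λ) (α β : 𝔖 → W) (h : J → W) (hrelF : ∀ q, e₀ (α q) * Y (δ q) = e₀ (β q))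
    (hαU : ∀ q, U 𝒪 (e₀ (α q))) (hh : ∀ j, e₀ (h j) = 0)
    (hcomp : ∀ q, (∀ l, 0 ≤ b.repr (δ q) l) ∨ (∀ l, b.repr (δ q) l ≤ 0))
    (hRQ : RQ (primeOf hloc e₀ he₀) (Sum.elim β h))
    (hφ : ∀ q₁, U 𝒪 (e₀ (β q₁)) → ∃ φ : Λ →+ ℤ,
      (∀ q, q ≠ q₁ → U 𝒪 (e₀ (β q)) → φ (δ q) = 0) ∧ U 𝒪 ((φ (δ q₁) : ℤ) : F))
    {s : ℕ} (υ : Fin s → Λ) (hgen : AddSubgroup.closure (Set.range δ ∪ Set.range υ) = ⊤) (t₀ : W)
    (ht₀ : e₀ t₀ ≠ 0) (HK : HKer Y e₀ δ α β h υ t₀) :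
    ∃ (𝒪A : Subring F) (hbA : ∀ l, Y (b l) ∈ 𝒪A) (hr : IsRegularLocalRing 𝒪A),
      (∀ w, e₀ w ∈ 𝒪A) ∧ 𝒪A ≤ 𝒪 ∧ IsLoc 𝒪A ∧ (∀ x ∈ 𝒪A, x ≠ 0 → x⁻¹ ∈ 𝒪 → x⁻¹ ∈ 𝒪A) ∧
      (∀ x ∈ 𝒪A, ∃ v w : MvPolynomial (Fin N) W, U 𝒪 (eval₂Hom e₀ (fun l => Y (b l)) w) ∧
        x = eval₂Hom e₀ (fun l => Y (b l)) v / eval₂Hom e₀ (fun l => Y (b l)) w) ∧
      @IndN 𝒪A _ hr.toIsLocalRing (Fin N) _ (fun l => ⟨Y (b l), hbA l⟩) := by
  classical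
  let e : MvPolynomial (Fin N) W →+* F := eval₂Hom e₀ (fun l => Y (b l))
  have heC : ∀ r, e (C r) = e₀ r := fun r => eval₂Hom_C _ _ r
  have heX : ∀ l, e (X l) = Y (b l) := fun l => eval₂Hom_X' _ _ l
  have he : ∀ w, e w ∈ 𝒪 := by
    intro w
    induction w using MvPolynomial.induction_on with
    | C r => rw [heC]; exact he₀ r
    | add p q hp hq => rw [map_add]; exact 𝒪.add_mem hp hq
    | mul_X p l hp => rw [map_mul, heX]; exact 𝒪.mul_mem hp (hb l)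
  have hS : e.range ≤ 𝒪 := by
    rintro _ ⟨w, rfl⟩
    exact he w
  have hlocA : IsLoc (lo 𝒪 e.range) := isLoc_lo hloc hS
  have heA : ∀ w, e w ∈ lo 𝒪 e.range := fun w => le_lo _ _ ⟨w, rfl⟩
  have he₀A : ∀ w, e₀ w ∈ lo 𝒪 e.range := fun w => by rw [← heC]; exact heA _
  have hbA : ∀ l, Y (b l) ∈ lo 𝒪 e.range := fun l => by rw [← heX]; exact heA _
  have hUA : ∀ x ∈ lo 𝒪 e.range, (U (lo 𝒪 e.range) x ↔ U 𝒪 x) := fun x hx => U_lo hS hx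
  have hpr : primeOf hlocA e₀ he₀A = primeOf hloc e₀ he₀ := by
    ext w
    rw [mem_primeOf, mem_primeOf, hUA _ (he₀A w)]
  have hfr : ∀ x ∈ lo 𝒪 e.range, ∃ v w : MvPolynomial (Fin N) W, U 𝒪 (e w) ∧
      x = e v / e w := by
    rintro x ⟨_, ⟨v, rfl⟩, _, ⟨w, rfl⟩, h0, h1, rfl⟩
    exact ⟨v, w, ⟨h0, he w, h1⟩, (div_eq_mul_inv _ _).symm⟩
  obtain ⟨hr, hind⟩ := tor b hlocA hY e₀ he₀A hbA δ α β h hrelF
    (fun q => (hUA _ (he₀A _)).2 (hαU q)) hh hcomp (by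
      have h1 : ∀ (Q : Ideal W) [Q.IsPrime], Q = primeOf hloc e₀ he₀ → RQ Q (Sum.elim β h) := by
        intro Q _ hQ
        subst hQ
        exact hRQ
      exact h1 _ hpr) (by
      intro q₁ hq₁
      obtain ⟨φ, h1, h2⟩ := hφ q₁ ((hUA _ (he₀A _)).1 hq₁)
      refine ⟨φ, fun q hq hqU => h1 q hq ((hUA _ (he₀A _)).1 hqU), ?_⟩
      exact (hUA _ (by
        rw [← map_intCast e₀]
        exact he₀A _)).2 h2) υ hgen t₀ ht₀ HK (by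
      intro x hx
      obtain ⟨v, w, h1, h2⟩ := hfr x hx
      exact ⟨v, w, (hUA _ (heA w)).2 h1, h2⟩)
  exact ⟨lo 𝒪 e.range, hbA, hr, he₀A, lo_le hS, hlocA,
    fun x hx h0 h1 => inv_mem_lo hS hx h0 h1, hfr, hind⟩

end tor

end Pool.Agent.H865.TS
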