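import Pool.Agent.H865.TS.Bd

/-!
# The module
-/

set_option autoImplicit false
set_option linter.unusedSectionVars false
set_option linter.unusedVariables false

namespace Pool.Agent.H865.TS

open Module Pool.Agent.K3h75.TO Pool.Agent.H865.TT Pool.Agent.H918R2.Quad
  Pool.Agent.W418.LU2 IsLocalRing Pool.Agent.N98.RM Polynomial IsDedekindDomain

section gl

variable {O K₀ : Type} [CommRing O] [Field K₀] [Algebra O K₀] {Tc I : Type}
  (X : LM (⊥ : Subalgebra O K₀) ⊤ Tc I)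

/-- regular on the chart after multiplication with the homogeneous coordinate -/
def Glu (t t' : Tc) (f : K₀) : Prop := ∃ n : ℕ, (X.H t' / X.H t) ^ n * f ∈ X.A t

variable {X}

theorem Glu.mul {t t' : Tc} {f f' : K₀} (h : Glu X t t' f) (h' : Glu X t t' f') :
    Glu X t t' (f * f') := by
  obtain ⟨n, hn⟩ := h
  obtain ⟨n', hn'⟩ := h'
  refine ⟨n + n', ?_⟩
  have e : (X.H t' / X.H t) ^ (n + n') * (f * f') =
      ((X.H t' / X.H t) ^ n * f) * ((X.H t' / X.H t) ^ n' * f') := by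
    rw [pow_add]
    ring
  rw [e]
  exact (X.A t).mul_mem hn hn'

theorem Glu.one {t t' : Tc} : Glu X t t' 1 := ⟨0, by
  rw [pow_zero, one_mul]
  exact (X.A t).one_mem⟩

theorem Glu.pow {t t' : Tc} {f : K₀} (h : Glu X t t' f) (n : ℕ) : Glu X t t' (f ^ n) := by
  induction n with
  | zero => rw [pow_zero]; exact Glu.one
  | succ n ih => rw [pow_succ]; exact ih.mul h

theorem Glu.prod {t t' : Tc} {ι : Type} (s : Finset ι) {f : ι → K₀}
    (h : ∀ i ∈ s, Glu X t t' (f i)) : Glu X t t' (∏ i ∈ s, f i) := by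
  classical
  induction s using Finset.induction_on with
  | empty => rw [Finset.prod_empty]; exact Glu.one
  | insert i s hi ih =>
    rw [Finset.prod_insert hi]
    exact (h i (Finset.mem_insert_self i s)).mul
      (ih fun j hj => h j (Finset.mem_insert_of_mem hj))

theorem glu_x (t t' : Tc) (i : I) : Glu X t t' (X.x t' i / X.x t i) := X.gi t t' i

theorem glu_x' (t t' : Tc) (i : I) : Glu X t t' (X.x t' i / X.x t i)⁻¹ := by
  obtain ⟨n, hn⟩ := X.gi t' t i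
  obtain ⟨m, hm⟩ := X.gl t t' _ hn
  refine ⟨n + m, ?_⟩
  have h1 := (X.A t).mul_mem ((X.A t).pow_mem (X.rt t t') n) hm
  have h2 := (X.A t).mul_mem ((X.A t).pow_mem (X.rt t t') n) h1
  have h3 := X.H0 t
  have h4 := X.H0 t'
  have e : (X.H t' / X.H t) ^ n * ((X.H t' / X.H t) ^ m * ((X.H t / X.H t') ^ n *
      (X.x t i / X.x t' i))) = (X.H t' / X.H t) ^ m * (X.x t' i / X.x t i)⁻¹ := by
    have e1 : (X.H t' / X.H t) ^ n * (X.H t / X.H t') ^ n = 1 := by
      rw [← mul_pow, div_mul_div_comm, mul_comm (X.H t'), div_self (mul_ne_zero h3 h4), one_pow]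
    rw [inv_div]
    linear_combination (X.H t' / X.H t) ^ m * (X.x t i / X.x t' i) * e1
  rw [e] at h2 h1
  have e2 : (X.H t' / X.H t) ^ (n + m) * (X.x t' i / X.x t i)⁻¹ =
      (X.H t' / X.H t) ^ n * ((X.H t' / X.H t) ^ m * (X.x t' i / X.x t i)⁻¹) := by
    rw [pow_add, mul_assoc]
  rw [e2]
  exact (X.A t).mul_mem ((X.A t).pow_mem (X.rt t t') n) h1

theorem glu_zpow (t t' : Tc) (i : I) (z : ℤ) : Glu X t t' ((X.x t' i / X.x t i) ^ z) := by
  cases z with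
  | ofNat n =>
    rw [Int.ofNat_eq_natCast, zpow_natCast]
    exact (glu_x t t' i).pow n
  | negSucc n =>
    rw [zpow_negSucc, ← inv_pow]
    exact (glu_x' t t' i).pow _

/-- the quotient of the generators -/
theorem glu_gen [Fintype I] (t t' : Tc) {a : K₀} (ha : a ∈ X.A t') (κ : I → ℤ) :
    Glu X t t' (a * ∏ i, (X.x t' i / X.x t i) ^ κ i) :=
  Glu.mul (X.gl t t' a ha) (Glu.prod _ fun i _ => glu_zpow t t' i _)

theorem exists_N1 [Finite Tc] [Fintype I] {Λ : Type} (G : Tc → Finset K₀)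
    (hG : ∀ t, ∀ a ∈ G t, a ∈ X.A t) (P : Finset Λ) (f : Λ → I → ℤ) :
    ∃ N : ℕ, ∀ t t', ∀ a ∈ G t', ∀ κ ∈ P,
      (X.H t' / X.H t) ^ N * (a * ∏ i, (X.x t' i / X.x t i) ^ f κ i) ∈ X.A t := by
  classical
  have : Fintype Tc := Fintype.ofFinite Tc
  have h1 : ∀ (t t' : Tc) (a : K₀) (κ : Λ), ∃ n : ℕ, a ∈ G t' →
      (X.H t' / X.H t) ^ n * (a * ∏ i, (X.x t' i / X.x t i) ^ f κ i) ∈ X.A t := by
    intro t t' a κ
    by_cases ha : a ∈ G t'
    · obtain ⟨n, hn⟩ := glu_gen t t' (hG t' a ha) (f κ)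
      exact ⟨n, fun _ => hn⟩
    · exact ⟨0, fun h => absurd h ha⟩
  choose n hn using h1
  refine ⟨∑ t, ∑ t', ∑ a ∈ G t', ∑ κ ∈ P, n t t' a κ, fun t t' a ha κ hκ => ?_⟩
  refine X.gl_mono ?_ (hn t t' a κ ha)
  calc n t t' a κ ≤ ∑ κ ∈ P, n t t' a κ :=
        Finset.single_le_sum (f := fun κ => n t t' a κ) (fun _ _ => Nat.zero_le _) hκ
    _ ≤ ∑ a ∈ G t', ∑ κ ∈ P, n t t' a κ :=
        Finset.single_le_sum (f := fun a => ∑ κ ∈ P, n t t' a κ) (fun _ _ => Nat.zero_le _) ha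
    _ ≤ ∑ t', ∑ a ∈ G t', ∑ κ ∈ P, n t t' a κ :=
        Finset.single_le_sum (f := fun t' => ∑ a ∈ G t', ∑ κ ∈ P, n t t' a κ)
          (fun _ _ => Nat.zero_le _) (Finset.mem_univ t')
    _ ≤ _ := Finset.single_le_sum (f := fun t => ∑ t', ∑ a ∈ G t', ∑ κ ∈ P, n t t' a κ)
          (fun _ _ => Nat.zero_le _) (Finset.mem_univ t)

end gl

section md

variable {O S K₀ M F : Type} [CommRing O] [CommRing S] [IsDedekindDomain S] [Field K₀]
  [Algebra O K₀] [Field M] [Algebra S M] [IsFractionRing S M] [Field F] [Algebra S F]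
  [Algebra M F] [IsScalarTower S M F] [Algebra K₀ F] {Tc I : Type} [Fintype I]
  (X : LM (⊥ : Subalgebra O K₀) ⊤ Tc I) (T : Finset (HeightOneSpectrum S))
  {r s : ℕ} (fu : Fin r ⊕ Fin s → F) (G : Tc → Finset K₀)
  (P : Finset (Lat1 I {v : HeightOneSpectrum S // v ∈ T} r s)) (N₁ : ℕ)

/-- the function in the base field -/
noncomputable def bf (t : Tc) (a : K₀) (κ : I → ℤ) : K₀ := X.H t ^ N₁ * (a * ∏ i, X.x t i ^ κ i)

variable (M) in
/-- **The module.** -/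
noncomputable def MX : Submodule S F :=
  Submodule.span S {z | ∃ t, ∃ a ∈ G t, ∃ κ ∈ P, ∃ c ∈ fid M (ex0 T κ.2.2),
    z = algebraMap K₀ F (bf X N₁ t a κ.1) * (algebraMap M F c * chr fu κ.2.1)}

variable {X T fu G P N₁}

theorem mem_MX {t : Tc} {a : K₀} (ha : a ∈ G t)
    {κ : Lat1 I {v : HeightOneSpectrum S // v ∈ T} r s} (hκ : κ ∈ P) {c : M}
    (hc : c ∈ fid M (ex0 T κ.2.2)) :
    algebraMap K₀ F (bf X N₁ t a κ.1) * (algebraMap M F c * chr fu κ.2.1) ∈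
      MX M X T fu G P N₁ :=
  Submodule.subset_span ⟨t, a, ha, κ, hκ, c, hc, rfl⟩

variable (X T fu G P N₁)

theorem MX_fg [Finite Tc] : (MX M X T fu G P N₁).FG := by
  classical
  have : Fintype Tc := Fintype.ofFinite Tc
  let Lm : Tc → K₀ → Lat1 I {v : HeightOneSpectrum S // v ∈ T} r s → (M →ₗ[S] F) := fun t a κ =>
    (LinearMap.mulRight S (algebraMap K₀ F (bf X N₁ t a κ.1) * chr fu κ.2.1)).comp
      (IsScalarTower.toAlgHom S M F).toLinearMap
  have hLm : ∀ t a κ c, Lm t a κ c =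
      algebraMap K₀ F (bf X N₁ t a κ.1) * (algebraMap M F c * chr fu κ.2.1) := by
    intro t a κ c
    show algebraMap M F c * (algebraMap K₀ F (bf X N₁ t a κ.1) * chr fu κ.2.1) = _
    ring
  have h1 : MX M X T fu G P N₁ = ⨆ t ∈ (Finset.univ : Finset Tc), ⨆ a ∈ G t, ⨆ κ ∈ P,
      (fid M (ex0 T κ.2.2)).map (Lm t a κ) := by
    apply le_antisymm
    · unfold MX
      rw [Submodule.span_le]
      rintro z ⟨t, a, ha, κ, hκ, c, hc, rfl⟩
      have h2 : (fid M (ex0 T κ.2.2)).map (Lm t a κ) ≤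
          ⨆ t ∈ (Finset.univ : Finset Tc), ⨆ a ∈ G t, ⨆ κ ∈ P,
            (fid M (ex0 T κ.2.2)).map (Lm t a κ) :=
        le_iSup₂_of_le t (Finset.mem_univ t) (le_iSup₂_of_le a ha
          (le_iSup₂_of_le κ hκ le_rfl))
      exact h2 ⟨c, hc, hLm t a κ c⟩
    · refine iSup₂_le fun t _ => iSup₂_le fun a ha => iSup₂_le fun κ hκ => ?_
      rintro _ ⟨c, hc, rfl⟩
      rw [hLm]
      exact mem_MX ha hκ hc
  rw [h1]
  exact Submodule.fg_biSup _ _ fun t _ => Submodule.fg_biSup _ _ fun a _ =>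
    Submodule.fg_biSup P _ fun κ _ => (fid_fg _ (ex0_fin T κ.2.2)).map _

end md

end Pool.Agent.H865.TS
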