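import Pool.Graph.R_seed8.R383.TM.NumF
import Pool.Graph.R_seed8.Y223.G.AllP
import Pool.Agent.H865.TT.Main
import Pool.Agent.H865.TS.Hm

/-!
# The main theorem, for a base field with models
-/

set_option autoImplicit false
set_option linter.unusedSectionVars false
set_option linter.unusedVariables false

open AlgebraicGeometry CategoryTheory CategoryTheory.Limits NumberField

namespace Pool.Agent.H865.TS

open Module Pool.Agent.K3h75.TO Pool.Agent.H865.TT Pool.Agent.H918R2.Quad Pool.Agent.Y223.G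
  Pool.Agent.R383.TM Polynomial IsDedekindDomain Pool.Agent.N98.RM

section pb

variable {O K₀ : Type} [CommRing O] [Field K₀] [Algebra O K₀]

/-- `x` is a boundary function on every model on which certain elements of `P₀` are. -/
def PB (O : Type) {K₀ : Type} [CommRing O] [Field K₀] [Algebra O K₀] (P₀ : Set K₀) (x : K₀) :
    Prop :=
  ∃ S : Finset K₀, (∀ z ∈ S, z ∈ P₀ ∧ z ≠ 0) ∧ ∀ (Tc I : Type) [Fintype I]
    (X : LM (⊥ : Subalgebra O K₀) ⊤ Tc I), (∀ z ∈ S, IsB X z) → IsB X x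

theorem PB.of_mem {P₀ : Set K₀} {x : K₀} (hx : x ∈ P₀) (h0 : x ≠ 0) : PB O P₀ x :=
  ⟨{x}, by
    intro z hz
    rw [Finset.mem_singleton.1 hz]
    exact ⟨hx, h0⟩, fun Tc I _ X h => h x (Finset.mem_singleton_self x)⟩

theorem PB.one {P₀ : Set K₀} : PB O P₀ (1 : K₀) :=
  ⟨∅, by simp, fun Tc I _ X _ => IsB.one⟩

theorem PB.mul {P₀ : Set K₀} {x y : K₀} (hx : PB O P₀ x) (hy : PB O P₀ y) :
    PB O P₀ (x * y) := by
  classical
  obtain ⟨S, h1, h2⟩ := hx
  obtain ⟨S', h1', h2'⟩ := hy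
  refine ⟨S ∪ S', ?_, fun Tc I _ X h => ?_⟩
  · intro z hz
    rcases Finset.mem_union.1 hz with h | h
    · exact h1 z h
    · exact h1' z h
  · exact (h2 Tc I X fun z hz => h z (Finset.mem_union_left _ hz)).mul
      (h2' Tc I X fun z hz => h z (Finset.mem_union_right _ hz))

theorem PB.inv {P₀ : Set K₀} {x : K₀} (hx : PB O P₀ x) : PB O P₀ x⁻¹ := by
  obtain ⟨S, h1, h2⟩ := hx
  exact ⟨S, h1, fun Tc I _ X h => (h2 Tc I X h).inv⟩

theorem PB.pow {P₀ : Set K₀} {x : K₀} (hx : PB O P₀ x) (n : ℕ) : PB O P₀ (x ^ n) := by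
  obtain ⟨S, h1, h2⟩ := hx
  exact ⟨S, h1, fun Tc I _ X h => (h2 Tc I X h).pow n⟩

end pb

section mn

theorem main0 {E M K₀ F K : Type} [Field E] [NumberField E] [Field M] [NumberField M]
    [Algebra E M] [IsGalois E M] [Field F] [Algebra E F] [Field K] [Algebra M K] [Algebra E K]
    [IsScalarTower E M K] [Algebra F K] [IsScalarTower E F K] [Field K₀] [Algebra E K₀]
    [Algebra (𝓞 E) K₀] [IsScalarTower (𝓞 E) E K₀] [Algebra K₀ K] [IsScalarTower E K₀ K]
    (hin : ∀ 𝔓 : Ideal (𝓞 M), 𝔓.IsMaximal → ∀ p : ℕ, p.Prime → (p : 𝓞 M) ∈ 𝔓 →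
      ¬ p ∣ Nat.card (inert E 𝔓))
    (ρ : (M ≃ₐ[E] M) →* (K ≃ₐ[E] K))
    (hρ : ∀ g c, ρ g (algebraMap M K c) = algebraMap M K (g c))
    (hρK : ∀ g (a : K₀), ρ g (algebraMap K₀ K a) = algebraMap K₀ K a)
    (hfix : ∀ x, (∀ g, ρ g x = x) ↔ ∃ y : F, algebraMap F K y = x)
    (halg : ∀ a : K₀, IsAlgebraic E a → ∃ e : E, algebraMap E K₀ e = a)
    (P₀ : Set K₀) (hP₀ : ∀ a : 𝓞 E, algebraMap (𝓞 E) K₀ a ∈ P₀)
    (hRM : ∀ (H : Type) [Finite H] (h : H → K₀), (∀ t, h t ∈ P₀ ∧ h t ≠ 0) →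
      ∃ (Tc I : Type) (_ : Finite Tc) (_ : Fintype I)
        (X : LM (⊥ : Subalgebra (𝓞 E) K₀) ⊤ Tc I), Frc X ∧ ∀ t, IsB X (h t))
    (Good : Subgroup Kˣ) (hG1 : ∀ q ∈ Good, (q : K) ∈ Bf K₀ M K)
    (hG2 : ∀ g, ∀ q ∈ Good, ∃ q' ∈ Good, (q' : K) = ρ g q)
    (hG3 : ∀ q ∈ Good, ∃ p : K₀[X], p.Monic ∧ eval₂ (algebraMap K₀ K) (q : K) p = 0 ∧
      p.coeff 0 ≠ 0 ∧ ∀ j, p.coeff j = 0 ∨ PB (𝓞 E) P₀ (p.coeff j))
    {s : ℕ} (u : Fin s → K) (hu : AlgebraicIndependent (Bf K₀ M K) u)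
    (hmon : ∀ g j, ∃ q ∈ Good, ∃ a : Fin s → ℤ, ρ g (u j) = (q : K) * chr u a)
    (hgen : ∀ L : Subfield K, (∀ c : M, algebraMap M K c ∈ L) →
      (∀ a : K₀, algebraMap K₀ K a ∈ L) → (∀ j, u j ∈ L) → L = ⊤) {Y : Type} [Field Y]
    (i : Y ≃+* F) :
    ∃ (X' : Scheme.{0}) (_ : IsIntegral X') (g : X' ⟶ Spec (CommRingCat.of ℤ)),
      IsProper g ∧
      (∀ x : X',
        (((Module.finrank (IsLocalRing.ResidueField (X'.presheaf.stalk x))
            (IsLocalRing.CotangentSpace (X'.presheaf.stalk x)) : ℕ∞)) : WithBot ℕ∞)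
          = ringKrullDim (X'.presheaf.stalk x)) ∧
      Nonempty (X'.functionField ≃+* Y) := by
  classical
  let ρ' : (M ≃ₐ[E] M) →* (K ≃+* K) :=
    { toFun := fun g => (ρ g).toRingEquiv
      map_one' := by
        ext x
        show ρ 1 x = x
        rw [map_one]
        rfl
      map_mul' := fun g h => by
        ext x
        show ρ (g * h) x = ρ g (ρ h x)
        rw [map_mul]
        rfl }
  have hρ'a : ∀ g x, ρ' g x = ρ g x := fun g x => rfl
  have htow : IsScalarTower (𝓞 E) K₀ K := IsScalarTower.of_algebraMap_eq fun x => by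
    rw [IsScalarTower.algebraMap_apply (𝓞 E) E K₀, ← IsScalarTower.algebraMap_apply E K₀ K]
    rfl
  -- the functions
  obtain ⟨r, f, hf, ⟨D⟩⟩ := exists_fu (K₀ := K₀) ρ' hρ hρK halg Good hG1 hG2 u hu hmon
  -- the generator
  obtain ⟨θ₀, d, hd0, hd⟩ := exists_et (E := E) (M := M)
  have hOinj : Function.Injective (algebraMap (𝓞 E) (𝓞 M)) :=
    FaithfulSMul.algebraMap_injective _ _
  have hMinj : Function.Injective (algebraMap (𝓞 M) M) := IsFractionRing.injective (𝓞 M) M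
  have hfinite : ∀ x : 𝓞 M, x ≠ 0 → {v : HeightOneSpectrum (𝓞 M) | x ∈ v.asIdeal}.Finite := by
    intro x hx
    refine (vd_support (O := 𝓞 M) (algebraMap (𝓞 M) M x)).subset fun v hv => ?_
    have h1 : algebraMap (𝓞 M) M x ≠ 0 := fun h => hx (hMinj (by rw [h, map_zero]))
    have h2 := (vd_pos_iff v x h1).2 hv
    show vd v (algebraMap (𝓞 M) M x) ≠ 0
    omega
  have hdS : algebraMap (𝓞 E) (𝓞 M) d ≠ 0 := fun h => hd0 (hOinj (by rw [h, map_zero]))
  -- the primes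
  let T0 : Set (HeightOneSpectrum (𝓞 M)) :=
    (⋃ g, ⋃ i, {v | vd v (D.c0 g i) ≠ 0}) ∪ ({v | algebraMap (𝓞 E) (𝓞 M) d ∈ v.asIdeal} ∪
      {v | aeval θ₀ (derivative (minpoly (𝓞 E) θ₀)) ∈ v.asIdeal})
  have hT0 : T0.Finite :=
    (Set.finite_iUnion fun g => Set.finite_iUnion fun i => vd_support _).union
      ((hfinite _ hdS).union (hfinite _ (minpoly_der θ₀)))
  let T1 : Set (HeightOneSpectrum (𝓞 M)) := ⋃ g : M ≃ₐ[E] M, sv g '' T0
  have hT1 : T1.Finite := Set.finite_iUnion fun g => hT0.image _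
  set T : Finset (HeightOneSpectrum (𝓞 M)) := hT1.toFinset with hTdef
  have hTmem : ∀ v, v ∈ T ↔ v ∈ T1 := fun v => hT1.mem_toFinset
  have hT01 : ∀ v ∈ T0, v ∈ T := fun v hv =>
    (hTmem v).2 (Set.mem_iUnion.2 ⟨1, v, hv, sv_one v⟩)
  have hTst : ∀ (g : M ≃ₐ[E] M), ∀ v ∈ T, sv g v ∈ T := by
    intro g v hv
    obtain ⟨h, v', hv', rfl⟩ := Set.mem_iUnion.1 ((hTmem v).1 hv)
    exact (hTmem _).2 (Set.mem_iUnion.2 ⟨g * h, v', hv', sv_mul g h v'⟩)
  have hTc : ∀ v, v ∉ T → ∀ g i, vd v (D.c0 g i) = 0 := by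
    intro v hv g i
    by_contra h
    exact hv (hT01 v (Or.inl (Set.mem_iUnion.2 ⟨g, Set.mem_iUnion.2 ⟨i, h⟩⟩)))
  have hTd : ∀ v, v ∉ T → algebraMap (𝓞 E) (𝓞 M) d ∉ v.asIdeal ∧
      aeval θ₀ (derivative (minpoly (𝓞 E) θ₀)) ∉ v.asIdeal := by
    intro v hv
    exact ⟨fun h => hv (hT01 v (Or.inr (Or.inl h))), fun h => hv (hT01 v (Or.inr (Or.inr h)))⟩
  choose ϖ' e' hϖ0 hϖ1 hϖ2 he1 he2 using fun v => exists_tameNF hin v
  -- the polynomials
  choose q hq hfq using hf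
  choose p hpm hp0 hpc hpj using fun m => hG3 (q m) (hq m)
  have h1 : ∀ m j, ∃ S : Finset K₀, (∀ z ∈ S, z ∈ P₀ ∧ z ≠ 0) ∧ ((p m).coeff j ≠ 0 →
      ∀ (Tc I : Type) [Fintype I] (X : LM (⊥ : Subalgebra (𝓞 E) K₀) ⊤ Tc I),
        (∀ z ∈ S, IsB X z) → IsB X ((p m).coeff j)) := by
    intro m j
    rcases hpj m j with h | ⟨S, h1, h2⟩
    · exact ⟨∅, by simp, fun h' => absurd h h'⟩
    · exact ⟨S, h1, fun _ => h2⟩
  choose Sm hSm1 hSm2 using h1
  let Sall : Finset K₀ := (Finset.univ.image fun v : {v // v ∈ T} =>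
      algebraMap (𝓞 E) K₀ (ϖ' v)) ∪
    Finset.univ.biUnion fun m => (Finset.range ((p m).natDegree + 1)).biUnion fun j => Sm m j
  have hEinj : Function.Injective (algebraMap (𝓞 E) K₀) := by
    rw [IsScalarTower.algebraMap_eq (𝓞 E) E K₀]
    exact (algebraMap E K₀).injective.comp (IsFractionRing.injective (𝓞 E) E)
  have hSall : ∀ z ∈ Sall, z ∈ P₀ ∧ z ≠ 0 := by
    intro z hz
    rcases Finset.mem_union.1 hz with hz | hz
    · obtain ⟨v, -, rfl⟩ := Finset.mem_image.1 hz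
      exact ⟨hP₀ _, fun h => hϖ0 v (hEinj (by rw [h, map_zero]))⟩
    · obtain ⟨m, -, hz⟩ := Finset.mem_biUnion.1 hz
      obtain ⟨j, -, hz⟩ := Finset.mem_biUnion.1 hz
      exact hSm1 m j z hz
  obtain ⟨Tc, I, hTc', hI, X, hX, hXB⟩ := hRM {z // z ∈ Sall} (fun z => z) fun z => hSall z z.2
  have hmin : HMin (𝓞 E) (𝓞 M) K₀ K := hmin_of ρ' hρ hρK
  obtain ⟨MM, hFG, hst, hreg, ⟨z₀, hz₀, hz₀0⟩, hL⟩ := exists_MX (G₀ := M ≃ₐ[E] M) (O := 𝓞 E)
    (S := 𝓞 M) (M := M) (F := K) (K₀ := K₀) (fun g a => rfl) ρ' hρK D T hTst hTc X hX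
    (fun v => e' v) (fun v => ϖ' v)
    (fun v => hXB ⟨_, Finset.mem_union_left _ (Finset.mem_image_of_mem _ (Finset.mem_univ v))⟩)
    (Bf K₀ M K).toSubfield (fun a => mem_Bf_K a) (fun c => mem_Bf_M c) (by
      intro x hx
      have h2 : x ∈ (Bf K₀ M K).toSubfield := hx
      unfold Bf at h2
      rw [IntermediateField.adjoin_toSubfield] at h2
      exact h2)
    (fun m => by
      rw [Sum.elim_inl, hfq]
      exact hG1 _ (hq m)) (by
      intro p hp
      let inc : (Bf K₀ M K).toSubfield →+* Bf K₀ M K :=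
        { toFun := fun x => ⟨x.1, x.2⟩
          map_one' := rfl
          map_zero' := rfl
          map_mul' := fun _ _ => rfl
          map_add' := fun _ _ => rfl }
      have hinc : Function.Injective inc := fun x y h => Subtype.ext (congrArg
        (fun z : Bf K₀ M K => (z : K)) h)
      have h2 : MvPolynomial.map inc p = 0 := by
        apply hu
        rw [map_zero, MvPolynomial.aeval_def, MvPolynomial.eval₂_map]
        exact hp
      exact MvPolynomial.map_injective inc hinc (by rw [h2, map_zero])) (by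
      intro m
      refine ⟨p m, hpm m, ?_, hpc m, fun j => ?_⟩
      · rw [Sum.elim_inl, hfq]
        exact hp0 m
      · by_cases h0 : (p m).coeff j = 0
        · exact Or.inl h0
        · refine Or.inr (hSm2 m j h0 Tc I X fun z hz => hXB ⟨z, ?_⟩)
          refine Finset.mem_union_right _ (Finset.mem_biUnion.2 ⟨m, Finset.mem_univ m,
            Finset.mem_biUnion.2 ⟨j, ?_, hz⟩⟩)
          rw [Finset.mem_range]
          exact Nat.lt_succ_of_le (le_natDegree_of_ne_zero h0))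
    (fun 𝔓 h𝔓 => exists_PL hd0 hd T hTd _ _ (fun v => hϖ0 v) (fun v => hϖ1 v) (fun v => hϖ2 v)
      (fun v => he1 v) (fun v => he2 v) 𝔓 h𝔓) hmin
  obtain ⟨S, hS⟩ := hFG
  -- the nonzero generators
  let S' : Finset K := S.filter fun x => x ≠ 0
  have hS' : Submodule.span (𝓞 M) (S' : Set K) = MM := by
    rw [← hS]
    apply le_antisymm
    · exact Submodule.span_mono fun x hx => (Finset.mem_filter.1 hx).1
    · rw [Submodule.span_le]
      intro x hx
      by_cases h0 : x = 0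
      · rw [h0]
        exact Submodule.zero_mem _
      · exact Submodule.subset_span (Finset.mem_filter.2 ⟨hx, h0⟩)
  have hS'ne : S'.card ≠ 0 := by
    intro h
    rw [Finset.card_eq_zero] at h
    rw [h, Finset.coe_empty, Submodule.span_empty] at hS'
    rw [← hS', Submodule.mem_bot] at hz₀
    exact hz₀0 hz₀
  obtain ⟨m, hm⟩ := Nat.exists_eq_succ_of_ne_zero hS'ne
  let e : Fin (m + 1) ≃ S' := (finCongr hm.symm).trans S'.equivFin.symm
  let z : Fin (m + 1) → K := fun j => e j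
  have hzr : Set.range z = (S' : Set K) := by
    ext x
    constructor
    · rintro ⟨j, rfl⟩
      exact (e j).2
    · intro hx
      exact ⟨e.symm ⟨x, hx⟩, by
        show ((e (e.symm ⟨x, hx⟩) : S') : K) = x
        rw [Equiv.apply_symm_apply]⟩
  have hz : ∀ j, z j ≠ 0 := fun j => (Finset.mem_filter.1 (e j).2).2
  have hspan : Submodule.span (𝓞 M) (Set.range z) = MM := by rw [hzr, hS']
  have hzM : ∀ j, z j ∈ MM := fun j => by
    rw [← hspan]
    exact Submodule.subset_span ⟨j, rfl⟩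
  have hchart : ∀ j, chart (𝓞 M) MM (z j) = Algebra.adjoin (𝓞 M) (Set.range fun i => z i / z j) := by
    intro j
    apply le_antisymm
    · unfold chart
      rw [Algebra.adjoin_le_iff]
      rintro _ ⟨x, hx, rfl⟩
      rw [← hspan] at hx
      induction hx using Submodule.span_induction with
      | mem x hx =>
        obtain ⟨i, rfl⟩ := hx
        exact Algebra.subset_adjoin ⟨i, rfl⟩
      | zero => rw [zero_div]; exact Subalgebra.zero_mem _
      | add x y _ _ hx hy => rw [add_div]; exact Subalgebra.add_mem _ hx hy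
      | smul r x _ hx => rw [smul_div_assoc]; exact Subalgebra.smul_mem _ hx r
    · rw [Algebra.adjoin_le_iff]
      rintro _ ⟨i, rfl⟩
      exact Algebra.subset_adjoin ⟨z i, hzM i, rfl⟩
  have hgen' : IntermediateField.adjoin M (Set.range fun j => z j / z 0) = ⊤ := by
    set L := IntermediateField.adjoin M (Set.range fun j => z j / z 0) with hLdef
    have h1 : ∀ x ∈ MM, x / z 0 ∈ L.toSubfield := by
      intro x hx
      rw [← hspan] at hx
      induction hx using Submodule.span_induction with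
      | mem x hx =>
        obtain ⟨i, rfl⟩ := hx
        exact IntermediateField.subset_adjoin M _ ⟨i, rfl⟩
      | zero => rw [zero_div]; exact L.toSubfield.zero_mem
      | add x y _ _ hx hy => rw [add_div]; exact L.toSubfield.add_mem hx hy
      | smul r x _ hx =>
        rw [Algebra.smul_def, mul_div_assoc, IsScalarTower.algebraMap_apply (𝓞 M) M K]
        exact L.toSubfield.mul_mem (L.algebraMap_mem _) hx
    obtain ⟨h2, h3⟩ := hL L.toSubfield (z 0) (fun c => L.algebraMap_mem c) h1 (hz 0)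
    have h4 := hgen L.toSubfield (fun c => L.algebraMap_mem c) h2 fun j => h3 (Sum.inr j)
    rw [eq_top_iff]
    intro x _
    have h5 : x ∈ L.toSubfield := by
      rw [h4]
      trivial
    exact h5
  have hlin : ∀ g j, ρ g (z j) ∈ Submodule.span (𝓞 M) (Set.range z) := by
    intro g j
    rw [hspan]
    exact hst g _ (hzM j)
  have hrg : ∀ j, IsRegularRing (Algebra.adjoin (𝓞 M) (Set.range fun i => z i / z j)) := by
    intro j
    rw [← hchart]
    have hN : IsNoetherianRing (chart (𝓞 M) MM (z j)) := by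
      rw [hchart]
      have h1 : (Algebra.adjoin (𝓞 M) (Set.range fun i => z i / z j)).FG :=
        ⟨Set.toFinset (Set.range fun i => z i / z j), by rw [Set.coe_toFinset]⟩
      have h2 : Algebra.FiniteType (𝓞 M)
          (Algebra.adjoin (𝓞 M) (Set.range fun i => z i / z j)) :=
        (Subalgebra.fg_iff_finiteType _).1 h1
      exact Algebra.FiniteType.isNoetherianRing (𝓞 M) _
    exact ⟨fun q hq => hreg (z j) (hzM j) (hz j) q⟩
  have hW : WWD E M F K ρ z := by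
    refine wwd_of all_TAMC ρ hρ hfix (fun 𝔓 h𝔓 p hp hp𝔓 h => hin 𝔓 h𝔓 p hp hp𝔓
      ((dvd_pow_self p two_ne_zero).trans h)) z hz hgen' hlin hrg (fun _ => 1) (fun _ _ => 0) ?_
    exact ⟨fun _ => Nat.one_pos, fun 𝔓 g h𝔓 hg => absurd hg (not_isW hin 𝔓 h𝔓 g),
      fun 𝔓 g h𝔓 hg => absurd hg (not_isW hin 𝔓 h𝔓 g),
      fun 𝔓 g h𝔓 hg => absurd hg (not_isW hin 𝔓 h𝔓 g)⟩
  exact tm_model_F all_LINW all_CHW all_RWB Pool.Agent.Y614.H.RegL.t_REGL hW i

end mn

end Pool.Agent.H865.TS
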