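import Pool.Graph.R_pool_sql_team_seeded_63374d34.Results.MP_4d1008_ag.AdmissibleTowers

/-!
# Models of rational function fields over arithmetic surfaces
-/

set_option autoImplicit false
set_option linter.unusedSectionVars false
set_option linter.unusedVariables false

namespace Pool.Agent.H865.TS

open Module NumberField Pool.Agent.N98 Pool.Agent.N98.RM Pool.Agent.N808.PR

theorem sum_choose (n t : ℕ) :
    ∑ s ∈ Finset.range (t + 1), (n + s - 1).choose s = (n + t).choose n := by
  induction t with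
  | zero => simp
  | succ t ih =>
    rw [Finset.sum_range_succ, ih]
    rcases n with _ | n
    · simp
    · have h1 : (n + 1 + (t + 1) - 1).choose (t + 1) = (n + 1 + t).choose n := by
        rw [show n + 1 + (t + 1) - 1 = n + (t + 1) by omega, show n + 1 + t = n + (t + 1) by omega]
        exact Nat.choose_symm_add.symm
      rw [h1, show n + 1 + (t + 1) = (n + 1 + t) + 1 by omega,
        Nat.choose_succ_succ (n + 1 + t) n, add_comm]

theorem degree_aff {κ K : Type} [Field κ] [Field K] [Algebra κ K] {n : ℕ} (y : Fin n → K) (t : ℕ) :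
    n.factorial * Module.finrank κ (img κ y t) ≤ 1 * (t + n) ^ n := by
  have hfin : Module.Finite κ (MvPolynomial.restrictTotalDegree (Fin n) κ t) := by
    have h0 : Finite {m : Fin n →₀ ℕ | (m.sum fun _ e => e) ≤ t} := by
      have := Pool.Agent.N98.card_eq_sum (Fin n) t
      classical
      have h1 : {m : Fin n →₀ ℕ | (m.sum fun _ e => e) ≤ t} =
          ((Finset.range (t + 1)).biUnion fun s =>
            Finset.finsuppAntidiag (Finset.univ : Finset (Fin n)) s : Finset (Fin n →₀ ℕ)) := by
        ext m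
        simp only [Set.mem_ofPred_eq, Finset.coe_biUnion, Set.mem_iUnion, Finset.mem_coe,
          Finset.mem_range, Finset.mem_finsuppAntidiag', exists_prop]
        constructor
        · intro h
          exact ⟨_, by omega, rfl, Finset.subset_univ _⟩
        · rintro ⟨s, hs, h, -⟩
          omega
      rw [h1]
      exact Finset.finite_toSet _
    exact Module.Finite.of_basis (MvPolynomial.basisRestrictSupport κ _)
  have h1 : Module.finrank κ (img κ y t) ≤ (n + t).choose n := by
    calc Module.finrank κ (img κ y t) ≤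
        Module.finrank κ (MvPolynomial.restrictTotalDegree (Fin n) κ t) :=
          Submodule.finrank_map_le _ _
      _ = (n + t).choose n := by
        rw [Pool.Agent.N98.finrank_restrict, Pool.Agent.N98.card_eq_sum, Fintype.card_fin,
          sum_choose]
  calc n.factorial * Module.finrank κ (img κ y t) ≤ n.factorial * (n + t).choose n :=
        Nat.mul_le_mul_left _ h1
    _ = (n + t).descFactorial n := (Nat.descFactorial_eq_factorial_mul_choose _ _).symm
    _ ≤ (n + t) ^ n := Nat.descFactorial_le_pow _ _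
    _ = 1 * (t + n) ^ n := by rw [one_mul, add_comm]

/-- A natural number which is a unit in the ring of integers. -/
theorem nat_unit {E : Type} [Field E] [NumberField E] {N : ℕ} (h : IsUnit ((N : ℕ) : 𝓞 E)) :
    N = 1 := by
  have h1 : IsUnit (algebraMap ℤ (𝓞 E) (N : ℤ)) := by simpa using h
  have h2 : IsUnit (N : ℤ) := by
    have h3 : IsLocalHom (algebraMap ℤ (𝓞 E)) := Algebra.IsIntegral.isLocalHom _ _
    exact h3.map_nonunit _ h1
  simpa using Int.isUnit_iff_natAbs_eq.1 h2

section rm

variable {E κ K₀ : Type} [Field E] [NumberField E] [Field κ] [Algebra E κ] [Algebra (𝓞 E) κ]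
  [IsScalarTower (𝓞 E) E κ] [Field K₀] [Algebra κ K₀] [Algebra E K₀] [IsScalarTower E κ K₀]
  [inst : Algebra (𝓞 E) K₀] [IsScalarTower (𝓞 E) E K₀]

theorem rm_K0 (hκ : HasRM (𝓞 E) κ) {n : ℕ} (y : Fin n → K₀) (hy : AlgebraicIndependent κ y)
    (htop : IntermediateField.adjoin κ (Set.range y) = ⊤) (H : Type) [Finite H] (h : H → K₀)
    (hh : ∀ t, h t ∈ (Set.range (algebraMap κ K₀) ∪ {z : K₀ | ∃ G : MvPolynomial (Fin n) κ,
      G.totalDegree ≤ 1 ∧ z = MvPolynomial.aeval y G}) ∧ h t ≠ 0) :
    ∃ (Tc I : Type) (_ : Finite Tc) (_ : Fintype I) (X : LM (⊥ : Subalgebra (𝓞 E) K₀) ⊤ Tc I),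
      Frc X ∧ ∀ t, IsB X (h t) := by
  have h1 : RMk (𝓞 E) E (Set.univ : Set κ) := rmk_base hκ
  have htr : Algebra.trdeg κ K₀ = n := by
    have h3 : Algebra.IsAlgebraic (Algebra.adjoin κ (Set.range y)) K₀ := by
      rw [← IntermediateField.isAlgebraic_adjoin_iff_top, htop]
      exact ⟨fun x => isAlgebraic_algebraMap (⟨x, trivial⟩ : (⊤ : IntermediateField κ K₀))⟩
    have h4 : IsTranscendenceBasis κ y := hy.isTranscendenceBasis_iff_isAlgebraic.2 h3
    rw [← h4.cardinalMk_eq_trdeg, Cardinal.mk_fin]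
  have h2 := rmk_fam3 (L := κ) (K := K₀) (E := κ) t_RTN t_KFL t_SQF (t_RHC t_RTN) h1
    (fun a => Set.mem_univ _) y htop n (Nat.le_succ n) htr (by
      rw [htop]
      rw [← htr]
      exact (IntermediateField.topEquiv (F := κ) (E := K₀)).trdeg_eq) 1 n 1 le_rfl
    (degree_aff y) (by simp)
  have e : inst = ((algebraMap E K₀).comp (algebraMap (𝓞 E) E)).toAlgebra :=
    Algebra.algebra_ext _ _ fun a => IsScalarTower.algebraMap_apply (𝓞 E) E K₀ a
  subst e
  obtain ⟨Tc, I, i1, i2, X, hX, hXB⟩ := h2 H h (by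
    intro t
    obtain ⟨h3, h4⟩ := hh t
    rw [Set.image_univ]
    exact ⟨h3, h4⟩)
  refine ⟨Tc, I, i1, i2, X, hX, fun t => ?_⟩
  obtain ⟨N, hN, hB⟩ := hXB t
  rw [nat_unit hN, pow_one] at hB
  exact hB

end rm

end Pool.Agent.H865.TS
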