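import Pool.Agent.H865.TS.Mn0
import Pool.Agent.H865.TS.Rm
import Pool.Agent.H865.TS.Kt

/-!
# The main theorem, over arithmetic surfaces
-/

set_option autoImplicit false
set_option linter.unusedSectionVars false
set_option linter.unusedVariables false

open AlgebraicGeometry CategoryTheory CategoryTheory.Limits NumberField

namespace Pool.Agent.H865.TS

open Module Pool.Agent.K3h75.TO Pool.Agent.H865.TT Pool.Agent.H918R2.Quad Pool.Agent.Y223.G
  Pool.Agent.R383.TM Polynomial IsDedekindDomain Pool.Agent.N98.RM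

/-- the group of the functions of the base -/
def gdg (κ : Type) {K : Type} [Field κ] [Field K] [Algebra κ K] {n : ℕ} (y : Fin n → K) :
    Subgroup Kˣ :=
  Subgroup.closure {z | IsAlgebraic κ (z : K) ∨ ∃ (c₀ : κ) (c : Fin n → κ),
    (z : K) = algebraMap κ K c₀ + ∑ i, algebraMap κ K (c i) * y i}

/-- the group of all functions -/
def mng (κ : Type) {K : Type} [Field κ] [Field K] [Algebra κ K] {n s : ℕ} (y : Fin n → K)
    (u : Fin s → K) : Subgroup Kˣ :=
  Subgroup.closure {z | IsAlgebraic κ (z : K) ∨ (∃ (c₀ : κ) (c : Fin n → κ),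
    (z : K) = algebraMap κ K c₀ + ∑ i, algebraMap κ K (c i) * y i) ∨ ∃ j, (z : K) = u j}

section gd

variable {κ K : Type} [Field κ] [Field K] [Algebra κ K] {n s : ℕ} {y : Fin n → K} {u : Fin s → K}

theorem mng_dec (hu0 : ∀ j, u j ≠ 0) {z : Kˣ} (hz : z ∈ mng κ y u) :
    ∃ q ∈ gdg κ y, ∃ a : Fin s → ℤ, (z : K) = (q : K) * chr u a := by
  classical
  unfold mng at hz
  induction hz using Subgroup.closure_induction with
  | mem z hz =>
    rcases hz with h | h | ⟨j, h⟩
    · exact ⟨z, Subgroup.subset_closure (Or.inl h), 0, by rw [chr_zero, mul_one]⟩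
    · exact ⟨z, Subgroup.subset_closure (Or.inr h), 0, by rw [chr_zero, mul_one]⟩
    · exact ⟨1, Subgroup.one_mem _, Pi.single j 1, by rw [chr_single, h, Units.val_one, one_mul]⟩
  | one => exact ⟨1, Subgroup.one_mem _, 0, by rw [chr_zero, mul_one]⟩
  | mul z z' _ _ h h' =>
    obtain ⟨q, hq, a, h⟩ := h
    obtain ⟨q', hq', a', h'⟩ := h'
    refine ⟨q * q', Subgroup.mul_mem _ hq hq', a + a', ?_⟩
    rw [chr_add hu0, Units.val_mul, Units.val_mul, h, h']
    ring
  | inv z _ h =>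
    obtain ⟨q, hq, a, h⟩ := h
    refine ⟨q⁻¹, Subgroup.inv_mem _ hq, -a, ?_⟩
    rw [chr_neg, Units.val_inv_eq_inv_val, Units.val_inv_eq_inv_val, h, mul_inv]

/-- a polynomial of degree at most one -/
def IsAf (κ : Type) {K₀ : Type} [Field κ] [Field K₀] [Algebra κ K₀] {n : ℕ} (y₀ : Fin n → K₀)
    (z : K₀) : Prop :=
  ∃ (c₀ : κ) (c : Fin n → κ), z = algebraMap κ K₀ c₀ + ∑ i, algebraMap κ K₀ (c i) * y₀ i

/-- decomposition of the functions of the base -/
theorem gdg_dec {K₀ : Type} [Field K₀] [Algebra κ K₀] [Algebra K₀ K] [IsScalarTower κ K₀ K]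
    {y₀ : Fin n → K₀} (hy₀ : ∀ i, algebraMap K₀ K (y₀ i) = y i) (O : Type) [CommRing O]
    [Algebra O K₀] {q : Kˣ} (hq : q ∈ gdg κ y) :
    ∃ (a : K) (l : K₀), a ≠ 0 ∧ l ≠ 0 ∧ IsAlgebraic κ a ∧ (q : K) = a * algebraMap K₀ K l ∧
      PB O (Set.range (algebraMap κ K₀) ∪ {z | IsAf κ y₀ z}) l := by
  unfold gdg at hq
  induction hq using Subgroup.closure_induction with
  | mem z hz =>
    rcases hz with h | ⟨c₀, c, h⟩
    · exact ⟨z, 1, z.ne_zero, one_ne_zero, h, by rw [map_one, mul_one], PB.one⟩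
    · have h1 : algebraMap K₀ K (algebraMap κ K₀ c₀ + ∑ i, algebraMap κ K₀ (c i) * y₀ i) = z := by
        rw [h, map_add, map_sum, ← IsScalarTower.algebraMap_apply]
        congr 1
        refine Finset.sum_congr rfl fun i _ => ?_
        rw [map_mul, hy₀, ← IsScalarTower.algebraMap_apply]
      have h0 : algebraMap κ K₀ c₀ + ∑ i, algebraMap κ K₀ (c i) * y₀ i ≠ 0 := by
        intro h0
        rw [h0, map_zero] at h1
        exact z.ne_zero h1.symm
      refine ⟨1, _, one_ne_zero, h0, ?_, ?_, PB.of_mem (Or.inr ⟨c₀, c, rfl⟩) h0⟩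
      · exact isAlgebraic_one
      · rw [h1, one_mul]
  | one => exact ⟨1, 1, one_ne_zero, one_ne_zero, isAlgebraic_one, by rw [map_one, mul_one,
      Units.val_one], PB.one⟩
  | mul z z' _ _ h h' =>
    obtain ⟨a, l, ha0, hl0, ha, h, hl⟩ := h
    obtain ⟨a', l', ha0', hl0', ha', h', hl'⟩ := h'
    refine ⟨a * a', l * l', mul_ne_zero ha0 ha0', mul_ne_zero hl0 hl0', ha.mul ha', ?_,
      hl.mul hl'⟩
    rw [Units.val_mul, h, h', map_mul]
    ring
  | inv z _ h =>
    obtain ⟨a, l, ha0, hl0, ha, h, hl⟩ := h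
    refine ⟨a⁻¹, l⁻¹, inv_ne_zero ha0, inv_ne_zero hl0, ha.inv, ?_, hl.inv⟩
    rw [Units.val_inv_eq_inv_val, h, map_inv₀, mul_inv]

end gd

/-- ratio polynomials -/
theorem gdg_pol {κ K K₀ : Type} [Field κ] [Field K] [Algebra κ K] [Field K₀] [Algebra κ K₀]
    [Algebra K₀ K] [IsScalarTower κ K₀ K] {n : ℕ}
    {y₀ : Fin n → K₀} (O : Type) [CommRing O] [Algebra O K₀] {a : K} {l : K₀} (ha0 : a ≠ 0)
    (hl0 : l ≠ 0) (ha : IsAlgebraic κ a)
    (hl : PB O (Set.range (algebraMap κ K₀) ∪ {z | IsAf κ y₀ z}) l) :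
    ∃ p : K₀[X], p.Monic ∧ eval₂ (algebraMap K₀ K) (a * algebraMap K₀ K l) p = 0 ∧
      p.coeff 0 ≠ 0 ∧ ∀ j, p.coeff j = 0 ∨
        PB O (Set.range (algebraMap κ K₀) ∪ {z | IsAf κ y₀ z}) (p.coeff j) := by
  have hint : IsIntegral κ a := ha.isIntegral
  refine ⟨((minpoly κ a).map (algebraMap κ K₀)).scaleRoots l, ?_, ?_, ?_, ?_⟩
  · rw [monic_scaleRoots_iff]
    exact (minpoly.monic hint).map _
  · have h1 : eval₂ (algebraMap K₀ K) a ((minpoly κ a).map (algebraMap κ K₀)) = 0 := by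
      rw [eval₂_map, ← IsScalarTower.algebraMap_eq]
      exact minpoly.aeval κ a
    rw [mul_comm]
    exact scaleRoots_eval₂_eq_zero _ h1
  · rw [coeff_scaleRoots]
    refine mul_ne_zero ?_ (pow_ne_zero _ hl0)
    rw [coeff_map]
    intro h
    exact minpoly.coeff_zero_ne_zero hint ha0 ((algebraMap κ K₀).injective (by rw [h, map_zero]))
  · intro j
    rw [coeff_scaleRoots, coeff_map]
    by_cases h : (minpoly κ a).coeff j = 0
    · left
      rw [h, map_zero, zero_mul]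
    · right
      refine PB.mul (PB.of_mem (Or.inl ⟨_, rfl⟩) ?_) (hl.pow _)
      intro h'
      exact h ((algebraMap κ K₀).injective (by rw [h', map_zero]))

theorem main1' {E M κ F K K₀ : Type} [Field E] [NumberField E] [Field M] [NumberField M]
    [Algebra E M] [IsGalois E M] [Field κ] [Algebra E κ] [Algebra (𝓞 E) κ]
    [IsScalarTower (𝓞 E) E κ] [Field F] [Algebra E F] [Field K] [Algebra M K] [Algebra E K]
    [IsScalarTower E M K] [Algebra F K] [IsScalarTower E F K] [Algebra κ K] [IsScalarTower E κ K]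
    [Field K₀] [Algebra κ K₀] [Algebra K₀ K] [IsScalarTower κ K₀ K] [Algebra E K₀]
    [IsScalarTower E κ K₀] [Algebra (𝓞 E) K₀] [IsScalarTower (𝓞 E) E K₀] [IsScalarTower E K₀ K]
    (hin : ∀ 𝔓 : Ideal (𝓞 M), 𝔓.IsMaximal → ∀ p : ℕ, p.Prime → (p : 𝓞 M) ∈ 𝔓 →
      ¬ p ∣ Nat.card (inert E 𝔓)) (hκ : HasRM (𝓞 E) κ)
    (halg : ∀ a : κ, IsAlgebraic E a → ∃ e : E, algebraMap E κ e = a)
    (ρ : (M ≃ₐ[E] M) →* (K ≃ₐ[E] K))
    (hρ : ∀ g c, ρ g (algebraMap M K c) = algebraMap M K (g c))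
    (hρκ : ∀ g (a : κ), ρ g (algebraMap κ K a) = algebraMap κ K a)
    (hfix : ∀ x, (∀ g, ρ g x = x) ↔ ∃ y : F, algebraMap F K y = x)
    {n s : ℕ} (y : Fin n → K) (u : Fin s → K) (hy : ∀ g i, ρ g (y i) = y i) (hu0 : ∀ j, u j ≠ 0)
    (y₀ : Fin n → K₀) (hy₀ : ∀ i, algebraMap K₀ K (y₀ i) = y i)
    (hy₀ind : AlgebraicIndependent κ y₀)
    (hy₀top : IntermediateField.adjoin κ (Set.range y₀) = ⊤)
    (hBf : AlgebraicIndependent (Bf K₀ M K) u)
    (hBa : ∀ a : K, IsAlgebraic κ a → a ∈ Bf K₀ M K)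
    (hgen : IntermediateField.adjoin κ (Set.range (algebraMap M K) ∪
      Set.range (Sum.elim y u)) = ⊤)
    (hmon : ∀ g j, ∃ z ∈ mng κ y u, (z : K) = ρ g (u j)) {Y : Type} [Field Y] (i : Y ≃+* F) :
    ∃ (X' : Scheme.{0}) (_ : IsIntegral X') (g : X' ⟶ Spec (CommRingCat.of ℤ)),
      IsProper g ∧
      (∀ x : X',
        (((Module.finrank (IsLocalRing.ResidueField (X'.presheaf.stalk x))
            (IsLocalRing.CotangentSpace (X'.presheaf.stalk x)) : ℕ∞)) : WithBot ℕ∞)
          = ringKrullDim (X'.presheaf.stalk x)) ∧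
      Nonempty (X'.functionField ≃+* Y) := by
  classical
  have hρK : ∀ g (a : K₀), ρ g (algebraMap K₀ K a) = algebraMap K₀ K a := by
    intro g a
    have ha : a ∈ IntermediateField.adjoin κ (Set.range y₀) := by
      rw [hy₀top]
      trivial
    induction ha using IntermediateField.adjoin_induction with
    | mem x hx =>
      obtain ⟨j, rfl⟩ := hx
      rw [hy₀, hy]
    | algebraMap x => rw [← IsScalarTower.algebraMap_apply, hρκ]
    | add x z _ _ hx hz => rw [map_add, map_add, hx, hz]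
    | inv x _ hx => rw [map_inv₀, map_inv₀, hx]
    | mul x z _ _ hx hz => rw [map_mul, map_mul, hx, hz]
  have hρa : ∀ g (a : K), IsAlgebraic κ a → IsAlgebraic κ (ρ g a) := by
    intro g a ha
    let f : K →ₐ[κ] K := { toRingHom := (ρ g : K ≃ₐ[E] K).toAlgHom.toRingHom
                           commutes' := fun a => hρκ g a }
    exact ha.algHom f
  have hGood : ∀ q ∈ gdg κ y, ∃ (a : K) (l : K₀), a ≠ 0 ∧ l ≠ 0 ∧ IsAlgebraic κ a ∧
      (q : K) = a * algebraMap K₀ K l ∧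
      PB (𝓞 E) (Set.range (algebraMap κ K₀) ∪ {z | IsAf κ y₀ z}) l :=
    fun q hq => gdg_dec hy₀ (𝓞 E) hq
  refine main0 hin ρ hρ hρK hfix ?_ (Set.range (algebraMap κ K₀) ∪ {z | IsAf κ y₀ z}) ?_ ?_
    (gdg κ y) ?_ ?_ ?_ u hBf ?_ ?_ i
  · intro a ha
    obtain ⟨c, rfl⟩ := alg_rat y₀ hy₀ind hy₀top (a := a) (ha.extendScalars (algebraMap E κ).injective)
    obtain ⟨e, rfl⟩ := halg c ((isAlgebraic_algebraMap_iff (algebraMap κ K₀).injective).1 ha)
    exact ⟨e, IsScalarTower.algebraMap_apply E κ K₀ e⟩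
  · intro a
    refine Or.inl ⟨algebraMap E κ (algebraMap (𝓞 E) E a), ?_⟩
    rw [← IsScalarTower.algebraMap_apply E κ K₀, ← IsScalarTower.algebraMap_apply (𝓞 E) E K₀]
  · intro H _ h hh
    refine rm_K0 hκ y₀ hy₀ind hy₀top H h fun t => ⟨?_, (hh t).2⟩
    rcases (hh t).1 with h1 | ⟨c₀, c, h1⟩
    · exact Or.inl h1
    · refine Or.inr ⟨MvPolynomial.C c₀ + ∑ i, MvPolynomial.C (c i) * MvPolynomial.X i, ?_, ?_⟩
      · refine (MvPolynomial.totalDegree_add _ _).trans (max_le ?_ ?_)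
        · rw [MvPolynomial.totalDegree_C]
          exact Nat.zero_le _
        · refine (MvPolynomial.totalDegree_finsetSum _ _).trans (Finset.sup_le fun i _ => ?_)
          refine (MvPolynomial.totalDegree_mul _ _).trans ?_
          rw [MvPolynomial.totalDegree_C, MvPolynomial.totalDegree_X]
      · rw [h1, map_add, map_sum]
        simp only [map_mul, MvPolynomial.aeval_X, MvPolynomial.algHom_C]
  · intro q hq
    obtain ⟨a, l, ha0, hl0, ha, h, hl⟩ := hGood q hq
    rw [h]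
    exact mul_mem (hBa a ha) (mem_Bf_K l)
  · intro g q hq
    refine ⟨Units.map (ρ g : K →* K) q, ?_, rfl⟩
    have h1 : gdg κ y ≤ (gdg κ y).comap (Units.map (ρ g : K →* K)) := by
      conv_lhs => unfold gdg
      rw [Subgroup.closure_le]
      intro z hz
      refine Subgroup.subset_closure ?_
      rcases hz with hz | ⟨c₀, c, hz⟩
      · exact Or.inl (hρa g _ hz)
      · refine Or.inr ⟨c₀, c, ?_⟩
        show ρ g (z : K) = _
        rw [hz, map_add, map_sum, hρκ]
        simp only [map_mul, hρκ, hy]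
    exact h1 hq
  · intro q hq
    obtain ⟨a, l, ha0, hl0, ha, h, hl⟩ := hGood q hq
    rw [h]
    exact gdg_pol (𝓞 E) ha0 hl0 ha hl
  · intro g j
    obtain ⟨z, hz, hz'⟩ := hmon g j
    obtain ⟨q, hq, a, ha⟩ := mng_dec hu0 hz
    exact ⟨q, hq, a, hz'.symm.trans ha⟩
  · intro L hM hK hu
    rw [eq_top_iff]
    intro x _
    have h1 : x ∈ (IntermediateField.adjoin κ (Set.range (algebraMap M K) ∪
      Set.range (Sum.elim y u))).toSubfield := by
      rw [hgen]
      trivial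
    rw [IntermediateField.adjoin_toSubfield] at h1
    have h2 : Subfield.closure (Set.range (algebraMap κ K) ∪ (Set.range (algebraMap M K) ∪
      Set.range (Sum.elim y u))) ≤ L := by
      rw [Subfield.closure_le]
      rintro w (⟨a, rfl⟩ | ⟨c, rfl⟩ | ⟨j | j, rfl⟩)
      · show algebraMap κ K a ∈ L
        rw [IsScalarTower.algebraMap_apply κ K₀ K]
        exact hK _
      · exact hM c
      · show y j ∈ L
        rw [← hy₀]
        exact hK _
      · exact hu j
    exact h2 h1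

theorem main1 {E M κ F K : Type} [Field E] [NumberField E] [Field M] [NumberField M]
    [Algebra E M] [IsGalois E M] [Field κ] [Algebra E κ] [Algebra (𝓞 E) κ]
    [IsScalarTower (𝓞 E) E κ] [Field F] [Algebra E F] [Field K] [Algebra M K] [Algebra E K]
    [IsScalarTower E M K] [Algebra F K] [IsScalarTower E F K] [Algebra κ K] [IsScalarTower E κ K]
    (hin : ∀ 𝔓 : Ideal (𝓞 M), 𝔓.IsMaximal → ∀ p : ℕ, p.Prime → (p : 𝓞 M) ∈ 𝔓 →
      ¬ p ∣ Nat.card (inert E 𝔓)) (hκ : HasRM (𝓞 E) κ)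
    (halg : ∀ a : κ, IsAlgebraic E a → ∃ e : E, algebraMap E κ e = a)
    (ρ : (M ≃ₐ[E] M) →* (K ≃ₐ[E] K))
    (hρ : ∀ g c, ρ g (algebraMap M K c) = algebraMap M K (g c))
    (hρκ : ∀ g (a : κ), ρ g (algebraMap κ K a) = algebraMap κ K a)
    (hfix : ∀ x, (∀ g, ρ g x = x) ↔ ∃ y : F, algebraMap F K y = x)
    {n s : ℕ} (y : Fin n → K) (u : Fin s → K) (hy : ∀ g i, ρ g (y i) = y i)
    (hind : AlgebraicIndependent κ (Sum.elim y u))
    (hgen : IntermediateField.adjoin κ (Set.range (algebraMap M K) ∪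
      Set.range (Sum.elim y u)) = ⊤)
    (hmon : ∀ g j, ∃ z ∈ mng κ y u, (z : K) = ρ g (u j)) {Y : Type} [Field Y] (i : Y ≃+* F) :
    ∃ (X' : Scheme.{0}) (_ : IsIntegral X') (g : X' ⟶ Spec (CommRingCat.of ℤ)),
      IsProper g ∧
      (∀ x : X',
        (((Module.finrank (IsLocalRing.ResidueField (X'.presheaf.stalk x))
            (IsLocalRing.CotangentSpace (X'.presheaf.stalk x)) : ℕ∞)) : WithBot ℕ∞)
          = ringKrullDim (X'.presheaf.stalk x)) ∧
      Nonempty (X'.functionField ≃+* Y) := by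
  classical
  have hM : ∀ c : M, IsAlgebraic κ (algebraMap M K c) := by
    intro c
    have h1 : IsAlgebraic E (algebraMap M K c) :=
      (Algebra.IsAlgebraic.isAlgebraic (R := E) c).algebraMap
    exact h1.extendScalars (algebraMap E κ).injective
  have hyind : AlgebraicIndependent κ y := hind.comp Sum.inl Sum.inl_injective
  have hu0 : ∀ j, u j ≠ 0 := fun j => hind.ne_zero (Sum.inr j)
  have hBf := ind_Bf hM y u hind
  have hBa : ∀ a : K, IsAlgebraic κ a →
      a ∈ Bf (IntermediateField.adjoin κ (Set.range y)) M K := by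
    intro a ha
    have h1 := alg_kM hM y u hind hgen ha
    have h2 : (IntermediateField.adjoin κ (Set.range (algebraMap M K))).toSubfield ≤
        (Bf (IntermediateField.adjoin κ (Set.range y)) M K).toSubfield := by
      rw [IntermediateField.adjoin_toSubfield, Subfield.closure_le]
      rintro z (⟨w, rfl⟩ | ⟨c, rfl⟩)
      · exact mem_Bf_K (K₀ := IntermediateField.adjoin κ (Set.range y))
          ⟨algebraMap κ K w, (IntermediateField.adjoin κ (Set.range y)).algebraMap_mem w⟩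
      · exact mem_Bf_M c
    exact h2 h1
  have htow : IsScalarTower (𝓞 E) κ K := IsScalarTower.of_algebraMap_eq fun x => by
    rw [IsScalarTower.algebraMap_apply (𝓞 E) E κ, ← IsScalarTower.algebraMap_apply E κ K]
    rfl
  generalize hK : IntermediateField.adjoin κ (Set.range y) = K₀ at *
  have i1 : IsScalarTower (𝓞 E) E K₀ := IsScalarTower.of_algebraMap_eq fun x => by
    apply Subtype.ext
    rfl
  have i2 : IsScalarTower E K₀ K := IsScalarTower.of_algebraMap_eq fun x => rfl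
  have hyK : ∀ i, y i ∈ K₀ := fun i => by
    rw [← hK]
    exact IntermediateField.subset_adjoin κ _ ⟨i, rfl⟩
  let y₀ : Fin n → K₀ := fun i => ⟨y i, hyK i⟩
  refine main1' (K₀ := K₀) hin hκ halg ρ hρ hρκ hfix y u hy hu0 y₀ (fun i => rfl) ?_ ?_ hBf hBa hgen
    hmon i
  · exact AlgebraicIndependent.of_comp K₀.val hyind
  · subst hK
    exact adj_top y y₀ fun i => rfl

end Pool.Agent.H865.TS
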