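import Pool.Graph.R_seed8.Y223.G.AllW
import Pool.Graph.R_seed8.Y901.G.Wreg
import Pool.Graph.R_pool_sql_team_seeded_5cf16337.K3h21.TO.Num
import Pool.Agent.H865.TS.Ex

/-!
# Tame extensions of number fields
-/

set_option autoImplicit false
set_option linter.unusedSectionVars false
set_option linter.unusedVariables false

namespace Pool.Agent.H865.TS

open Module Pool.Agent.K3h75.TO Pool.Agent.H865.TT Pool.Agent.H918R2.Quad
  Polynomial IsDedekindDomain NumberField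

section ram

variable {O S M : Type} [CommRing O] [IsDedekindDomain O] [CommRing S]
  [IsDedekindDomain S] [Algebra O S] [Module.IsTorsionFree O S] [Field M] [Algebra S M]
  [IsFractionRing S M]

/-- A uniformizer of the base ring has the ramification index as its valuation. -/
theorem exists_unif (v : HeightOneSpectrum S) (hp0 : v.asIdeal.under O ≠ ⊥)
    (he : v.asIdeal.ramificationIdx O ≠ 0) :
    ∃ ϖ : O, ϖ ≠ 0 ∧ algebraMap O S ϖ ∈ v.asIdeal ∧
      vd v (algebraMap S M (algebraMap O S ϖ)) = (v.asIdeal.ramificationIdx O : ℕ) := by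
  classical
  have hinj : Function.Injective (algebraMap S M) := IsFractionRing.injective S M
  have hOinj : Function.Injective (algebraMap O S) := FaithfulSMul.algebraMap_injective O S
  set p : Ideal O := v.asIdeal.under O with hp
  have hv : v.asIdeal.IsPrime := v.isPrime
  have hpp : p.IsPrime := Ideal.IsPrime.under O v.asIdeal
  have hlies : v.asIdeal.LiesOver p := ⟨hp⟩
  have hpS : p.map (algebraMap O S) ≠ ⊥ := Ideal.map_ne_bot_of_ne_bot hp0
  have hmul := Ideal.IsDedekindDomain.ramificationIdx_eq_multiplicity p v.asIdeal hpS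
  set e := v.asIdeal.ramificationIdx O with hedef
  have hfin : FiniteMultiplicity v.asIdeal (p.map (algebraMap O S)) :=
    FiniteMultiplicity.of_prime_left ((Ideal.prime_iff_isPrime v.ne_bot).2 hv) hpS
  have h1 : p.map (algebraMap O S) ≤ v.asIdeal ^ e := by
    rw [← Ideal.dvd_iff_le, hmul]
    exact pow_multiplicity_dvd _ _
  have h2 : ¬ p.map (algebraMap O S) ≤ v.asIdeal ^ (e + 1) := by
    rw [← Ideal.dvd_iff_le, hmul]
    exact hfin.not_pow_dvd_of_multiplicity_lt (Nat.lt_succ_self _)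
  have hpr : Prime p := (Ideal.prime_iff_isPrime hp0).2 hpp
  obtain ⟨ϖ, hϖ1, hϖ2⟩ : ∃ ϖ ∈ p, ϖ ∉ p ^ 2 := by
    have h1 : p ^ 2 < p := by
      have h2 := Ideal.pow_right_strictAnti p hp0 hpp.ne_top (show 1 < 2 by norm_num)
      simpa using h2
    exact SetLike.exists_of_lt h1
  have hϖ0 : ϖ ≠ 0 := fun h => hϖ2 (by rw [h]; exact Ideal.zero_mem _)
  have hsup : Ideal.span {ϖ} ⊔ p ^ 2 = p := by
    have h3 : Ideal.span {ϖ} ⊔ p ^ 2 ∣ p ^ 2 := Ideal.dvd_iff_le.2 le_sup_right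
    obtain ⟨i, hi, h4⟩ := (dvd_prime_pow hpr 2).1 h3
    rw [associated_iff_eq] at h4
    have h5 : Ideal.span {ϖ} ⊔ p ^ 2 ≤ p :=
      sup_le ((Ideal.span_singleton_le_iff_mem _).2 hϖ1) (Ideal.pow_le_self two_ne_zero)
    interval_cases i
    · rw [pow_zero, Ideal.one_eq_top] at h4
      rw [h4, top_le_iff] at h5
      exact absurd h5 hpp.ne_top
    · rw [h4, pow_one]
    · exfalso
      apply hϖ2
      rw [← h4]
      exact Ideal.mem_sup_left (Ideal.mem_span_singleton_self ϖ)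
  have hϖe : algebraMap O S ϖ ∈ v.asIdeal ^ e := h1 (Ideal.mem_map_of_mem _ hϖ1)
  have hϖe' : algebraMap O S ϖ ∉ v.asIdeal ^ (e + 1) := by
    intro h
    apply h2
    have h3 : p.map (algebraMap O S) = Ideal.span {algebraMap O S ϖ} ⊔
        (p.map (algebraMap O S)) ^ 2 := by
      conv_lhs => rw [← hsup]
      rw [Ideal.map_sup, Ideal.map_span, Set.image_singleton, Ideal.map_pow]
    rw [h3]
    refine sup_le ((Ideal.span_singleton_le_iff_mem _).2 h) ?_
    calc (p.map (algebraMap O S)) ^ 2 ≤ (v.asIdeal ^ e) ^ 2 := Ideal.pow_right_mono h1 2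
      _ = v.asIdeal ^ (e * 2) := by rw [← pow_mul]
      _ ≤ v.asIdeal ^ (e + 1) := Ideal.pow_le_pow_right (by omega)
  have hϖS : algebraMap O S ϖ ≠ 0 := fun h => hϖ0 (hOinj (by rw [h, map_zero]))
  have hϖM : algebraMap S M (algebraMap O S ϖ) ≠ 0 := fun h => hϖS (hinj (by rw [h, map_zero]))
  refine ⟨ϖ, hϖ0, hϖ1, le_antisymm ?_ ((natCast_le_vd v e _ hϖM).2 hϖe)⟩
  by_contra h
  push Not at h
  apply hϖe'
  rw [← natCast_le_vd v (e + 1) _ hϖM]
  push_cast
  omega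

end ram

section nf

variable {E M : Type} [Field E] [NumberField E] [Field M] [NumberField M] [Algebra E M]
  [IsGalois E M]

open Pool.Agent.Y223.G in
/-- Tame data at the primes. -/
theorem exists_tameNF (hin : ∀ 𝔓 : Ideal (𝓞 M), 𝔓.IsMaximal → ∀ p : ℕ, p.Prime →
      (p : 𝓞 M) ∈ 𝔓 → ¬ p ∣ Nat.card (inert E 𝔓)) (v : HeightOneSpectrum (𝓞 M)) :
    ∃ (ϖ : 𝓞 E) (e : ℕ), ϖ ≠ 0 ∧ algebraMap (𝓞 E) (𝓞 M) ϖ ∈ v.asIdeal ∧
      vd v (algebraMap (𝓞 M) M (algebraMap (𝓞 E) (𝓞 M) ϖ)) = e ∧ 1 ≤ e ∧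
      ((e : ℕ) : 𝓞 M) ∉ v.asIdeal := by
  classical
  have hmax : v.asIdeal.IsMaximal := v.isMaximal
  have hv : v.asIdeal.IsPrime := v.isPrime
  set p : Ideal (𝓞 E) := v.asIdeal.under (𝓞 E) with hp
  have hp0 : p ≠ ⊥ := by
    obtain ⟨x, hx, hx0⟩ := Submodule.exists_mem_ne_zero_of_ne_bot v.ne_bot
    exact Ideal.comap_ne_bot_of_integral_mem hx0 hx (Algebra.IsIntegral.isIntegral x)
  have hpp : p.IsPrime := Ideal.IsPrime.under (𝓞 E) v.asIdeal
  have hpm : p.IsMaximal := hpp.isMaximal hp0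
  have hlies : v.asIdeal.LiesOver p := ⟨hp⟩
  have hpos : 0 < v.asIdeal.ramificationIdx (𝓞 E) := v.asIdeal.ramificationIdx_pos (𝓞 E)
  obtain ⟨ϖ, h1, h2, h3⟩ := exists_unif (O := 𝓞 E) (M := M) v hp0 hpos.ne'
  refine ⟨ϖ, _, h1, h2, h3, hpos, ?_⟩
  have h4 : Nat.card (v.asIdeal.inertia (M ≃ₐ[E] M)) = v.asIdeal.ramificationIdx (𝓞 E) := by
    rw [Ideal.card_inertia_eq_ramificationIdxIn p v.asIdeal,
      Ideal.ramificationIdxIn_eq_ramificationIdx p v.asIdeal (M ≃ₐ[E] M)]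
  have h5 : v.asIdeal.inertia (M ≃ₐ[E] M) = inert E v.asIdeal := by
    ext g
    rfl
  rw [h5] at h4
  obtain ⟨q, hq, hq𝔓⟩ := exists_resChar v.asIdeal hmax v.ne_bot
  have h6 := hin v.asIdeal hmax q hq hq𝔓
  rw [h4] at h6
  intro h7
  have h8 : IsCoprime ((q : ℕ) : ℤ) ((v.asIdeal.ramificationIdx (𝓞 E) : ℕ) : ℤ) := by
    rw [Nat.isCoprime_iff_coprime]
    exact (Nat.Prime.coprime_iff_not_dvd hq).2 h6
  obtain ⟨a, b, hab⟩ := h8
  apply (Ideal.ne_top_iff_one v.asIdeal).1 hv.ne_top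
  have h9 := congrArg (Int.cast : ℤ → 𝓞 M) hab
  push_cast at h9
  rw [← h9]
  exact v.asIdeal.add_mem (v.asIdeal.mul_mem_left _ hq𝔓) (v.asIdeal.mul_mem_left _ h7)

end nf

end Pool.Agent.H865.TS
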