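import Pool.Agent.H865.TS.Nf

/-!
# Local data at the primes of number fields
-/

set_option autoImplicit false
set_option linter.unusedSectionVars false
set_option linter.unusedVariables false

namespace Pool.Agent.H865.TS

open Module Pool.Agent.K3h75.TO Pool.Agent.H865.TT Pool.Agent.H918R2.Quad
  Polynomial IsDedekindDomain NumberField

section nf

variable {E M : Type} [Field E] [NumberField E] [Field M] [NumberField M] [Algebra E M]

theorem minpoly_der (θ : 𝓞 M) : aeval θ (derivative (minpoly (𝓞 E) θ)) ≠ 0 := by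
  intro h
  have hint : IsIntegral (𝓞 E) θ := Algebra.IsIntegral.isIntegral θ
  have h1 : minpoly E (algebraMap (𝓞 M) M θ) = (minpoly (𝓞 E) θ).map (algebraMap (𝓞 E) E) :=
    minpoly.isIntegrallyClosed_eq_field_fractions E M hint
  have h2 : IsIntegral E (algebraMap (𝓞 M) M θ) := Algebra.IsIntegral.isIntegral _
  have h3 : (minpoly E (algebraMap (𝓞 M) M θ)).Separable := (minpoly.irreducible h2).separable
  have h4 := h3.aeval_derivative_ne_zero (minpoly.aeval E (algebraMap (𝓞 M) M θ))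
  apply h4
  rw [h1, derivative_map, aeval_map_algebraMap, aeval_algebraMap_apply, h, map_zero]

/-- A generator, away from finitely many primes. -/
theorem exists_et : ∃ (θ₀ : 𝓞 M) (d : 𝓞 E), d ≠ 0 ∧
    ∀ s : 𝓞 M, ∃ p : (𝓞 E)[X], algebraMap (𝓞 E) (𝓞 M) d * s = aeval θ₀ p := by
  classical
  obtain ⟨α, hα⟩ := Field.exists_primitive_element E M
  obtain ⟨c, hc0, hc⟩ := IsAlgebraic.exists_integral_multiple (R := 𝓞 E)
    ((IsFractionRing.isAlgebraic_iff (𝓞 E) E M).2 (Algebra.IsAlgebraic.isAlgebraic (R := E) α))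
  have hinjM : Function.Injective (algebraMap (𝓞 M) M) := IsFractionRing.injective (𝓞 M) M
  have hcint : IsIntegral ℤ (c • α) := by
    exact isIntegral_trans _ hc
  obtain ⟨θ₀, hθ₀⟩ : ∃ θ₀ : 𝓞 M, algebraMap (𝓞 M) M θ₀ = c • α := ⟨⟨_, hcint⟩, rfl⟩
  have htop : Algebra.adjoin E {algebraMap (𝓞 M) M θ₀} = ⊤ := by
    have h1 : (IntermediateField.adjoin E {algebraMap (𝓞 M) M θ₀}) = ⊤ := by
      rw [eq_top_iff, ← hα, IntermediateField.adjoin_simple_le_iff]
      have h2 : α = (algebraMap (𝓞 E) E c)⁻¹ • algebraMap (𝓞 M) M θ₀ := by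
        rw [hθ₀, ← algebraMap_smul E c α, smul_smul, inv_mul_cancel₀, one_smul]
        intro h
        exact hc0 (IsFractionRing.injective (𝓞 E) E (by rw [h, map_zero]))
      rw [h2]
      exact IntermediateField.smul_mem _ (IntermediateField.mem_adjoin_simple_self E _)
    have h2 := IntermediateField.adjoin_simple_toSubalgebra_of_isAlgebraic
      (Algebra.IsAlgebraic.isAlgebraic (R := E) (algebraMap (𝓞 M) M θ₀))
    rw [← h2, h1]
    rfl
  have key : ∀ s : 𝓞 M, ∃ (d : 𝓞 E) (p : (𝓞 E)[X]), d ≠ 0 ∧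
      algebraMap (𝓞 E) (𝓞 M) d * s = aeval θ₀ p := by
    intro s
    have h1 : algebraMap (𝓞 M) M s ∈ Algebra.adjoin E {algebraMap (𝓞 M) M θ₀} := by
      rw [htop]
      trivial
    rw [Algebra.adjoin_singleton_eq_range_aeval] at h1
    obtain ⟨P, hP⟩ := h1
    obtain ⟨b, hb0, hb⟩ := IsLocalization.integerNormalization_spec (nonZeroDivisors (𝓞 E)) P
    refine ⟨b, IsLocalization.integerNormalization (nonZeroDivisors (𝓞 E)) P,
      nonZeroDivisors.ne_zero hb0, hinjM ?_⟩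
    have h2 : algebraMap (𝓞 M) M (aeval θ₀
        (IsLocalization.integerNormalization (nonZeroDivisors (𝓞 E)) P)) =
        aeval (algebraMap (𝓞 M) M θ₀)
        ((IsLocalization.integerNormalization (nonZeroDivisors (𝓞 E)) P).map
          (algebraMap (𝓞 E) E)) := by
      rw [aeval_map_algebraMap, aeval_algebraMap_apply]
    rw [h2, hb, map_mul]
    have hP' : aeval (algebraMap (𝓞 M) M θ₀) P = algebraMap (𝓞 M) M s := hP
    rw [← algebraMap_smul E b P, map_smul, hP', Algebra.smul_def,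
      ← IsScalarTower.algebraMap_apply (𝓞 E) E M, ← IsScalarTower.algebraMap_apply (𝓞 E) (𝓞 M) M]
  choose d p hd hp using key
  obtain ⟨Gs, hGs⟩ := (Module.Finite.fg_top : (⊤ : Submodule (𝓞 E) (𝓞 M)).FG)
  refine ⟨θ₀, ∏ s ∈ Gs, d s, Finset.prod_ne_zero_iff.2 fun s _ => hd s, fun s => ?_⟩
  have h1 : s ∈ Submodule.span (𝓞 E) (Gs : Set (𝓞 M)) := by rw [hGs]; trivial
  induction h1 using Submodule.span_induction with
  | mem s hs =>
    refine ⟨C (∏ s' ∈ Gs.erase s, d s') * p s, ?_⟩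
    rw [map_mul, aeval_C, ← hp, ← Finset.mul_prod_erase _ _ (Finset.mem_coe.1 hs), map_mul]
    ring
  | zero => exact ⟨0, by simp⟩
  | add s s' _ _ h h' =>
    obtain ⟨q, hq⟩ := h
    obtain ⟨q', hq'⟩ := h'
    exact ⟨q + q', by rw [mul_add, hq, hq', map_add]⟩
  | smul a s _ h =>
    obtain ⟨q, hq⟩ := h
    refine ⟨C a * q, ?_⟩
    rw [map_mul, aeval_C, ← hq, Algebra.smul_def]
    ring

/-- **Local data at all primes.** -/
theorem exists_PL {θ₀ : 𝓞 M} {d : 𝓞 E} (hd0 : d ≠ 0)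
    (hd : ∀ s : 𝓞 M, ∃ p : (𝓞 E)[X], algebraMap (𝓞 E) (𝓞 M) d * s = aeval θ₀ p)
    (T : Finset (HeightOneSpectrum (𝓞 M)))
    (hT : ∀ v, v ∉ T → algebraMap (𝓞 E) (𝓞 M) d ∉ v.asIdeal ∧
      aeval θ₀ (derivative (minpoly (𝓞 E) θ₀)) ∉ v.asIdeal)
    (e : {v : HeightOneSpectrum (𝓞 M) // v ∈ T} → ℕ)
    (ϖ : {v : HeightOneSpectrum (𝓞 M) // v ∈ T} → 𝓞 E)
    (hϖ0 : ∀ q, ϖ q ≠ 0) (hϖ1 : ∀ q, algebraMap (𝓞 E) (𝓞 M) (ϖ q) ∈ q.1.asIdeal)
    (hϖ2 : ∀ q, vd q.1 (algebraMap (𝓞 M) M (algebraMap (𝓞 E) (𝓞 M) (ϖ q))) = e q)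
    (he1 : ∀ q, 1 ≤ e q) (he2 : ∀ q, ((e q : ℕ) : 𝓞 M) ∉ q.1.asIdeal) (𝔓 : Ideal (𝓞 M))
    (h𝔓 : 𝔓.IsPrime) : ∃ π, PL M 𝔓 T e ϖ π := by
  classical
  have hOinj : Function.Injective (algebraMap (𝓞 E) (𝓞 M)) :=
    FaithfulSMul.algebraMap_injective _ _
  have het : algebraMap (𝓞 E) (𝓞 M) d ∉ 𝔓 → aeval θ₀ (derivative (minpoly (𝓞 E) θ₀)) ∉ 𝔓 →
      (∃ θ : 𝓞 M, LGen (𝓞 E) 𝔓 θ ∧ aeval θ (derivative (minpoly (𝓞 E) θ)) ∉ 𝔓) := by
    intro h1 h2
    refine ⟨θ₀, ⟨C d, by rwa [aeval_C], fun s => ?_⟩, h2⟩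
    obtain ⟨p, hp⟩ := hd s
    exact ⟨p, by rw [aeval_C]; exact hp⟩
  by_cases h0 : 𝔓 = ⊥
  · subst h0
    obtain ⟨θ, h1, h2⟩ := het (by
      rw [Ideal.mem_bot]
      exact fun h => hd0 (hOinj (by rw [h, map_zero]))) (by
      rw [Ideal.mem_bot]
      exact minpoly_der θ₀)
    refine ⟨fun _ => 1, fun q => one_ne_zero, fun q v hv => absurd hv v.ne_bot, ?_⟩
    exact Or.inl ⟨θ, h1, h2, fun _ => rfl⟩
  · let v : HeightOneSpectrum (𝓞 M) := ⟨𝔓, h𝔓, h0⟩
    by_cases hv : v ∈ T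
    · have hmax : 𝔓.IsMaximal := h𝔓.isMaximal h0
      have hfin : Finite (𝓞 M ⧸ 𝔓) := inferInstance
      let q₀ : {v : HeightOneSpectrum (𝓞 M) // v ∈ T} := ⟨v, hv⟩
      have hϖS : algebraMap (𝓞 E) (𝓞 M) (ϖ q₀) ≠ 0 := fun h =>
        hϖ0 q₀ (hOinj (by rw [h, map_zero]))
      obtain ⟨θ, q, r, hq1, hq2, hq3, hr, hr'⟩ := exists_gen (O := 𝓞 E) 𝔓 h0 (ϖ q₀) (hϖ1 q₀) hϖS
      obtain ⟨r₁, r₂, k, h1, h2, h3, h4⟩ := exists_tame (M := M) v hq1 hq2 hq3 hr hr' (ϖ q₀)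
        (e q₀) hϖS (hϖ2 q₀) (he1 q₀) (he2 q₀)
      have hq0 : aeval θ q ≠ 0 := fun h => hq2 (by rw [h]; exact Ideal.zero_mem _)
      have hqM : algebraMap (𝓞 M) M (aeval θ q) ≠ 0 := fun h =>
        hq0 (IsFractionRing.injective (𝓞 M) M (by rw [h, map_zero]))
      refine ⟨fun q' => if q' = q₀ then aeval θ q else 1, ?_, ?_, ?_⟩
      · intro q'
        split_ifs
        · exact hq0
        · exact one_ne_zero
      · intro q' v' hv'
        have hvv : v' = v := HeightOneSpectrum.ext hv'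
        subst hvv
        constructor
        · intro h
          have h5 : q' = q₀ := Subtype.ext h
          rw [if_pos h5]
          apply le_antisymm
          · by_contra h6
            push Not at h6
            have h7 : ((2 : ℕ) : ℤ) ≤ vd v (algebraMap (𝓞 M) M (aeval θ q)) := by
              push_cast; omega
            exact hq2 ((natCast_le_vd v 2 _ hqM).1 h7)
          · exact (vd_pos_iff v _ hqM).2 hq1
        · intro h
          have h5 : q' ≠ q₀ := fun h5 => h (by rw [h5])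
          rw [if_neg h5, map_one, vd_one]
      · refine Or.inr ⟨θ, q, r₁, r₂, k, q₀, ?_, if_pos rfl, fun q' hq' => if_neg hq'⟩
        exact
          { der0 := minpoly_der θ
            gen := ⟨r, hr, hr'⟩
            q1 := hq1
            q0 := hq0
            q' := hq3
            hr₁ := h1
            hr₂ := h2
            rel := h3
            k0 := h4
            he := he2 q₀ }
    · obtain ⟨θ, h1, h2⟩ := het (hT v hv).1 (hT v hv).2
      refine ⟨fun _ => 1, fun q => one_ne_zero, fun q v' hv' => ⟨fun h => ?_, fun _ => ?_⟩, ?_⟩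
      · exfalso
        apply hv
        have h3 : v' = v := HeightOneSpectrum.ext hv'
        rw [← h3, ← h]
        exact q.2
      · rw [map_one, vd_one]
      · exact Or.inl ⟨θ, h1, h2, fun _ => rfl⟩

end nf

end Pool.Agent.H865.TS
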