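import Mathlib

/-!
# Local generators of integral extensions
-/

set_option autoImplicit false
set_option linter.unusedSectionVars false
set_option linter.unusedVariables false

namespace Pool.Agent.H865.TS

open Polynomial

section pr

variable {O S : Type} [CommRing O] [CommRing S] [Algebra O S]

/-- the value of a polynomial modulo an ideal -/
theorem aeval_sub_mem {I : Ideal S} {a b : S} (h : a - b ∈ I) (p : O[X]) :
    aeval a p - aeval b p ∈ I := by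
  obtain ⟨z, hz⟩ := (p.map (algebraMap O S)).sub_dvd_eval_sub a b
  rw [eval_map_algebraMap, eval_map_algebraMap] at hz
  rw [hz]
  exact I.mul_mem_right _ h

theorem mem_pow_of_mul {𝔓 : Ideal S} [h𝔓 : 𝔓.IsMaximal] {a b : S} {n : ℕ} (h : a * b ∈ 𝔓 ^ n)
    (hb : b ∉ 𝔓) : a ∈ 𝔓 ^ n := by
  obtain ⟨y, i, hi, hyi⟩ := h𝔓.exists_inv hb
  have h2 : IsCoprime 𝔓 (Ideal.span {b}) :=
    Ideal.isCoprime_iff_exists.2 ⟨i, hi, y * b, Ideal.mem_span_singleton'.2 ⟨y, rfl⟩, by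
      rw [add_comm]; exact hyi⟩
  have h3 : IsCoprime (𝔓 ^ n) (Ideal.span {b}) := h2.pow_left
  obtain ⟨x, hx, y, hy, hxy⟩ := Ideal.isCoprime_iff_exists.1 h3
  obtain ⟨c, rfl⟩ := Ideal.mem_span_singleton'.1 hy
  have h4 : a = x * a + c * (a * b) := by linear_combination (-a) * hxy
  rw [h4]
  exact (𝔓 ^ n).add_mem ((𝔓 ^ n).mul_mem_right _ hx) ((𝔓 ^ n).mul_mem_left _ h)

/-- Local generators: the extension is generated by `θ` at the prime `𝔓`, and `q (θ)` is a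
uniformizer. -/
theorem exists_gen [IsDedekindDomain S] [Module.Finite O S] (𝔓 : Ideal S) [h𝔓 : 𝔓.IsMaximal]
    (h0 : 𝔓 ≠ ⊥) [Finite (S ⧸ 𝔓)] (ϖ : O) (hϖ : algebraMap O S ϖ ∈ 𝔓)
    (hϖ0 : algebraMap O S ϖ ≠ 0) :
    ∃ (θ : S) (q r : O[X]), aeval θ q ∈ 𝔓 ∧ aeval θ q ∉ 𝔓 ^ 2 ∧ aeval θ (derivative q) ∉ 𝔓 ∧
      aeval θ r ∉ 𝔓 ∧ ∀ s : S, ∃ p : O[X], aeval θ r * s = aeval θ p := by
  classical
  let k := S ⧸ 𝔓
  let _ : Field k := Ideal.Quotient.field 𝔓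
  have : Fintype k := Fintype.ofFinite k
  let mk := Ideal.Quotient.mk 𝔓
  have hmk : ∀ s, mk s = 0 ↔ s ∈ 𝔓 := fun s => Ideal.Quotient.eq_zero_iff_mem
  -- the generator of the multiplicative group
  obtain ⟨ζ, hζ⟩ := IsCyclic.exists_generator (α := kˣ)
  obtain ⟨α₀, hα₀⟩ := Ideal.Quotient.mk_surjective (ζ : k)
  have hα₀' : mk α₀ = (ζ : k) := hα₀
  have hα₀P : α₀ ∉ 𝔓 := by
    intro h
    rw [← hmk, hα₀'] at h
    exact ζ.ne_zero h
  set n := Fintype.card k - 1 with hn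
  have hcard : 1 < Fintype.card k := Fintype.one_lt_card
  have hn1 : 1 ≤ n := by omega
  let q : O[X] := X ^ n - 1
  have hqe : ∀ s : S, aeval s q = s ^ n - 1 := fun s => by simp [q]
  have hqd : ∀ s : S, aeval s (derivative q) = (n : S) * s ^ (n - 1) := fun s => by
    simp [q, derivative_X_pow]
  have hnk : (n : k) = -1 := by
    have h1 : ((Fintype.card k : ℕ) : k) = 0 := Nat.cast_card_eq_zero k
    have h2 : Fintype.card k = n + 1 := by omega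
    rw [h2, Nat.cast_add, Nat.cast_one] at h1
    exact eq_neg_of_add_eq_zero_left h1
  have hqd' : ∀ s : S, s ∉ 𝔓 → aeval s (derivative q) ∉ 𝔓 := by
    intro s hs h
    rw [hqd, ← hmk, map_mul, map_pow, map_natCast, hnk, neg_one_mul, neg_eq_zero] at h
    exact hs ((hmk s).1 (eq_zero_of_pow_eq_zero h))
  have hq0 : ∀ s : S, s ∉ 𝔓 → aeval s q ∈ 𝔓 := by
    intro s hs
    rw [hqe, ← hmk, map_sub, map_pow, map_one, sub_eq_zero]
    exact FiniteField.pow_card_sub_one_eq_one _ fun h => hs ((hmk s).1 h)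
  -- the element ω
  obtain ⟨ω, hω1, hω2⟩ : ∃ ω ∈ 𝔓, ω ∉ 𝔓 ^ 2 := by
    have h1 : 𝔓 ^ 2 < 𝔓 := by
      have h2 := Ideal.pow_right_strictAnti 𝔓 h0 h𝔓.ne_top (show 1 < 2 by norm_num)
      simpa using h2
    exact SetLike.exists_of_lt h1
  obtain ⟨α, hα, hαP, hαq⟩ : ∃ α : S, mk α = (ζ : k) ∧ α ∉ 𝔓 ∧ aeval α q ∉ 𝔓 ^ 2 := by
    by_cases hq2 : aeval α₀ q ∈ 𝔓 ^ 2
    · have h1 : α₀ + ω ∉ 𝔓 := fun h => hα₀P (by
        have := 𝔓.sub_mem h hω1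
        rwa [add_sub_cancel_right] at this)
      refine ⟨α₀ + ω, ?_, h1, ?_⟩
      · rw [map_add, (hmk ω).2 hω1, add_zero, hα₀']
      · intro h
        obtain ⟨c, hc⟩ := (q.map (algebraMap O S)).binomExpansion α₀ ω
        rw [derivative_map, eval_map_algebraMap, eval_map_algebraMap, eval_map_algebraMap] at hc
        have h2 : ω * aeval α₀ (derivative q) ∈ 𝔓 ^ 2 := by
          have h3 : ω * aeval α₀ (derivative q) = aeval (α₀ + ω) q - aeval α₀ q - c * ω ^ 2 := by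
            rw [hc]; ring
          rw [h3]
          exact (𝔓 ^ 2).sub_mem ((𝔓 ^ 2).sub_mem h hq2)
            ((𝔓 ^ 2).mul_mem_left _ (Ideal.pow_mem_pow hω1 2))
        exact hω2 (mem_pow_of_mul h2 (hqd' _ hα₀P))
    · exact ⟨α₀, hα₀', hα₀P, hq2⟩
  -- the idempotent-like element
  obtain ⟨j, hj1, hj2⟩ : ∃ j : S, j - 1 ∈ 𝔓 ^ 2 ∧ ∀ 𝔪 : Ideal S, 𝔪.IsMaximal →
      algebraMap O S ϖ ∈ 𝔪 → 𝔪 ≠ 𝔓 → j ∈ 𝔪 := by
    have hne : Ideal.span {algebraMap O S ϖ} ≠ ⊥ := by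
      rwa [Ne, Ideal.span_singleton_eq_bot]
    obtain ⟨𝔠, h𝔠1, h𝔠2⟩ : ∃ (𝔠 : Ideal S), (∃ e, Ideal.span {algebraMap O S ϖ} = 𝔓 ^ e * 𝔠) ∧
        ¬ 𝔓 ∣ 𝔠 := by
      have hP : Prime 𝔓 := (Ideal.prime_iff_isPrime h0).2 h𝔓.isPrime
      obtain ⟨e, 𝔠, h1, h2⟩ := WfDvdMonoid.max_power_factor hne hP.irreducible
      exact ⟨𝔠, ⟨e, h2⟩, h1⟩
    obtain ⟨e, h𝔠1⟩ := h𝔠1
    have h1 : 𝔓 ⊔ 𝔠 = ⊤ := by
      by_contra hne'
      have h2 : 𝔓 = 𝔓 ⊔ 𝔠 := h𝔓.eq_of_le hne' le_sup_left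
      exact h𝔠2 (Ideal.dvd_iff_le.2 (by rw [h2]; exact le_sup_right))
    have h2 : IsCoprime (𝔓 ^ 2) 𝔠 := (Ideal.isCoprime_iff_sup_eq.2 h1).pow_left
    obtain ⟨x, hx, y, hy, hxy⟩ := Ideal.isCoprime_iff_exists.1 h2
    refine ⟨y, ?_, ?_⟩
    · have : y - 1 = -x := by linear_combination hxy
      rw [this]
      exact (𝔓 ^ 2).neg_mem hx
    · intro 𝔪 h𝔪 hϖ𝔪 hne'
      have h3 : 𝔓 ^ e * 𝔠 ≤ 𝔪 := by
        rw [← h𝔠1, Ideal.span_singleton_le_iff_mem]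
        exact hϖ𝔪
      rcases (h𝔪.isPrime.mul_le).1 h3 with h4 | h4
      · exact absurd (h𝔓.eq_of_le h𝔪.ne_top (h𝔪.isPrime.le_of_pow_le h4)).symm hne'
      · exact h4 hy
  -- the generator
  obtain ⟨θ, hθ⟩ : ∃ θ, θ = j * α := ⟨_, rfl⟩
  have hθα : θ - α ∈ 𝔓 ^ 2 := by
    have : θ - α = (j - 1) * α := by rw [hθ]; ring
    rw [this]
    exact (𝔓 ^ 2).mul_mem_right _ hj1
  have hsq : 𝔓 ^ 2 ≤ 𝔓 := Ideal.pow_le_self two_ne_zero
  have hθk : mk θ = (ζ : k) := by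
    rw [← hα, ← sub_eq_zero, ← map_sub, hmk]
    exact hsq hθα
  have hθP : θ ∉ 𝔓 := by
    intro h
    rw [← hmk, hθk] at h
    exact ζ.ne_zero h
  have hθq : aeval θ q ∉ 𝔓 ^ 2 := by
    intro h
    apply hαq
    have h1 := (𝔓 ^ 2).sub_mem h (aeval_sub_mem hθα q)
    rwa [sub_sub_cancel] at h1
  -- the subring
  let A : Subalgebra O S := Algebra.adjoin O {θ}
  have hA : ∀ a : S, a ∈ A ↔ ∃ p : O[X], aeval θ p = a := by
    intro a
    show a ∈ Algebra.adjoin O {θ} ↔ _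
    rw [Algebra.adjoin_singleton_eq_range_aeval]
    rfl
  let 𝔫 : Ideal A := 𝔓.comap (algebraMap A S)
  have h𝔫 : ∀ a : A, a ∈ 𝔫 ↔ (a : S) ∈ 𝔓 := fun a => Iff.rfl
  have hmem𝔫 : ∀ p : O[X], aeval θ p ∈ 𝔓 → aeval θ p ∈ 𝔫.map (algebraMap A S) := by
    intro p hp
    exact Ideal.mem_map_of_mem (algebraMap A S)
      (show (⟨aeval θ p, (hA _).2 ⟨p, rfl⟩⟩ : A) ∈ 𝔫 from hp)
  have h𝔞 : 𝔓 ≤ 𝔫.map (algebraMap A S) := by
    have hle : 𝔫.map (algebraMap A S) ≤ 𝔓 := Ideal.map_comap_le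
    obtain ⟨𝔟, h𝔟⟩ := Ideal.dvd_iff_le.2 hle
    have hbt : 𝔟 = ⊤ := by
      by_contra hne
      obtain ⟨𝔪, h𝔪, hle'⟩ := Ideal.exists_le_maximal 𝔟 hne
      by_cases hmP : 𝔪 = 𝔓
      · apply hθq
        have h1 : aeval θ q ∈ 𝔓 * 𝔟 := by
          rw [← h𝔟]
          exact hmem𝔫 q (hq0 θ hθP)
        rw [pow_two]
        exact Ideal.mul_mono_right (hle'.trans hmP.le) h1
      · have h1 : 𝔓 * 𝔟 ≤ 𝔪 := Ideal.mul_le_right.trans hle'
        rw [← h𝔟] at h1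
        have h2 : algebraMap O S ϖ ∈ 𝔪 := by
          apply h1
          have := hmem𝔫 (C ϖ) (by rw [aeval_C]; exact hϖ)
          rwa [aeval_C] at this
        have h3 : θ ∈ 𝔪 := by
          rw [hθ]
          exact 𝔪.mul_mem_right _ (hj2 𝔪 h𝔪 h2 hmP)
        have h4 : aeval θ q ∈ 𝔪 := h1 (hmem𝔫 q (hq0 θ hθP))
        rw [hqe] at h4
        apply (Ideal.ne_top_iff_one 𝔪).1 h𝔪.ne_top
        have h5 := 𝔪.sub_mem (Ideal.pow_mem_of_mem 𝔪 h3 n (by omega)) h4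
        rwa [sub_sub_cancel] at h5
    rw [h𝔟, hbt, Ideal.mul_top]
  have hAS : ∀ s : S, ∃ a : A, s - a ∈ 𝔓 := by
    intro s
    by_cases hs : s ∈ 𝔓
    · exact ⟨0, by simpa using hs⟩
    · have h1 : mk s ≠ 0 := fun h => hs ((hmk s).1 h)
      have h2 := hζ (Units.mk0 (mk s) h1)
      rw [← mem_powers_iff_mem_zpowers] at h2
      obtain ⟨m, hm⟩ := h2
      refine ⟨⟨θ ^ m, (hA _).2 ⟨X ^ m, by simp⟩⟩, ?_⟩
      show s - θ ^ m ∈ 𝔓
      rw [← hmk, map_sub, map_pow, hθk, sub_eq_zero]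
      have h3 := congrArg Units.val hm
      simpa using h3.symm
  -- Nakayama
  have : Module.Finite A S := Module.Finite.of_restrictScalars_finite O A S
  let B : Submodule A S := LinearMap.range (Algebra.linearMap A S)
  have hB : ∀ s : S, s ∈ B ↔ s ∈ A := by
    intro s
    constructor
    · rintro ⟨a, rfl⟩
      exact a.2
    · intro h
      exact ⟨⟨s, h⟩, rfl⟩
  obtain ⟨r, hr1, hr2⟩ := Submodule.exists_sub_one_mem_and_smul_eq_zero_of_fg_of_le_smul 𝔫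
    (⊤ : Submodule A (S ⧸ B)) (Module.Finite.fg_top) (by
      rintro x -
      obtain ⟨s, rfl⟩ := Submodule.Quotient.mk_surjective B x
      obtain ⟨a, ha⟩ := hAS s
      have h1 : s - a ∈ 𝔫 • (⊤ : Submodule A S) := by
        rw [Ideal.smul_top_eq_map]
        exact h𝔞 ha
      have h2 : B.mkQ (s - a) ∈ 𝔫 • (⊤ : Submodule A (S ⧸ B)) := by
        have h3 : B.mkQ (s - a) ∈ (𝔫 • (⊤ : Submodule A S)).map B.mkQ := ⟨_, h1, rfl⟩
        rw [Submodule.map_smul''] at h3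
        exact Submodule.smul_mono le_rfl le_top h3
      have h3 : B.mkQ (s - a) = Submodule.Quotient.mk s := by
        rw [map_sub]
        have h4 : B.mkQ (a : S) = 0 := by
          rw [Submodule.mkQ_apply, Submodule.Quotient.mk_eq_zero, hB]
          exact a.2
        rw [h4, sub_zero]
        rfl
      rw [h3] at h2
      exact h2)
  obtain ⟨r₀, hr₀⟩ := (hA _).1 r.2
  refine ⟨θ, q, r₀, hq0 θ hθP, hθq, hqd' θ hθP, ?_, ?_⟩
  · rw [hr₀]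
    intro h
    apply (Ideal.ne_top_iff_one 𝔓).1 h𝔓.ne_top
    have h1 : (r : S) - 1 ∈ 𝔓 := hr1
    have h2 := 𝔓.sub_mem h h1
    rwa [sub_sub_cancel] at h2
  · intro s
    have h1 := hr2 (Submodule.Quotient.mk s) trivial
    rw [← Submodule.Quotient.mk_smul, Submodule.Quotient.mk_eq_zero, hB] at h1
    obtain ⟨p, hp⟩ := (hA _).1 h1
    refine ⟨p, ?_⟩
    rw [hr₀, hp]
    rfl

end pr

end Pool.Agent.H865.TS
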