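import Pool.Agent.H865.TS.Pr
import Pool.Agent.H865.TT.Val2

/-!
# Tame relations
-/

set_option autoImplicit false
set_option linter.unusedSectionVars false
set_option linter.unusedVariables false

namespace Pool.Agent.H865.TS

open Polynomial IsDedekindDomain Pool.Agent.H865.TT

section pr

variable {O S M : Type} [CommRing O] [IsDomain O] [IsIntegrallyClosed O] [CommRing S]
  [IsDedekindDomain S] [Algebra O S] [Module.Finite O S] [Module.IsTorsionFree O S] [Field M]
  [Algebra S M] [IsFractionRing S M]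

theorem exists_tame (v : HeightOneSpectrum S) {θ : S} {q r : O[X]}
    (hq1 : aeval θ q ∈ v.asIdeal) (hq2 : aeval θ q ∉ v.asIdeal ^ 2)
    (hq3 : aeval θ (derivative q) ∉ v.asIdeal) (hr : aeval θ r ∉ v.asIdeal)
    (hr' : ∀ s : S, ∃ p : O[X], aeval θ r * s = aeval θ p) (ϖ : O) (e : ℕ)
    (hϖ0 : algebraMap O S ϖ ≠ 0)
    (he : vd v (algebraMap S M (algebraMap O S ϖ)) = e) (he1 : 1 ≤ e) (heP : (e : S) ∉ v.asIdeal) :
    ∃ r₁ r₂ k : O[X], aeval θ r₁ ∉ v.asIdeal ∧ aeval θ r₂ ∉ v.asIdeal ∧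
      r₁ * q ^ e - C ϖ * r₂ = minpoly O θ * k ∧ aeval θ k ≠ 0 := by
  classical
  have hP : v.asIdeal.IsPrime := v.isPrime
  have hPm : v.asIdeal.IsMaximal := v.isMaximal
  have hinj : Function.Injective (algebraMap S M) := IsFractionRing.injective S M
  have hq0 : aeval θ q ≠ 0 := fun h => hq2 (by rw [h]; exact Ideal.zero_mem _)
  have hqM : algebraMap S M (aeval θ q) ≠ 0 := fun h => hq0 (hinj (by rw [h, map_zero]))
  have hϖM : algebraMap S M (algebraMap O S ϖ) ≠ 0 := fun h => hϖ0 (hinj (by rw [h, map_zero]))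
  have hvq : vd v (algebraMap S M (aeval θ q)) = 1 := by
    apply le_antisymm
    · by_contra h
      push Not at h
      have h1 : ((2 : ℕ) : ℤ) ≤ vd v (algebraMap S M (aeval θ q)) := by push_cast; omega
      exact hq2 ((natCast_le_vd v 2 _ hqM).1 h1)
    · exact (vd_pos_iff v _ hqM).2 hq1
  -- the unit
  obtain ⟨c, hc⟩ : ∃ c : M, c = algebraMap S M (aeval θ q) ^ e *
      (algebraMap S M (algebraMap O S ϖ))⁻¹ := ⟨_, rfl⟩
  have hc0 : c ≠ 0 := by
    rw [hc]
    exact mul_ne_zero (pow_ne_zero _ hqM) (inv_ne_zero hϖM)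
  have hvc : vd v c = 0 := by
    rw [hc, vd_mul v (pow_ne_zero _ hqM) (inv_ne_zero hϖM), vd_inv, vd_pow, hvq, he]
    ring
  obtain ⟨y, hy, a, ha⟩ := exists_denom v.asIdeal c fun v' hv' => by
    rw [HeightOneSpectrum.ext hv', hvc]
  have hy0 : y ≠ 0 := fun h => hy (by rw [h]; exact Ideal.zero_mem _)
  have hyM : algebraMap S M y ≠ 0 := fun h => hy0 (hinj (by rw [h, map_zero]))
  have haM : algebraMap S M a ≠ 0 := by
    rw [← ha]
    exact mul_ne_zero hyM hc0
  have haP : a ∉ v.asIdeal := by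
    rw [← vd_pos_iff v a haM, ← ha, vd_mul v hyM hc0, hvc, add_zero, vd_pos_iff v y hyM]
    exact hy
  have hrel : y * aeval θ q ^ e = algebraMap O S ϖ * a := by
    apply hinj
    rw [map_mul, map_mul, map_pow, ← ha, hc]
    field_simp
  obtain ⟨r₁, hr₁⟩ := hr' y
  obtain ⟨r₂, hr₂⟩ := hr' a
  have h0 : aeval θ (r₁ * q ^ e - C ϖ * r₂) = 0 := by
    rw [map_sub, map_mul, map_mul, map_pow, aeval_C, ← hr₁, ← hr₂]
    linear_combination (aeval θ r) * hrel
  have hint : IsIntegral O θ := Algebra.IsIntegral.isIntegral θ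
  obtain ⟨k, hk⟩ := minpoly.isIntegrallyClosed_dvd hint h0
  have hr₁P : aeval θ r₁ ∉ v.asIdeal := by
    rw [← hr₁]
    exact fun h => (hP.mem_or_mem h).elim hr hy
  refine ⟨r₁, r₂, k, hr₁P, ?_, hk, ?_⟩
  · rw [← hr₂]
    exact fun h => (hP.mem_or_mem h).elim hr haP
  · intro hk0
    have h1 := congrArg (fun p => aeval θ (derivative p)) hk
    simp only [derivative_sub, derivative_mul, derivative_pow, derivative_C, zero_mul, zero_add,
      map_sub, map_add, map_mul, map_pow, minpoly.aeval, hk0, mul_zero, add_zero, aeval_C,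
      map_natCast] at h1
    have hϖP : algebraMap O S ϖ ∈ v.asIdeal ^ e := (natCast_le_vd v e _ hϖM).1 he.ge
    have hqP : aeval θ q ^ e ∈ v.asIdeal ^ e := Ideal.pow_mem_pow hq1 e
    have h2 : aeval θ q ^ (e - 1) * ((e : S) * (aeval θ r₁ * aeval θ (derivative q))) ∈
        v.asIdeal ^ e := by
      have h3 : aeval θ q ^ (e - 1) * ((e : S) * (aeval θ r₁ * aeval θ (derivative q))) =
          algebraMap O S ϖ * aeval θ (derivative r₂) -
            aeval θ (derivative r₁) * aeval θ q ^ e := by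
        linear_combination h1
      rw [h3]
      exact Ideal.sub_mem _ (Ideal.mul_mem_right _ _ hϖP) (Ideal.mul_mem_left _ _ hqP)
    have h3 : aeval θ q ^ (e - 1) ∈ v.asIdeal ^ e := by
      refine mem_pow_of_mul h2 fun h => ?_
      rcases hP.mem_or_mem h with h | h
      · exact heP h
      · exact (hP.mem_or_mem h).elim hr₁P hq3
    have h4 : algebraMap S M (aeval θ q ^ (e - 1)) ≠ 0 := by
      rw [map_pow]
      exact pow_ne_zero _ hqM
    have h5 := (natCast_le_vd v e _ h4).2 h3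
    rw [map_pow, vd_pow, hvq] at h5
    omega

end pr

end Pool.Agent.H865.TS
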