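import Pool.Agent.H865.TS.Lo2

/-!
# The first stage: tame base change of a regular local ring with normal crossings boundary
-/

set_option autoImplicit false
set_option linter.unusedSectionVars false
set_option linter.unusedVariables false

namespace Pool.Agent.H865.TS

open Module Pool.Agent.K3h75.TO Pool.Agent.H865.TT Pool.Agent.H918R2.Quad
  Pool.Agent.W418.LU2 IsLocalRing

/-- the first lattice -/
abbrev Lat0 (I T : Type) : Type := (I → ℤ) × (T → ℤ)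

section lat

variable {I T : Type} [Fintype I] [Fintype T] [DecidableEq I] [DecidableEq T]

/-- the symbols of the components -/
def X0 (T : Type) (i : I) : Lat0 I T := (Pi.single i 1, 0)

/-- the symbols of the primes -/
def E0 (I : Type) (q : T) : Lat0 I T := (0, Pi.single q 1)

theorem gen0 : AddSubgroup.closure (Set.range (X0 (I := I) T) ∪ Set.range (E0 (T := T) I)) = ⊤ := by
  rw [AddSubgroup.eq_top_iff']
  rintro ⟨a, e⟩
  set C := AddSubgroup.closure (Set.range (X0 (I := I) T) ∪ Set.range (E0 (T := T) I)) with hC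
  have h1 : ∀ i : I, X0 T i ∈ C := fun i => AddSubgroup.subset_closure (Or.inl ⟨i, rfl⟩)
  have h2 : ∀ q, E0 I q ∈ C := fun q => AddSubgroup.subset_closure (Or.inr ⟨q, rfl⟩)
  have h3 : ((a, e) : Lat0 I T) = ∑ i, a i • X0 T i + ∑ q, e q • E0 I q := by
    ext i
    · simp [X0, E0, Finset.sum_apply, Pi.single_apply, Prod.fst_sum]
    · simp [X0, E0, Finset.sum_apply, Pi.single_apply, Prod.snd_sum]
  rw [h3]
  exact C.add_mem (C.sum_mem fun i _ => C.zsmul_mem (h1 i) _)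
    (C.sum_mem fun q _ => C.zsmul_mem (h2 q) _)

/-- coordinates -/
def crd (T : Type) (i : I) : Lat0 I T →+ ℤ :=
  { toFun := fun x => x.1 i, map_zero' := rfl, map_add' := fun _ _ => rfl }

/-- coordinates -/
def crdE (I : Type) (q : T) : Lat0 I T →+ ℤ :=
  { toFun := fun x => x.2 q, map_zero' := rfl, map_add' := fun _ _ => rfl }

theorem chr_nat {R B : Type} [CommRing R] [CommRing B] {y : Lat0 I T → B} (hy : IsChar y)
    (f : R →+* B) {x : I → R} (hx : ∀ i, y (X0 T i) = f (x i)) (n : I → ℕ) :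
    y (fun i => (n i : ℤ), 0) = f (∏ i, x i ^ n i) := by
  have h1 : ((fun i => (n i : ℤ), 0) : Lat0 I T) = ∑ i, n i • X0 T i := by
    ext i
    · simp [X0, Finset.sum_apply, Pi.single_apply, Prod.fst_sum]
    · simp [X0, Prod.snd_sum]
  rw [h1, hy.sum, map_prod]
  refine Finset.prod_congr rfl fun i _ => ?_
  rw [hy.nsmul, hx, map_pow]

theorem chr_int {R B : Type} [CommRing R] [CommRing B] {y : Lat0 I T → B} (hy : IsChar y)
    (f : R →+* B) {x : I → R} (hx : ∀ i, y (X0 T i) = f (x i)) (γ : I → ℤ) (ϖ w : R)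
    (h : ϖ * ∏ i, x i ^ (-(γ i)).toNat = w * ∏ i, x i ^ (γ i).toNat) :
    f ϖ = f w * y (γ, 0) := by
  have h1 := chr_nat hy f hx fun i => (-(γ i)).toNat
  have h2 := chr_nat hy f hx fun i => (γ i).toNat
  have h3 := congrArg f h
  rw [map_mul, map_mul, ← h1, ← h2] at h3
  have h4 : ((fun i => ((γ i).toNat : ℤ), 0) : Lat0 I T) =
      (γ, 0) + (fun i => ((-(γ i)).toNat : ℤ), 0) := by
    ext i
    · show ((γ i).toNat : ℤ) = γ i + ((-(γ i)).toNat : ℤ)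
      omega
    · show (0 : ℤ) = 0 + 0
      rfl
  rw [h4, hy.add, ← mul_assoc] at h3
  exact (hy.isUnit _).mul_right_cancel h3

end lat

section sta

variable {R₀ O F I T : Type} [CommRing R₀] [IsRegularLocalRing R₀] [CommRing O] [Algebra O R₀]
  [Field F] [Fintype I] [Fintype T] [DecidableEq I] [DecidableEq T]

/-- The local data for the first stage. -/
structure SD (𝒪 : Subring F) (ι₀ : R₀ →+* F) (x : I → R₀) (θ : F) (Y : Lat0 I T → F)
    (H : Polynomial O) : Prop where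
  hloc : IsLoc 𝒪
  mem : ∀ r, ι₀ r ∈ 𝒪
  U : ∀ r, U 𝒪 (ι₀ r) → IsUnit r
  ind : IndN x
  θm : θ ∈ 𝒪
  ch : IsChar Y
  YX : ∀ i, Y (X0 T i) = ι₀ (x i)
  H0 : Polynomial.eval₂ ι₀ θ (H.map (algebraMap O R₀)) = 0
  ker : ∀ p : Polynomial R₀, Polynomial.eval₂ ι₀ θ p = 0 → H.map (algebraMap O R₀) ∣ p

variable {𝒪 : Subring F} {ι₀ : R₀ →+* F} {x : I → R₀} {θ : F} {Y : Lat0 I T → F}
  {H : Polynomial O}

theorem SD.e_mem (D : SD 𝒪 ι₀ x θ Y H) (p : Polynomial R₀) :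
    Polynomial.eval₂RingHom ι₀ θ p ∈ 𝒪 := by
  rw [Polynomial.coe_eval₂RingHom, Polynomial.eval₂_eq_sum_range]
  exact 𝒪.sum_mem fun i _ => 𝒪.mul_mem (D.mem _) (𝒪.pow_mem D.θm _)

theorem SD.rq (D : SD 𝒪 ι₀ x θ Y H) (g : Polynomial R₀)
    (hg : ¬ Pool.Agent.H918R2.Quad.U 𝒪 (Polynomial.eval₂ ι₀ θ g))
    (hg' : Pool.Agent.H918R2.Quad.U 𝒪 (Polynomial.eval₂ ι₀ θ (Polynomial.derivative g))) :
    RQ (primeOf D.hloc (Polynomial.eval₂RingHom ι₀ θ) D.e_mem)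
      (Sum.elim (fun i => Polynomial.C (x i)) (fun _ : Unit => g)) := by
  have hmem : ∀ w, w ∈ primeOf D.hloc (Polynomial.eval₂RingHom ι₀ θ) D.e_mem ↔
      ¬ Pool.Agent.H918R2.Quad.U 𝒪 (Polynomial.eval₂ ι₀ θ w) := fun w => mem_primeOf _ _ _ w
  refine (rq_max D.ind).polyX _ ?_ g ((hmem _).2 hg) fun h => (hmem _).1 h hg'
  ext r
  rw [Ideal.mem_comap, hmem, Polynomial.eval₂_C, mem_maximalIdeal, mem_nonunits_iff, not_iff_not]
  constructor
  · exact D.U r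
  · intro h
    obtain ⟨s, hs⟩ := h.exists_right_inv
    have h1 : ι₀ r * ι₀ s = 1 := by rw [← map_mul, hs, map_one]
    refine ⟨left_ne_zero_of_mul_eq_one h1, D.mem r, ?_⟩
    rw [← eq_inv_of_mul_eq_one_right h1]
    exact D.mem s

/-- **First stage, unramified case.** -/
theorem SD.etale (D : SD 𝒪 ι₀ x θ Y H)
    (hH' : Pool.Agent.H918R2.Quad.U 𝒪 (Polynomial.eval₂ ι₀ θ (Polynomial.derivative (H.map (algebraMap O R₀)))))
    (g : T → Polynomial R₀) (hYE : ∀ q, Y (E0 I q) = Polynomial.eval₂ ι₀ θ (g q))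
    (hgU : ∀ q, Pool.Agent.H918R2.Quad.U 𝒪 (Polynomial.eval₂ ι₀ θ (g q)))
    {N : ℕ} (b : Basis (Fin N) ℤ (Lat0 I T)) (hb : ∀ l, Y (b l) ∈ 𝒪)
    (hcX : ∀ i, (∀ l, 0 ≤ b.repr (X0 T i) l) ∨ (∀ l, b.repr (X0 T i) l ≤ 0))
    (hcE : ∀ q, (∀ l, 0 ≤ b.repr (E0 I q) l) ∨ (∀ l, b.repr (E0 I q) l ≤ 0)) :
    ∃ (𝒪A : Subring F) (hbA : ∀ l, Y (b l) ∈ 𝒪A) (hr : IsRegularLocalRing 𝒪A),
      (∀ w : Polynomial R₀, Polynomial.eval₂ ι₀ θ w ∈ 𝒪A) ∧ 𝒪A ≤ 𝒪 ∧ IsLoc 𝒪A ∧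
      (∀ x ∈ 𝒪A, x ≠ 0 → x⁻¹ ∈ 𝒪 → x⁻¹ ∈ 𝒪A) ∧
      (∀ x ∈ 𝒪A, ∃ v w : MvPolynomial (Fin N) (Polynomial R₀),
        Pool.Agent.H918R2.Quad.U 𝒪 (MvPolynomial.eval₂Hom (Polynomial.eval₂RingHom ι₀ θ) (fun l => Y (b l)) w) ∧
        x = MvPolynomial.eval₂Hom (Polynomial.eval₂RingHom ι₀ θ) (fun l => Y (b l)) v /
          MvPolynomial.eval₂Hom (Polynomial.eval₂RingHom ι₀ θ) (fun l => Y (b l)) w) ∧
      @IndN 𝒪A _ hr.toIsLocalRing (Fin N) _ (fun l => ⟨Y (b l), hbA l⟩) := by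
  classical
  obtain ⟨Hm, hHm⟩ : ∃ Hm, Hm = H.map (algebraMap O R₀) := ⟨_, rfl⟩
  have hH0 : Polynomial.eval₂ ι₀ θ Hm = 0 := by rw [hHm]; exact D.H0
  rw [← hHm] at hH'
  have hrq := D.rq Hm (by rw [hH0]; exact not_U_zero) hH'
  have hmem : ∀ w, w ∈ primeOf D.hloc (Polynomial.eval₂RingHom ι₀ θ) D.e_mem ↔
      ¬ Pool.Agent.H918R2.Quad.U 𝒪 (Polynomial.eval₂ ι₀ θ w) := fun w => mem_primeOf _ _ _ w
  refine torA (s := 0) b D.hloc D.ch (Polynomial.eval₂RingHom ι₀ θ) D.e_mem hb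
    (Sum.elim (X0 T) (E0 I)) (fun _ => 1) (Sum.elim (fun i => Polynomial.C (x i)) g)
    (fun _ : Unit => Hm) ?_ ?_ ?_ ?_ ?_ ?_ (fun j => j.elim0) ?_ 1 ?_ ?_
  · rintro (i | q)
    · simp [D.YX]
    · simp [hYE]
  · intro _
    rw [map_one]
    exact U_one
  · intro _
    exact hH0
  · rintro (i | q)
    · exact hcX i
    · exact hcE q
  · refine ⟨hrq.1, ?_⟩
    refine IQ.of_inj (Sum.map (Sum.inl : I → I ⊕ T) (id : Unit → Unit))
      (Sum.map_injective.2 ⟨Sum.inl_injective, Function.injective_id⟩) ?_ ?_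
    · rintro ((i | q) | u) hi
      · exact ⟨Sum.inl i, rfl⟩
      · exfalso
        have h1 := (hmem _).1 hi
        apply h1
        exact hgU q
      · exact ⟨Sum.inr u, rfl⟩
    · convert hrq.2 using 1
      funext i
      rcases i with i | i <;> rfl
  · rintro (i | q) -
    · refine ⟨crd T i, ?_, ?_⟩
      · rintro (i' | q') hi -
        · have : i ≠ i' := fun h => hi (by rw [h])
          show (Pi.single i' (1 : ℤ) : I → ℤ) i = 0
          exact Pi.single_eq_of_ne this _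
        · rfl
      · show Pool.Agent.H918R2.Quad.U 𝒪 (((Pi.single i (1 : ℤ) : I → ℤ) i : ℤ) : F)
        rw [Pi.single_eq_same, Int.cast_one]
        exact U_one
    · refine ⟨crdE I q, ?_, ?_⟩
      · rintro (i' | q') hi -
        · rfl
        · have : q ≠ q' := fun h => hi (by rw [h])
          show (Pi.single q' (1 : ℤ) : T → ℤ) q = 0
          exact Pi.single_eq_of_ne this _
      · show Pool.Agent.H918R2.Quad.U 𝒪 (((Pi.single q (1 : ℤ) : T → ℤ) q : ℤ) : F)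
        rw [Pi.single_eq_same, Int.cast_one]
        exact U_one
  · rw [Set.range_eq_empty (fun j : Fin 0 => (j.elim0 : Lat0 I T)), Set.union_empty,
      Set.Sum.elim_range]
    exact gen0
  · rw [map_one]
    exact one_ne_zero
  · intro L _ c y hy hyr hyh _ p hp
    rw [MvPolynomial.eq_C_of_isEmpty p] at hp ⊢
    rw [MvPolynomial.eval₂Hom_C] at hp ⊢
    obtain ⟨g, hg⟩ := D.ker _ hp
    rw [hg, map_mul, ← hHm, hyh (), zero_mul]

/-- **First stage, tamely ramified case.** -/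
theorem SD.tame (D : SD 𝒪 ι₀ x θ Y H) (q₀ : T) {q r₁ r₂ k : Polynomial O} {ϖ : O} {e : ℕ}
    (hrel : r₁ * q ^ e - Polynomial.C ϖ * r₂ = H * k)
    (hq : ¬ Pool.Agent.H918R2.Quad.U 𝒪 (Polynomial.eval₂ ι₀ θ (q.map (algebraMap O R₀))))
    (hq' : Pool.Agent.H918R2.Quad.U 𝒪 (Polynomial.eval₂ ι₀ θ (Polynomial.derivative (q.map (algebraMap O R₀)))))
    (hr₁ : Pool.Agent.H918R2.Quad.U 𝒪 (Polynomial.eval₂ ι₀ θ (r₁.map (algebraMap O R₀))))
    (hr₂ : Pool.Agent.H918R2.Quad.U 𝒪 (Polynomial.eval₂ ι₀ θ (r₂.map (algebraMap O R₀))))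
    (hk : Polynomial.eval₂ ι₀ θ (k.map (algebraMap O R₀)) ≠ 0)
    (he : Pool.Agent.H918R2.Quad.U 𝒪 ((e : ℤ) : F)) (γ : I → ℤ) (w : R₀) (hw : IsUnit w)
    (hϖ : algebraMap O R₀ ϖ * ∏ i, x i ^ (-(γ i)).toNat = w * ∏ i, x i ^ (γ i).toNat)
    (hYE : Y (E0 I q₀) = Polynomial.eval₂ ι₀ θ (q.map (algebraMap O R₀)))
    (hYE' : ∀ q, q ≠ q₀ → Y (E0 I q) = 1) {N : ℕ} (b : Basis (Fin N) ℤ (Lat0 I T))
    (hb : ∀ l, Y (b l) ∈ 𝒪)
    (hcX : ∀ i, (∀ l, 0 ≤ b.repr (X0 T i) l) ∨ (∀ l, b.repr (X0 T i) l ≤ 0))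
    (hcE : ∀ q, (∀ l, 0 ≤ b.repr (E0 I q) l) ∨ (∀ l, b.repr (E0 I q) l ≤ 0))
    (hcρ : (∀ l, 0 ≤ b.repr (e • E0 I q₀ - (γ, 0)) l) ∨
      (∀ l, b.repr (e • E0 I q₀ - (γ, 0)) l ≤ 0)) :
    ∃ (𝒪A : Subring F) (hbA : ∀ l, Y (b l) ∈ 𝒪A) (hr : IsRegularLocalRing 𝒪A),
      (∀ w : Polynomial R₀, Polynomial.eval₂ ι₀ θ w ∈ 𝒪A) ∧ 𝒪A ≤ 𝒪 ∧ IsLoc 𝒪A ∧
      (∀ x ∈ 𝒪A, x ≠ 0 → x⁻¹ ∈ 𝒪 → x⁻¹ ∈ 𝒪A) ∧
      (∀ x ∈ 𝒪A, ∃ v w : MvPolynomial (Fin N) (Polynomial R₀),
        Pool.Agent.H918R2.Quad.U 𝒪 (MvPolynomial.eval₂Hom (Polynomial.eval₂RingHom ι₀ θ) (fun l => Y (b l)) w) ∧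
        x = MvPolynomial.eval₂Hom (Polynomial.eval₂RingHom ι₀ θ) (fun l => Y (b l)) v /
          MvPolynomial.eval₂Hom (Polynomial.eval₂RingHom ι₀ θ) (fun l => Y (b l)) w) ∧
      @IndN 𝒪A _ hr.toIsLocalRing (Fin N) _ (fun l => ⟨Y (b l), hbA l⟩) := by
  classical
  let f := algebraMap O R₀
  obtain ⟨qm, hqm⟩ : ∃ qm, qm = q.map f := ⟨_, rfl⟩
  obtain ⟨r₁m, hr₁m⟩ : ∃ r₁m, r₁m = r₁.map f := ⟨_, rfl⟩
  obtain ⟨r₂m, hr₂m⟩ : ∃ r₂m, r₂m = r₂.map f := ⟨_, rfl⟩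
  obtain ⟨km, hkm⟩ : ∃ km, km = k.map f := ⟨_, rfl⟩
  obtain ⟨Hm, hHm⟩ : ∃ Hm, Hm = H.map f := ⟨_, rfl⟩
  have hrelm : r₁m * qm ^ e - Polynomial.C (f ϖ) * r₂m = Hm * km := by
    have h1 := congrArg (Polynomial.map f) hrel
    rw [Polynomial.map_sub, Polynomial.map_mul, Polynomial.map_mul, Polynomial.map_mul,
      Polynomial.map_pow, Polynomial.map_C] at h1
    rw [hr₁m, hqm, hr₂m, hHm, hkm]
    exact h1
  have hH0 : Polynomial.eval₂ ι₀ θ Hm = 0 := by rw [hHm]; exact D.H0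
  rw [show q.map (algebraMap O R₀) = qm from hqm.symm] at hq hq' hYE
  rw [show r₁.map (algebraMap O R₀) = r₁m from hr₁m.symm] at hr₁
  rw [show r₂.map (algebraMap O R₀) = r₂m from hr₂m.symm] at hr₂
  rw [show k.map (algebraMap O R₀) = km from hkm.symm] at hk
  have hrq := D.rq qm hq hq'
  let e₀ := Polynomial.eval₂RingHom ι₀ θ
  have he₀ : ∀ w, e₀ w = Polynomial.eval₂ ι₀ θ w := fun w => rfl
  have hmem : ∀ w, w ∈ primeOf D.hloc (Polynomial.eval₂RingHom ι₀ θ) D.e_mem ↔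
      ¬ Pool.Agent.H918R2.Quad.U 𝒪 (Polynomial.eval₂ ι₀ θ w) := fun w => mem_primeOf _ _ _ w
  have hwU : Pool.Agent.H918R2.Quad.U 𝒪 (ι₀ w) := by
    obtain ⟨s, hs⟩ := hw.exists_right_inv
    have h1 : ι₀ w * ι₀ s = 1 := by rw [← map_mul, hs, map_one]
    refine ⟨left_ne_zero_of_mul_eq_one h1, D.mem w, ?_⟩
    rw [← eq_inv_of_mul_eq_one_right h1]
    exact D.mem s
  obtain ⟨ρ, hρ⟩ : ∃ ρ : Lat0 I T, ρ = e • E0 I q₀ - (γ, 0) := ⟨_, rfl⟩
  rw [← hρ] at hcρ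
  have hρ1 : ρ.1 = -γ := by
    rw [hρ]
    funext i
    simp [E0]
  have hρ2 : ∀ q, ρ.2 q = if q = q₀ then (e : ℤ) else 0 := by
    intro q
    rw [hρ]
    simp [E0, Pi.single_apply]
  have hρy : ∀ {B : Type} [CommRing B] {y : Lat0 I T → B} (hy : IsChar y),
      y ρ * y (γ, 0) = y (E0 I q₀) ^ e := by
    intro B _ y hy
    rw [← hy.add, ← hy.nsmul, hρ, sub_add_cancel]
  have hβq₀ : ¬ Pool.Agent.H918R2.Quad.U 𝒪 (e₀ (if q₀ = q₀ then qm else 1)) := by
    rw [if_pos rfl]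
    exact hq
  refine torA (s := 0) b D.hloc D.ch (Polynomial.eval₂RingHom ι₀ θ) D.e_mem hb
    (Sum.elim (Sum.elim (X0 T) (E0 I)) (fun _ : Unit => ρ))
    (Sum.elim (fun _ => 1) (fun _ => r₁m))
    (Sum.elim (Sum.elim (fun i => Polynomial.C (x i)) (fun q => if q = q₀ then qm else 1))
      (fun _ => Polynomial.C w * r₂m))
    (fun j : Empty => j.elim) ?_ ?_ ?_ ?_ ?_ ?_ (fun j => j.elim0) ?_ km ?_ ?_
  · rintro ((i | q) | u)
    · simp [D.YX]
    · by_cases hqq : q = q₀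
      · simp only [Sum.elim_inl, Sum.elim_inr, map_one, one_mul, if_pos hqq]
        rw [hqq, hYE]
        rfl
      · simp only [Sum.elim_inl, Sum.elim_inr, map_one, one_mul, if_neg hqq]
        rw [hYE' q hqq]
    · simp only [Sum.elim_inr]
      have h1 := hρy D.ch
      have h2 := chr_int D.ch ι₀ D.YX γ _ w hϖ
      have h3 := congrArg e₀ hrelm
      rw [map_mul, show e₀ Hm = 0 from hH0, zero_mul, map_sub, map_mul, map_mul, map_pow,
        sub_eq_zero] at h3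
      have h4 : e₀ (Polynomial.C (f ϖ)) = ι₀ (f ϖ) := Polynomial.eval₂_C _ _
      have h5 : e₀ (Polynomial.C w) = ι₀ w := Polynomial.eval₂_C _ _
      rw [h4, h2] at h3
      show e₀ r₁m * Y ρ = e₀ (Polynomial.C w * r₂m)
      rw [map_mul, h5]
      have h6 : Y (γ, 0) ≠ 0 := (D.ch.isUnit _).ne_zero
      apply mul_right_cancel₀ h6
      rw [mul_assoc, h1, hYE]
      rw [show Polynomial.eval₂ ι₀ θ qm = e₀ qm from rfl, h3]
      ring
  · rintro ((i | q) | u)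
    · simp only [Sum.elim_inl, map_one]
      exact U_one
    · simp only [Sum.elim_inl, map_one]
      exact U_one
    · exact hr₁
  · rintro ⟨⟩
  · rintro ((i | q) | u)
    · exact hcX i
    · exact hcE q
    · exact hcρ
  · refine ⟨hrq.1, ?_⟩
    refine IQ.of_inj (fun a : I ⊕ Unit => a.elim (fun i => Sum.inl (Sum.inl (Sum.inl i)))
      (fun _ => Sum.inl (Sum.inl (Sum.inr q₀)))) ?_ ?_ ?_
    · rintro (i | u) (i' | u') h
      · have := Sum.inl_injective (Sum.inl_injective (Sum.inl_injective h))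
        rw [this]
      · exact absurd (Sum.inl_injective (Sum.inl_injective h)) (by simp)
      · exact absurd (Sum.inl_injective (Sum.inl_injective h)) (by simp)
      · rfl
    · rintro (((i | q) | u) | u) hi
      · exact ⟨Sum.inl i, rfl⟩
      · by_cases hqq : q = q₀
        · exact ⟨Sum.inr (), by rw [hqq]; rfl⟩
        · exfalso
          apply (hmem _).1 hi
          simp only [Sum.elim_inl, Sum.elim_inr, if_neg hqq, Polynomial.eval₂_one]
          exact U_one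
      · exfalso
        apply (hmem _).1 hi
        simp only [Sum.elim_inl, Sum.elim_inr, Polynomial.eval₂_mul, Polynomial.eval₂_C]
        exact hwU.mul hr₂
      · exact u.elim
    · convert hrq.2 using 1
      funext i
      rcases i with i | i
      · rfl
      · exact if_pos rfl
  · rintro ((i | q) | u) hq₁
    · refine ⟨(e : ℤ) • crd T i + γ i • crdE I q₀, ?_, ?_⟩
      · rintro ((i' | q') | u') hne hU'
        · have : i ≠ i' := fun h => hne (by rw [h])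
          show (e : ℤ) * (Pi.single i' (1 : ℤ) : I → ℤ) i + γ i * 0 = 0
          rw [Pi.single_eq_of_ne this]
          ring
        · have hqq : q' ≠ q₀ := by
            rintro rfl
            exact hβq₀ hU'
          show (e : ℤ) * 0 + γ i * (Pi.single q' (1 : ℤ) : T → ℤ) q₀ = 0
          rw [Pi.single_eq_of_ne (Ne.symm hqq)]
          ring
        · show (e : ℤ) * ρ.1 i + γ i * ρ.2 q₀ = 0
          rw [hρ1, hρ2, if_pos rfl, Pi.neg_apply]
          ring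
      · show Pool.Agent.H918R2.Quad.U 𝒪 (((e : ℤ) * (Pi.single i (1 : ℤ) : I → ℤ) i + γ i * 0 : ℤ) : F)
        rw [Pi.single_eq_same, mul_one, mul_zero, add_zero]
        exact he
    · have hqq : q ≠ q₀ := by
        rintro rfl
        exact hβq₀ hq₁
      refine ⟨crdE I q, ?_, ?_⟩
      · rintro ((i' | q') | u') hne -
        · rfl
        · have : q ≠ q' := fun h => hne (by rw [h])
          show (Pi.single q' (1 : ℤ) : T → ℤ) q = 0
          exact Pi.single_eq_of_ne this _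
        · show ρ.2 q = 0
          rw [hρ2, if_neg hqq]
      · show Pool.Agent.H918R2.Quad.U 𝒪 (((Pi.single q (1 : ℤ) : T → ℤ) q : ℤ) : F)
        rw [Pi.single_eq_same, Int.cast_one]
        exact U_one
    · refine ⟨crdE I q₀, ?_, ?_⟩
      · rintro ((i' | q') | u') hne hU'
        · rfl
        · have hqq : q' ≠ q₀ := by
            rintro rfl
            exact hβq₀ hU'
          show (Pi.single q' (1 : ℤ) : T → ℤ) q₀ = 0
          exact Pi.single_eq_of_ne (Ne.symm hqq) _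
        · exact absurd rfl hne
      · show Pool.Agent.H918R2.Quad.U 𝒪 ((ρ.2 q₀ : ℤ) : F)
        rw [hρ2, if_pos rfl]
        exact he
  · rw [Set.range_eq_empty (fun j : Fin 0 => (j.elim0 : Lat0 I T)), Set.union_empty,
      Set.Sum.elim_range, Set.Sum.elim_range, AddSubgroup.closure_union, gen0, top_sup_eq]
  · exact hk
  · intro L _ c y hy hyr hyh hct p hp
    rw [MvPolynomial.eq_C_of_isEmpty p] at hp ⊢
    rw [MvPolynomial.eval₂Hom_C] at hp ⊢
    obtain ⟨g, hg⟩ := D.ker _ hp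
    have hyX : ∀ i, y (X0 T i) = c.comp Polynomial.C (x i) := by
      intro i
      have := hyr (Sum.inl (Sum.inl i))
      simpa using this
    have hyE : y (E0 I q₀) = c qm := by
      have := hyr (Sum.inl (Sum.inr q₀))
      simpa using this
    have hyρ : c r₁m * y ρ = c (Polynomial.C w) * c r₂m := by
      have := hyr (Sum.inr ())
      simpa using this
    have h1 := hρy hy
    have h2 := chr_int hy (c.comp Polynomial.C) hyX γ _ w hϖ
    rw [RingHom.comp_apply, RingHom.comp_apply] at h2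
    have h3 : c (Hm * km) = 0 := by
      rw [← hrelm, map_sub, map_mul, map_mul, map_pow, ← hyE, ← h1, ← mul_assoc, hyρ]
      rw [show c (Polynomial.C (f ϖ)) = c (Polynomial.C (algebraMap O R₀ ϖ)) from rfl, h2]
      ring
    rw [map_mul] at h3
    have h4 : c Hm = 0 := (IsUnit.mul_left_eq_zero hct).1 h3
    rw [hg, map_mul, show H.map (algebraMap O R₀) = Hm from hHm.symm, h4, zero_mul]

end sta

end Pool.Agent.H865.TS
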