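import Pool.Agent.H865.TS.Fac
import Pool.Agent.H865.TT.Act

/-!
# The second stage: functions and variables
-/

set_option autoImplicit false
set_option linter.unusedSectionVars false
set_option linter.unusedVariables false

namespace Pool.Agent.H865.TS

open Module Pool.Agent.K3h75.TO Pool.Agent.H865.TT Pool.Agent.H918R2.Quad
  Pool.Agent.W418.LU2 IsLocalRing

/-- the full lattice -/
abbrev Lat1 (I T : Type) (r s : ℕ) : Type := (I → ℤ) × ((Fin r ⊕ Fin s → ℤ) × (T → ℤ))

section lat

variable {I T : Type} [Fintype I] [Fintype T] {r s : ℕ}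

/-- the inclusion of the first lattice -/
def j0 (r s : ℕ) : Lat0 I T →+ Lat1 I T r s :=
  { toFun := fun x => (x.1, (0, x.2))
    map_zero' := rfl
    map_add' := fun x y => by
      ext i
      · rfl
      · show (0 : ℤ) = 0 + 0
        rfl
      · rfl }

theorem j0_inj : Function.Injective (j0 (I := I) (T := T) r s) := by
  intro x y h
  have h1 : x.1 = y.1 := congrArg (fun z : Lat1 I T r s => z.1) h
  have h2 : x.2 = y.2 := congrArg (fun z : Lat1 I T r s => z.2.2) h
  exact Prod.ext h1 h2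

open Classical in
/-- the symbols of the functions and of the variables -/
noncomputable def F0 (I T : Type) {r s : ℕ} (a : Fin r ⊕ Fin s) : Lat1 I T r s :=
  (0, (Pi.single a 1, 0))

/-- the full character -/
noncomputable def Yf {F : Type} [Field F] (Y : Lat0 I T → F) (fu : Fin r ⊕ Fin s → F)
    (x : Lat1 I T r s) : F := Y (x.1, x.2.2) * chr fu x.2.1

variable {F : Type} [Field F] {Y : Lat0 I T → F} (hY : IsChar Y) {fu : Fin r ⊕ Fin s → F}
  (hfu : ∀ a, fu a ≠ 0)

include hY hfu in
theorem isChar_Yf : IsChar (Yf Y fu) where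
  zero := by
    show Y 0 * chr fu 0 = 1
    rw [hY.zero, chr_zero, one_mul]
  add x y := by
    show Y ((x.1, x.2.2) + (y.1, y.2.2)) * chr fu (x.2.1 + y.2.1) =
      (Y (x.1, x.2.2) * chr fu x.2.1) * (Y (y.1, y.2.2) * chr fu y.2.1)
    rw [hY.add, chr_add hfu]
    ring

theorem Yf_j0 (κ : Lat0 I T) : Yf Y fu (j0 r s κ) = Y κ := by
  show Y (κ.1, κ.2) * chr fu 0 = Y κ
  rw [chr_zero, mul_one]

include hY in
theorem Yf_F0 (a : Fin r ⊕ Fin s) : Yf Y fu (F0 I T a) = fu a := by
  classical
  show Y 0 * chr fu (Pi.single a 1) = fu a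
  rw [hY.zero, one_mul]
  convert chr_single fu a

theorem gen1 {N : ℕ} (bA : Basis (Fin N) ℤ (Lat0 I T)) (κ : Fin r → Lat0 I T) :
    AddSubgroup.closure (Set.range (Sum.elim (fun l => j0 r s (bA l))
      (fun m => F0 I T (Sum.inl m) - j0 r s (κ m))) ∪
      Set.range (fun j => F0 I T (Sum.inr j))) = ⊤ := by
  classical
  set C := AddSubgroup.closure (Set.range (Sum.elim (fun l => j0 r s (bA l))
      (fun m => F0 I T (Sum.inl m) - j0 r s (κ m))) ∪
      Set.range (fun j : Fin s => F0 I T (r := r) (Sum.inr j))) with hC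
  have h1 : ∀ l, j0 r s (bA l) ∈ C := fun l =>
    AddSubgroup.subset_closure (Or.inl ⟨Sum.inl l, rfl⟩)
  have h2 : ∀ x, j0 r s x ∈ C := by
    intro x
    rw [← bA.sum_repr x, map_sum]
    refine C.sum_mem fun l _ => ?_
    rw [map_zsmul]
    exact C.zsmul_mem (h1 l) _
  have h3 : ∀ m, F0 I T (Sum.inl m) ∈ C := by
    intro m
    have h4 : F0 I T (Sum.inl m) - j0 r s (κ m) ∈ C :=
      AddSubgroup.subset_closure (Or.inl ⟨Sum.inr m, rfl⟩)
    have := C.add_mem h4 (h2 (κ m))
    rwa [sub_add_cancel] at this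
  have h4 : ∀ j, F0 I T (Sum.inr j) ∈ C := fun j =>
    AddSubgroup.subset_closure (Or.inr ⟨j, rfl⟩)
  rw [AddSubgroup.eq_top_iff']
  rintro ⟨a, c, e⟩
  have h5 : ((a, (c, e)) : Lat1 I T r s) = j0 r s (a, e) + ∑ i, c i • F0 I T i := by
    ext i
    · simp [j0, F0, Prod.fst_sum]
    · simp [j0, F0, Prod.fst_sum, Prod.snd_sum, Finset.sum_apply, Pi.single_apply]
      rcases i with i | i <;> simp
    · simp [j0, F0, Prod.snd_sum]
  rw [h5]
  refine C.add_mem (h2 _) (C.sum_mem fun i _ => C.zsmul_mem ?_ _)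
  rcases i with m | j
  · exact h3 m
  · exact h4 j

end lat

section stb

variable {I T F : Type} [Fintype I] [Fintype T] [Field F] {r s : ℕ}

/-- **The second stage.** -/
theorem stb {𝒪 RA : Subring F} (h𝒪 : IsLoc 𝒪) {Y : Lat0 I T → F} (hY : IsChar Y) {NA : ℕ}
    (bA : Basis (Fin NA) ℤ (Lat0 I T)) (hR : RegP 𝒪 RA (fun l => Y (bA l)))
    {fu : Fin r ⊕ Fin s → F} (hfu : ∀ a, fu a ≠ 0) {N : ℕ} (b : Basis (Fin N) ℤ (Lat1 I T r s))
    (hb : ∀ l, Yf Y fu (b l) ∈ 𝒪) (w : Fin r → F) (κ : Fin r → Lat0 I T)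
    (hw : ∀ m, U RA (w m)) (hfw : ∀ m, fu (Sum.inl m) = w m * Y (κ m))
    (hcb : ∀ l, (∀ i, 0 ≤ b.repr (j0 r s (bA l)) i) ∨ (∀ i, b.repr (j0 r s (bA l)) i ≤ 0))
    (hcm : ∀ m, (∀ i, 0 ≤ b.repr (F0 I T (Sum.inl m) - j0 r s (κ m)) i) ∨
      (∀ i, b.repr (F0 I T (Sum.inl m) - j0 r s (κ m)) i ≤ 0))
    (hinj : ∀ p : MvPolynomial (Fin s) RA,
      MvPolynomial.eval₂Hom RA.subtype (fun j => fu (Sum.inr j)) p = 0 → p = 0)
    (hfrac : ∀ x ∈ 𝒪, ∃ v w : MvPolynomial (Fin N) RA,
      U 𝒪 (MvPolynomial.eval₂Hom RA.subtype (fun l => Yf Y fu (b l)) w) ∧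
      x = MvPolynomial.eval₂Hom RA.subtype (fun l => Yf Y fu (b l)) v /
        MvPolynomial.eval₂Hom RA.subtype (fun l => Yf Y fu (b l)) w) :
    IsRegularLocalRing 𝒪 := by
  classical
  have hreg : IsRegularLocalRing RA := hR.reg
  have hYf := isChar_Yf hY hfu (r := r) (s := s)
  have he₀ : ∀ x : RA, RA.subtype x ∈ 𝒪 := fun x => hR.PA x.2
  have hUR : ∀ x : RA, U 𝒪 (x : F) ↔ IsUnit x := by
    intro x
    rw [hR.isUnit x]
    exact ⟨fun h => ⟨h.1, h.2.2⟩, fun h => ⟨h.1, hR.PA x.2, h.2⟩⟩
  let z : Fin NA → RA := fun l => ⟨Y (bA l), hR.mem l⟩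
  let w' : Fin r → RA := fun m => ⟨w m, (hw m).2.1⟩
  have hw'U : ∀ m, U 𝒪 (w' m : F) := fun m => ⟨(hw m).1, hR.PA (hw m).2.1, hR.PA (hw m).2.2⟩
  have hpr : primeOf h𝒪 RA.subtype he₀ = maximalIdeal RA := by
    ext x
    rw [mem_primeOf, mem_maximalIdeal, mem_nonunits_iff, not_iff_not]
    exact hUR x
  have hRQ0 : RQ (maximalIdeal RA) (Sum.elim (Sum.elim z w') (fun j : Empty => (j.elim : RA))) := by
    have h1 := rq_max hR.ind
    refine ⟨h1.1, ?_⟩
    refine IQ.of_inj (fun l : Fin NA => Sum.inl (Sum.inl l)) ?_ ?_ ?_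
    · intro l l' h
      exact Sum.inl_injective (Sum.inl_injective h)
    · rintro ((l | m) | u) hi
      · exact ⟨l, rfl⟩
      · exfalso
        have h2 : w' m ∈ maximalIdeal RA := hi
        rw [mem_maximalIdeal, mem_nonunits_iff, ← hUR] at h2
        exact h2 (hw'U m)
      · exact u.elim
    · exact h1.2
  have hRQ : RQ (primeOf h𝒪 RA.subtype he₀)
      (Sum.elim (Sum.elim z w') (fun j : Empty => (j.elim : RA))) := by
    have h1 : ∀ (Q : Ideal RA) [Q.IsPrime], Q = maximalIdeal RA →
        RQ Q (Sum.elim (Sum.elim z w') (fun j : Empty => (j.elim : RA))) := by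
      intro Q _ hQ
      subst hQ
      exact hRQ0
    exact h1 _ hpr
  obtain ⟨h1, -⟩ := tor b h𝒪 hYf RA.subtype he₀ hb
    (Sum.elim (fun l => j0 r s (bA l)) (fun m => F0 I T (Sum.inl m) - j0 r s (κ m)))
    (fun _ => 1) (Sum.elim z w') (fun j : Empty => j.elim) (by
      rintro (l | m)
      · rw [map_one, one_mul]
        exact Yf_j0 _
      · rw [map_one, one_mul]
        show Yf Y fu (F0 I T (Sum.inl m) - j0 r s (κ m)) = w m
        rw [sub_eq_add_neg, ← map_neg, hYf.add, Yf_F0 hY, Yf_j0, hfw, mul_assoc,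
          mul_comm (Y (κ m)), hY.neg_mul, mul_one]) (fun q => by
      rw [map_one]
      exact U_one) (by rintro ⟨⟩) (by
      rintro (l | m)
      · exact hcb l
      · exact hcm m) hRQ (by
      rintro (l | m) -
      · refine ⟨{ toFun := fun x => bA.repr (x.1, x.2.2) l +
            ∑ m, x.2.1 (Sum.inl m) * bA.repr (κ m) l
                  map_zero' := by
                    show bA.repr 0 l + ∑ m, (0 : ℤ) * bA.repr (κ m) l = 0
                    simp
                  map_add' := fun x y => by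
                    show bA.repr ((x.1, x.2.2) + (y.1, y.2.2)) l +
                      ∑ m, (x.2.1 (Sum.inl m) + y.2.1 (Sum.inl m)) * bA.repr (κ m) l = _
                    rw [map_add, Finsupp.add_apply]
                    simp only [add_mul, Finset.sum_add_distrib]
                    ring }, ?_, ?_⟩
        · rintro (l' | m') hne -
          · show bA.repr ((bA l').1, (bA l').2) l + ∑ m, (0 : ℤ) * bA.repr (κ m) l = 0
            have : l' ≠ l := fun h => hne (by rw [h])
            rw [show ((bA l').1, (bA l').2) = bA l' from rfl, bA.repr_self,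
              Finsupp.single_eq_of_ne (Ne.symm this)]
            simp
          · show bA.repr ((F0 I T (Sum.inl m') - j0 r s (κ m')).1,
              (F0 I T (Sum.inl m') - j0 r s (κ m')).2.2) l +
              ∑ m, (F0 I T (Sum.inl m') - j0 r s (κ m')).2.1 (Sum.inl m) * bA.repr (κ m) l = 0
            have e1 : (((F0 I T (Sum.inl m') - j0 r s (κ m')).1,
                (F0 I T (Sum.inl m') - j0 r s (κ m')).2.2) : Lat0 I T) = -κ m' := by
              ext i
              · show (0 : ℤ) - (κ m').1 i = -(κ m').1 i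
                ring
              · show (0 : ℤ) - (κ m').2 i = -(κ m').2 i
                ring
            have e2 : ∀ m, (F0 I T (Sum.inl m') - j0 r s (κ m')).2.1 (Sum.inl m) =
                if m = m' then 1 else 0 := by
              intro m
              show (Pi.single (Sum.inl m' : Fin r ⊕ Fin s) (1 : ℤ) : Fin r ⊕ Fin s → ℤ)
                (Sum.inl m) - 0 = _
              rw [sub_zero, Pi.single_apply]
              simp only [Sum.inl.injEq]
            rw [e1, map_neg, Finsupp.neg_apply]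
            simp only [e2, ite_mul, one_mul, zero_mul, Finset.sum_ite_eq', Finset.mem_univ,
              if_true]
            ring
        · show U 𝒪 (((bA.repr ((bA l).1, (bA l).2) l +
              ∑ m : Fin r, (0 : ℤ) * bA.repr (κ m) l : ℤ)) : F)
          rw [show ((bA l).1, (bA l).2) = bA l from rfl, bA.repr_self, Finsupp.single_eq_same]
          simp only [zero_mul, Finset.sum_const_zero, add_zero, Int.cast_one]
          exact U_one
      · refine ⟨{ toFun := fun x => x.2.1 (Sum.inl m)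
                  map_zero' := rfl
                  map_add' := fun _ _ => rfl }, ?_, ?_⟩
        · rintro (l' | m') hne -
          · rfl
          · have : m ≠ m' := fun h => hne (by rw [h])
            show (Pi.single (Sum.inl m' : Fin r ⊕ Fin s) (1 : ℤ) : Fin r ⊕ Fin s → ℤ)
              (Sum.inl m) - 0 = 0
            rw [Pi.single_eq_of_ne (fun h => this (Sum.inl_injective h)), sub_zero]
        · show U 𝒪 ((((Pi.single (Sum.inl m : Fin r ⊕ Fin s) (1 : ℤ) : Fin r ⊕ Fin s → ℤ)
              (Sum.inl m) - 0 : ℤ)) : F)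
          rw [Pi.single_eq_same, sub_zero, Int.cast_one]
          exact U_one)
    (fun j => F0 I T (Sum.inr j)) (gen1 bA κ) 1 (by rw [map_one]; exact one_ne_zero) (by
      intro L _ c y hy _ _ _ p hp
      have h1 : p = 0 := by
        apply hinj
        have h2 : (fun j => Yf Y fu (F0 I T (Sum.inr j))) = fun j => fu (Sum.inr j) := by
          funext j
          exact Yf_F0 hY _
        rw [h2] at hp
        exact hp
      rw [h1, map_zero]) hfrac
  exact h1

end stb

end Pool.Agent.H865.TS
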