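import Pool.Agent.H865.TS.StA
import Pool.Agent.H865.TS.Pr2
import Pool.Graph.R_pool_sql_team_seeded_63374d34.N98.RM.Basic

/-!
# The first stage, for a chart of a regular model
-/

set_option autoImplicit false
set_option linter.unusedSectionVars false
set_option linter.unusedVariables false

namespace Pool.Agent.H865.TS

open Module Pool.Agent.K3h75.TO Pool.Agent.H865.TT Pool.Agent.H918R2.Quad
  Pool.Agent.W418.LU2 IsLocalRing Pool.Agent.N98.RM Polynomial

theorem IndN.comp {B : Type} [CommRing B] [IsLocalRing B] {ι κ : Type} [Fintype ι] [Fintype κ]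
    {z : ι → B} (hz : IndN z) (f : κ → ι) (hf : Function.Injective f) :
    IndN (fun k => z (f k)) := by
  classical
  intro c hc hs k
  have h1 : ∀ i ∉ Set.range f, Function.extend f c 0 i = 0 := by
    intro i hi
    exact Function.extend_apply' _ _ _ hi
  have h2 := hz (Function.extend f c 0) (by
    intro i hi
    by_cases hr : i ∈ Set.range f
    · obtain ⟨k, rfl⟩ := hr
      rw [hf.extend_apply]
      exact hc k hi
    · exact h1 i hr) (by
    rw [← Fintype.sum_of_injective f hf (fun k => c k * z (f k))]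
    · exact hs
    · intro i hi
      rw [h1 i hi, zero_mul]
    · intro k
      rw [hf.extend_apply]) (f k)
  rwa [hf.extend_apply] at h2

theorem RegP.comp {F : Type} [Field F] {A P : Subring F} {ι κ : Type} [Fintype ι] [Fintype κ]
    {x : ι → F} (h : RegP A P x) (f : κ → ι) (hf : Function.Injective f) :
    RegP A P (fun k => x (f k)) where
  PA := h.PA
  ne := fun k => h.ne _
  mem := fun k => h.mem _
  reg := h.reg
  inv := h.inv
  ind := by
    have := h.reg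
    exact IndN.comp (z := fun i => (⟨x i, h.mem i⟩ : P)) h.ind f hf

section stc

variable {O S K₀ F I T : Type} [CommRing O] [CommRing S] [IsDomain S] [Algebra O S]
  [Algebra.IsIntegral O S] [Field K₀] [Algebra O K₀] [Field F] [Algebra S F] [Algebra O F]
  [IsScalarTower O S F] [Algebra K₀ F] [IsScalarTower O K₀ F]
  [Fintype I] [Fintype T] [DecidableEq I] [DecidableEq T]

/-- The minimal polynomials of the elements of `S` do not decompose over `K₀`. -/
def HMin (O S K₀ F : Type) [CommRing O] [CommRing S] [Algebra O S] [Field K₀] [Algebra O K₀]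
    [Field F] [Algebra S F] [Algebra K₀ F] : Prop :=
  ∀ (θ : S) (p : K₀[X]), aeval (algebraMap S F θ) p = 0 →
    (minpoly O θ).map (algebraMap O K₀) ∣ p

/-- `θ` generates `S` over `O` at the prime `𝔓`. -/
def LGen (O : Type) {S : Type} [CommRing O] [CommRing S] [Algebra O S] (𝔓 : Ideal S) (θ : S) :
    Prop :=
  ∃ r : O[X], aeval θ r ∉ 𝔓 ∧ ∀ s : S, ∃ p : O[X], aeval θ r * s = aeval θ p

/-- tame data at the prime `𝔓` -/
structure PT (𝔓 : Ideal S) (θ : S) (q r₁ r₂ k : O[X]) (ϖ : O) (e : ℕ) : Prop where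
  der0 : aeval θ (derivative (minpoly O θ)) ≠ 0
  gen : LGen O 𝔓 θ
  q1 : aeval θ q ∈ 𝔓
  q0 : aeval θ q ≠ 0
  q' : aeval θ (derivative q) ∉ 𝔓
  hr₁ : aeval θ r₁ ∉ 𝔓
  hr₂ : aeval θ r₂ ∉ 𝔓
  rel : r₁ * q ^ e - C ϖ * r₂ = minpoly O θ * k
  k0 : aeval θ k ≠ 0
  he : (e : S) ∉ 𝔓

/-- the ring of the chart -/
def Cc (S : Type) {K₀ F : Type} [CommRing S] [Field K₀] [Field F] [Algebra S F] [Algebra K₀ F]
    (A : Subring K₀) {N : ℕ} (z : Fin N → F) : Subring F :=
  Subring.closure ((algebraMap K₀ F '' A) ∪ Set.range (algebraMap S F) ∪ Set.range z)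

/-- The values of the character on the symbols of the primes. -/
def Mode (𝔓 : Ideal S) (A : Subalgebra O K₀) (x : I → K₀) (Y : Lat0 I T → F) {N : ℕ}
    (b : Basis (Fin N) ℤ (Lat0 I T)) : Prop :=
  (∃ θ : S, LGen O 𝔓 θ ∧ aeval θ (derivative (minpoly O θ)) ∉ 𝔓 ∧ ∀ q, Y (E0 I q) = 1) ∨
  ∃ (θ : S) (q r₁ r₂ k : O[X]) (ϖ : O) (e : ℕ) (γ : I → ℤ) (q₀ : T), PT 𝔓 θ q r₁ r₂ k ϖ e ∧
    IsM A x (algebraMap O K₀ ϖ) γ ∧ Y (E0 I q₀) = algebraMap S F (aeval θ q) ∧
    (∀ q', q' ≠ q₀ → Y (E0 I q') = 1) ∧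
    ((∀ l, 0 ≤ b.repr (e • E0 I q₀ - (γ, 0)) l) ∨ (∀ l, b.repr (e • E0 I q₀ - (γ, 0)) l ≤ 0))

variable [Ring.DimensionLEOne S]

theorem staW (hmin : HMin O S K₀ F) (hinj : Function.Injective (algebraMap S F)) (𝔓 : Ideal S)
    [𝔓.IsPrime] (A : Subalgebra O K₀) {x : I → K₀} (hA : RegC A.toSubring x)
    {Y : Lat0 I T → F} (hY : IsChar Y) (hYX : ∀ i, Y (X0 T i) = algebraMap K₀ F (x i)) {N : ℕ}
    (b : Basis (Fin N) ℤ (Lat0 I T))
    (hcX : ∀ i, (∀ l, 0 ≤ b.repr (X0 T i) l) ∨ (∀ l, b.repr (X0 T i) l ≤ 0))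
    (hcE : ∀ q, (∀ l, 0 ≤ b.repr (E0 I q) l) ∨ (∀ l, b.repr (E0 I q) l ≤ 0))
    (hmode : Mode 𝔓 A x Y b) (W : Subring F) (hW : IsLoc W)
    (hCW : Cc S A.toSubring (fun l => Y (b l)) ≤ W)
    (hU : ∀ s, s ∉ 𝔓 → U W (algebraMap S F s)) :
    RegP W (lo W (Cc S A.toSubring (fun l => Y (b l)))) (fun l => Y (b l)) := by
  classical
  set Z : Subring F := Cc S A.toSubring (fun l => Y (b l)) with hZ
  have hAZ : ∀ a ∈ A, algebraMap K₀ F a ∈ Z := fun a ha =>
    Subring.subset_closure (Or.inl (Or.inl ⟨a, ha, rfl⟩))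
  have hSZ : ∀ s, algebraMap S F s ∈ Z := fun s =>
    Subring.subset_closure (Or.inl (Or.inr ⟨s, rfl⟩))
  have hbZ : ∀ l, Y (b l) ∈ Z := fun l => Subring.subset_closure (Or.inr ⟨l, rfl⟩)
  let W₀ : Subring K₀ := W.comap (algebraMap K₀ F)
  have hjinj : Function.Injective (algebraMap K₀ F) := (algebraMap K₀ F).injective
  have hmemW₀ : ∀ a, a ∈ W₀ ↔ algebraMap K₀ F a ∈ W := fun a => Iff.rfl
  have hUW₀ : ∀ a, U W₀ a ↔ U W (algebraMap K₀ F a) := by
    intro a
    unfold U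
    rw [hmemW₀, hmemW₀, map_inv₀, _root_.map_ne_zero]
  have hlocW₀ : IsLoc W₀ := by
    intro a a' ha ha' haa
    rw [hUW₀, map_add] at haa
    rw [hUW₀, hUW₀]
    exact hW _ _ ha ha' haa
  have hAW₀ : A.toSubring ≤ W₀ := fun a ha => hCW (hAZ a ha)
  have hreg := hA.reg W₀ (Loc_of_isLoc hlocW₀) hAW₀ I id Function.injective_id
  let R₀ : Subring K₀ := lo W₀ A.toSubring
  have hR₀ : IsRegularLocalRing R₀ := hreg.reg
  let ι₀ : R₀ →+* F := (algebraMap K₀ F).comp R₀.subtype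
  have hι₀ : ∀ r, ι₀ r = algebraMap K₀ F r := fun r => rfl
  let _ : Algebra O R₀ := RingHom.toAlgebra
    ((algebraMap O K₀).codRestrict R₀ fun o => le_lo _ _ (A.algebraMap_mem o))
  have halg : ∀ o, ((algebraMap O R₀ o : R₀) : K₀) = algebraMap O K₀ o := fun o => rfl
  have hcomp : ι₀.comp (algebraMap O R₀) = algebraMap O F := by
    ext o
    show algebraMap K₀ F (algebraMap O K₀ o) = _
    rw [← IsScalarTower.algebraMap_apply]
  have hcomp' : R₀.subtype.comp (algebraMap O R₀) = algebraMap O K₀ := by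
    ext o
    rfl
  have hev : ∀ (θ : S) (p : O[X]), eval₂ ι₀ (algebraMap S F θ) (p.map (algebraMap O R₀)) =
      algebraMap S F (aeval θ p) := by
    intro θ p
    rw [eval₂_map, hcomp, ← aeval_def, aeval_algebraMap_apply]
  have hev' : ∀ (θ : S) (p : O[X]), eval₂ ι₀ (algebraMap S F θ)
      (derivative (p.map (algebraMap O R₀))) = algebraMap S F (aeval θ (derivative p)) := by
    intro θ p
    rw [derivative_map, hev]
  let x₀ : I → R₀ := fun i => ⟨x i, hreg.mem i⟩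
  have hSD : ∀ θ : S, SD W ι₀ x₀ (algebraMap S F θ) Y (minpoly O θ) := by
    intro θ
    refine ⟨hW, fun r => lo_le hAW₀ r.2, ?_, hreg.ind, hCW (hSZ θ), hY, hYX, ?_, ?_⟩
    · intro r hr
      rw [hι₀, ← hUW₀] at hr
      have h1 := hreg.isUnit r
      exact h1.2 ⟨hr.1, hr.2.2⟩
    · rw [hev, minpoly.aeval, map_zero]
    · intro p hp
      have h1 : aeval (algebraMap S F θ) (p.map R₀.subtype) = 0 := by
        rw [aeval_def, eval₂_map]
        exact hp
      have h2 := hmin θ _ h1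
      have h3 : (minpoly O θ).map (algebraMap O K₀) =
          ((minpoly O θ).map (algebraMap O R₀)).map R₀.subtype := by
        rw [Polynomial.map_map, hcomp']
      rw [h3] at h2
      exact (map_dvd_map R₀.subtype Subtype.val_injective
        ((minpoly.monic (Algebra.IsIntegral.isIntegral θ)).map _)).1 h2
  -- the conclusion from the toric presentation
  have key : ∀ θ : S, LGen O 𝔓 θ → (∃ (𝒪A : Subring F) (hbA : ∀ l, Y (b l) ∈ 𝒪A)
      (hr : IsRegularLocalRing 𝒪A),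
      (∀ w : Polynomial R₀, Polynomial.eval₂ ι₀ (algebraMap S F θ) w ∈ 𝒪A) ∧ 𝒪A ≤ W ∧
      IsLoc 𝒪A ∧ (∀ x ∈ 𝒪A, x ≠ 0 → x⁻¹ ∈ W → x⁻¹ ∈ 𝒪A) ∧
      (∀ x ∈ 𝒪A, ∃ v w : MvPolynomial (Fin N) (Polynomial R₀),
        U W (MvPolynomial.eval₂Hom (Polynomial.eval₂RingHom ι₀ (algebraMap S F θ))
          (fun l => Y (b l)) w) ∧
        x = MvPolynomial.eval₂Hom (Polynomial.eval₂RingHom ι₀ (algebraMap S F θ))
            (fun l => Y (b l)) v /
          MvPolynomial.eval₂Hom (Polynomial.eval₂RingHom ι₀ (algebraMap S F θ))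
            (fun l => Y (b l)) w) ∧
      @IndN 𝒪A _ hr.toIsLocalRing (Fin N) _ (fun l => ⟨Y (b l), hbA l⟩)) →
      RegP W (lo W Z) (fun l => Y (b l)) := by
    rintro θ ⟨r, hr𝔓, hrgen⟩ ⟨𝒪A, hbA, hreg', h1, h2, h3, h4, h5, h6⟩
    have hRZ : ∀ r : R₀, ι₀ r ∈ lo W Z := by
      rintro ⟨_, a, ha, c, hc, hc0, hcW, rfl⟩
      refine ⟨algebraMap K₀ F a, hAZ a ha, algebraMap K₀ F c, hAZ c hc, ?_, ?_, ?_⟩
      · exact (_root_.map_ne_zero _).2 hc0
      · rw [← map_inv₀]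
        exact hcW
      · rw [hι₀]
        show algebraMap K₀ F (a * c⁻¹) = _
        rw [map_mul, map_inv₀]
    have he₀Z : ∀ p : R₀[X], eval₂RingHom ι₀ (algebraMap S F θ) p ∈ lo W Z := by
      intro p
      rw [coe_eval₂RingHom, eval₂_eq_sum_range]
      exact Subring.sum_mem _ fun i _ => Subring.mul_mem _ (hRZ _)
        (Subring.pow_mem _ (le_lo _ _ (hSZ θ)) _)
    have heZ : ∀ v : MvPolynomial (Fin N) R₀[X], MvPolynomial.eval₂Hom
        (eval₂RingHom ι₀ (algebraMap S F θ)) (fun l => Y (b l)) v ∈ lo W Z := by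
      intro v
      induction v using MvPolynomial.induction_on with
      | C r => rw [MvPolynomial.eval₂Hom_C]; exact he₀Z r
      | add p q hp hq => rw [map_add]; exact Subring.add_mem _ hp hq
      | mul_X p l hp =>
        rw [map_mul, MvPolynomial.eval₂Hom_X']
        exact Subring.mul_mem _ hp (le_lo _ _ (hbZ l))
    have hle1 : 𝒪A ≤ lo W Z := by
      intro y hy
      obtain ⟨v, w, hw, rfl⟩ := h5 y hy
      rw [div_eq_mul_inv]
      exact Subring.mul_mem _ (heZ v) (inv_mem_lo hCW (heZ w) hw.1 hw.2.2)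
    have hpθ : ∀ p : O[X], algebraMap S F (aeval θ p) ∈ 𝒪A := fun p => by
      rw [← hev]
      exact h1 _
    have hZA : Z ≤ 𝒪A := by
      rw [hZ]
      unfold Cc
      rw [Subring.closure_le]
      rintro y ((⟨a, ha, rfl⟩ | ⟨s, rfl⟩) | ⟨l, rfl⟩)
      · have h7 := h1 (C ⟨a, le_lo _ _ ha⟩)
        rw [eval₂_C] at h7
        exact h7
      · obtain ⟨p, hp⟩ := hrgen s
        have h7 := hU _ hr𝔓
        have h8 : algebraMap S F s = algebraMap S F (aeval θ p) *
            (algebraMap S F (aeval θ r))⁻¹ := by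
          rw [← hp, map_mul]
          have := h7.1
          field_simp
        rw [h8]
        exact 𝒪A.mul_mem (hpθ p) (h4 _ (hpθ r) h7.1 h7.2.2)
      · exact hbA l
    have hle2 : lo W Z ≤ 𝒪A := by
      rintro _ ⟨a, ha, c, hc, hc0, hcW, rfl⟩
      exact 𝒪A.mul_mem (hZA ha) (h4 c (hZA hc) hc0 hcW)
    have heq : 𝒪A = lo W Z := le_antisymm hle1 hle2
    subst heq
    exact ⟨lo_le hCW, fun l => (hY.isUnit _).ne_zero, hbA, hreg',
      fun y hy h0 hyW => inv_mem_lo hCW hy h0 hyW, h6⟩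
  have hbW : ∀ l, Y (b l) ∈ W := fun l => hCW (hbZ l)
  rcases hmode with ⟨θ, hgen, hder, hYE⟩ | ⟨θ, q, r₁, r₂, k, ϖ, e, γ, q₀, hPT, hϖ, hYE, hYE', hρ⟩
  · refine key θ hgen ((hSD θ).etale ?_ (fun _ => 1) ?_ ?_ b hbW hcX hcE)
    · rw [hev']
      exact hU _ hder
    · intro q
      rw [hYE, eval₂_one]
    · intro q
      rw [eval₂_one]
      exact U_one
  · by_cases hqU : U W (algebraMap S F (aeval θ q))
    · -- all nonzero elements of `S` are units
      have hall : ∀ s : S, s ≠ 0 → U W (algebraMap S F s) := by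
        let 𝔓' : Ideal S := primeOf hW (algebraMap S F) fun s => hCW (hSZ s)
        have hmem : ∀ s, s ∈ 𝔓' ↔ ¬ U W (algebraMap S F s) := fun s => mem_primeOf _ _ _ s
        have hp : 𝔓'.IsPrime := primeOf_isPrime hW (algebraMap S F) fun s => hCW (hSZ s)
        have hle : 𝔓' ≤ 𝔓 := by
          intro s hs
          by_contra h
          exact (hmem s).1 hs (hU s h)
        have hbot : 𝔓' = ⊥ := by
          by_contra hne
          have hmax : 𝔓'.IsMaximal := Ring.DimensionLEOne.maximalOfPrime hne hp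
          have heq : 𝔓' = 𝔓 := hmax.eq_of_le (Ideal.IsPrime.ne_top ‹_›) hle
          have h1 : aeval θ q ∈ 𝔓' := by
            rw [heq]
            exact hPT.q1
          exact (hmem _).1 h1 hqU
        intro s hs
        by_contra h
        have h1 := (hmem s).2 h
        rw [hbot, Ideal.mem_bot] at h1
        exact hs h1
      refine key θ hPT.gen ((hSD θ).etale ?_
        (fun q' => if q' = q₀ then q.map (algebraMap O R₀) else 1) ?_ ?_ b hbW hcX hcE)
      · rw [hev']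
        exact hall _ hPT.der0
      · intro q'
        by_cases h : q' = q₀
        · rw [if_pos h, h, hYE, hev]
        · rw [if_neg h, hYE' q' h, eval₂_one]
      · intro q'
        by_cases h : q' = q₀
        · rw [if_pos h, hev]
          exact hqU
        · rw [if_neg h, eval₂_one]
          exact U_one
    · obtain ⟨w, hw0, hwA, hwA', hϖw⟩ := hϖ
      have hwR : w ∈ R₀ := le_lo _ _ hwA
      have hwR' : w⁻¹ ∈ R₀ := le_lo _ _ hwA'
      refine key θ hPT.gen ((hSD θ).tame q₀ hPT.rel ?_ ?_ ?_ ?_ ?_ ?_ γ ⟨w, hwR⟩ ?_ ?_ ?_ hYE' b hbW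
        hcX hcE hρ)
      · rw [hev]
        exact hqU
      · rw [hev']
        exact hU _ hPT.q'
      · rw [hev]
        exact hU _ hPT.hr₁
      · rw [hev]
        exact hU _ hPT.hr₂
      · rw [hev]
        exact fun h => hPT.k0 (hinj (by rw [h, map_zero]))
      · have h1 := hU _ hPT.he
        rw [map_natCast] at h1
        rw [Int.cast_natCast]
        exact h1
      · exact isUnit_iff_exists_inv.2 ⟨⟨w⁻¹, hwR'⟩, Subtype.ext (mul_inv_cancel₀ hw0)⟩
      · apply Subtype.ext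
        show ((algebraMap O R₀ ϖ * ∏ i, x₀ i ^ (-(γ i)).toNat : R₀) : K₀) =
          (((⟨w, hwR⟩ : R₀) * ∏ i, x₀ i ^ (γ i).toNat : R₀) : K₀)
        rw [Subring.coe_mul, Subring.coe_mul, SubmonoidClass.coe_finsetProd,
          SubmonoidClass.coe_finsetProd, halg, hϖw, mul_assoc, ← Finset.prod_mul_distrib]
        congr 1
        refine Finset.prod_congr rfl fun i _ => ?_
        rw [SubmonoidClass.coe_pow, SubmonoidClass.coe_pow]
        show x i ^ γ i * x i ^ (-(γ i)).toNat = x i ^ (γ i).toNat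
        rw [← zpow_natCast, ← zpow_natCast, ← zpow_add₀ (hA.ne i)]
        congr 1
        omega
      · rw [hev]
        exact hYE

/-- **The first stage**: the local ring over the chart. -/
theorem sta (hmin : HMin O S K₀ F) (hinj : Function.Injective (algebraMap S F)) (𝔓 : Ideal S)
    [𝔓.IsPrime] (A : Subalgebra O K₀) {x : I → K₀} (hA : RegC A.toSubring x)
    {Y : Lat0 I T → F} (hY : IsChar Y) (hYX : ∀ i, Y (X0 T i) = algebraMap K₀ F (x i)) {N : ℕ}
    (b : Basis (Fin N) ℤ (Lat0 I T))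
    (hcX : ∀ i, (∀ l, 0 ≤ b.repr (X0 T i) l) ∨ (∀ l, b.repr (X0 T i) l ≤ 0))
    (hcE : ∀ q, (∀ l, 0 ≤ b.repr (E0 I q) l) ∨ (∀ l, b.repr (E0 I q) l ≤ 0))
    (hmode : Mode 𝔓 A x Y b) (𝒪 : Subring F) (h𝒪 : IsLoc 𝒪)
    (hC : Cc S A.toSubring (fun l => Y (b l)) ≤ 𝒪)
    (hU : ∀ s, s ∉ 𝔓 → U 𝒪 (algebraMap S F s)) :
    RegP 𝒪 (lo 𝒪 (Cc S A.toSubring (fun l => Y (b l)))) (fun l => Y (b l)) ∧
      IsIntegrallyClosed (lo 𝒪 (Cc S A.toSubring (fun l => Y (b l)))) := by
  have h1 := staW hmin hinj 𝔓 A hA hY hYX b hcX hcE hmode 𝒪 h𝒪 hC hU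
  refine ⟨h1, ?_⟩
  set Z : Subring F := Cc S A.toSubring (fun l => Y (b l)) with hZ
  have hRegC : RegC (lo 𝒪 Z) (fun l => Y (b l)) := by
    refine ⟨h1.ne, h1.mem, fun W hW hle ι _ f hf => ?_⟩
    have hZW : Z ≤ W := (le_lo _ _).trans hle
    have h2 : lo W (lo 𝒪 Z) = lo W Z := by
      refine lo_eq_of hZW (le_lo _ _) ?_
      rintro _ ⟨a, ha, c, hc, hc0, hc𝒪, rfl⟩
      exact ⟨a, ha, c, hc, hc0, hle (inv_mem_lo hC (le_lo _ _ hc) hc0 hc𝒪), rfl⟩
    rw [h2]
    have h3 := staW hmin hinj 𝔓 A hA hY hYX b hcX hcE hmode W (isLoc_of_Loc hW) hZW (by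
      intro s hs
      have h4 := hU s hs
      have h5 : algebraMap S F s ∈ Z := Subring.subset_closure (Or.inl (Or.inr ⟨s, rfl⟩))
      exact ⟨h4.1, hZW h5, hle (inv_mem_lo hC (le_lo _ _ h5) h4.1 h4.2.2)⟩)
    exact RegP.comp h3 f hf
  have h2 : IsRegularLocalRing (lo 𝒪 Z) := h1.reg
  exact hRegC.isIntegrallyClosed

end stc

end Pool.Agent.H865.TS
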