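import Pool.Agent.H865.TS.StB
import Pool.Agent.H865.TT.Exd

/-!
# Regularity at a vertex
-/

set_option autoImplicit false
set_option linter.unusedSectionVars false
set_option linter.unusedVariables false

namespace Pool.Agent.H865.TS

open Module Pool.Agent.K3h75.TO Pool.Agent.H865.TT Pool.Agent.H918R2.Quad
  Pool.Agent.W418.LU2 IsLocalRing Pool.Agent.N98.RM Polynomial

/-- the coordinates have the same sign -/
def Sgn {Λ : Type} [AddCommGroup Λ] {N : ℕ} (b : Basis (Fin N) ℤ Λ) (δ : Λ) : Prop :=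
  (∀ l, 0 ≤ b.repr δ l) ∨ (∀ l, b.repr δ l ≤ 0)

/-- the vectors of the basis are differences of elements of `P` -/
def DifB {Λ : Type} [AddCommGroup Λ] {N : ℕ} (P : Finset Λ) (b : Basis (Fin N) ℤ Λ) : Prop :=
  ∀ l, ∃ κ ∈ P, ∃ κ' ∈ P, b l = κ - κ'

/-- the elements with bounded coordinates -/
def Bdd {Λ : Type} [AddCommGroup Λ] (P : Finset Λ) (C : ℤ) : Set Λ :=
  {κ | ∃ (N : ℕ) (b : Basis (Fin N) ℤ Λ), DifB P b ∧ ∀ l, |b.repr κ l| ≤ C}

/-- The smallest element of a finite set with respect to a compatible basis. -/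
theorem exists_min {Λ Λ' : Type} [AddCommGroup Λ] [AddCommGroup Λ'] {N : ℕ}
    (b : Basis (Fin N) ℤ Λ') (j : Λ →+ Λ') {P : Finset Λ} (hP : P.Nonempty)
    (h : ∀ κ ∈ P, ∀ κ' ∈ P, Sgn b (j (κ - κ'))) :
    ∃ μ ∈ P, ∀ κ ∈ P, ∀ l, 0 ≤ b.repr (j (κ - μ)) l := by
  classical
  let sc : Λ →+ ℤ :=
    { toFun := fun x => ∑ l, b.repr (j x) l
      map_zero' := by simp
      map_add' := by intro x y; simp [Finset.sum_add_distrib] }
  have hsc : ∀ x, sc x = ∑ l, b.repr (j x) l := fun x => rfl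
  obtain ⟨μ, hμ, hmin⟩ := P.exists_min_image sc hP
  refine ⟨μ, hμ, fun κ hκ => ?_⟩
  have h1 := hmin κ hκ
  have h2 : 0 ≤ sc (κ - μ) := by
    rw [map_sub]
    linarith
  rcases h κ hκ μ hμ with h3 | h3
  · exact h3
  · intro l
    rw [hsc] at h2
    have h4 : ∑ l, b.repr (j (κ - μ)) l = 0 :=
      le_antisymm (Finset.sum_nonpos fun l _ => h3 l) h2
    exact ((Finset.sum_eq_zero_iff_of_nonpos fun l _ => h3 l).1 h4 l (Finset.mem_univ l)).ge

/-- The smallest element is a vertex. -/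
theorem min_eq {Λ Λ' : Type} [AddCommGroup Λ] [AddCommGroup Λ'] {N : ℕ}
    (b : Basis (Fin N) ℤ Λ') (j : Λ →+ Λ') (hj : Function.Injective j) {P : Finset Λ} {μ v : Λ}
    (hmin : ∀ κ ∈ P, ∀ l, 0 ≤ b.repr (j (κ - μ)) l) (hv : v ∈ P) {s : Multiset Λ}
    (hs : ∀ κ ∈ s, κ ∈ P) (hsum : (s.card + 1) • μ = v + s.sum) : v = μ := by
  have h1 : ∀ s : Multiset Λ, (∀ κ ∈ s, κ ∈ P) → ∀ l, 0 ≤ b.repr (j (s.sum - s.card • μ)) l := by
    intro s
    induction s using Multiset.induction_on with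
    | empty => intro _ l; simp
    | cons a s ih =>
      intro hs l
      have e : (a ::ₘ s).sum - (a ::ₘ s).card • μ = (a - μ) + (s.sum - s.card • μ) := by
        rw [Multiset.sum_cons, Multiset.card_cons, succ_nsmul]
        abel
      rw [e, map_add, map_add, Finsupp.add_apply]
      exact add_nonneg (hmin a (hs a (Multiset.mem_cons_self a s)) l)
        (ih (fun κ hκ => hs κ (Multiset.mem_cons_of_mem hκ)) l)
  have h2 : (v - μ) + (s.sum - s.card • μ) = 0 := by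
    have : (v - μ) + (s.sum - s.card • μ) = (v + s.sum) - (s.card + 1) • μ := by
      rw [succ_nsmul]
      abel
    rw [this, hsum, sub_self]
  have h3 : ∀ l, b.repr (j (v - μ)) l = 0 := by
    intro l
    have h4 := congrArg (fun x => b.repr (j x) l) h2
    simp only [map_add, map_zero, Finsupp.add_apply, Finsupp.zero_apply] at h4
    have h5 := hmin v hv l
    have h6 := h1 s hs l
    linarith
  have h4 : j (v - μ) = 0 := by
    apply b.repr.injective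
    rw [map_zero]
    ext l
    exact h3 l
  have h5 : v - μ = 0 := hj (by rw [h4, map_zero])
  exact sub_eq_zero.1 h5

section ver

variable {O S K₀ F I T : Type} [CommRing O] [CommRing S] [IsDomain S] [Algebra O S]
  [Algebra.IsIntegral O S] [Field K₀] [Algebra O K₀] [Field F] [Algebra S F] [Algebra O F]
  [IsScalarTower O S F] [Algebra K₀ F] [IsScalarTower O K₀ F]
  [Fintype I] [Fintype T] [DecidableEq I] [DecidableEq T]

/-- The values of the character on the symbols of the primes. -/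
def Mode0 (𝔓 : Ideal S) (A : Subalgebra O K₀) (x : I → K₀) (Y : Lat0 I T → F) (e : T → ℕ)
    (γ : T → I → ℤ) : Prop :=
  (∃ θ : S, LGen O 𝔓 θ ∧ aeval θ (derivative (minpoly O θ)) ∉ 𝔓 ∧ ∀ q, Y (E0 I q) = 1) ∨
  ∃ (θ : S) (q r₁ r₂ k : O[X]) (ϖ : O) (q₀ : T), PT 𝔓 θ q r₁ r₂ k ϖ (e q₀) ∧
    IsM A x (algebraMap O K₀ ϖ) (γ q₀) ∧ Y (E0 I q₀) = algebraMap S F (aeval θ q) ∧
    (∀ q', q' ≠ q₀ → Y (E0 I q') = 1)

/-- the vertices of the first polytope -/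
def VA (PA : Finset (Lat0 I T)) (e : T → ℕ) (γ : T → I → ℤ) : Prop :=
  ∀ μ ∈ PA, ∃ v ∈ PA,
    (∃ s : Multiset (Lat0 I T), (∀ κ ∈ s, κ ∈ PA) ∧ (s.card + 1) • μ = v + s.sum) ∧
    ∃ (N : ℕ) (b : Basis (Fin N) ℤ (Lat0 I T)), (∀ i, v + b i ∈ PA) ∧
      (∀ κ ∈ PA, ∀ i, 0 ≤ b.repr (κ - v) i) ∧ (∀ i, Sgn b (X0 T i)) ∧ (∀ q, Sgn b (E0 I q)) ∧
      ∀ q, Sgn b (e q • E0 I q - (γ q, 0))

variable [Ring.DimensionLEOne S]

theorem ver (hmin : HMin O S K₀ F) (hSinj : Function.Injective (algebraMap S F)) (𝔓 : Ideal S)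
    [𝔓.IsPrime] (A : Subalgebra O K₀) {x : I → K₀} (hA : RegC A.toSubring x)
    {Y : Lat0 I T → F} (hY : IsChar Y) (hYX : ∀ i, Y (X0 T i) = algebraMap K₀ F (x i))
    {e : T → ℕ} {γ : T → I → ℤ} (hmode : Mode0 𝔓 A x Y e γ) {PA : Finset (Lat0 I T)}
    (hPAne : PA.Nonempty) (hPA : VA PA e γ) {Gm : Set (I → ℤ)} {C : ℕ}
    (hC : ∀ (N : ℕ) (b : Basis (Fin N) ℤ (Lat0 I T)), DifB PA b → ∀ g ∈ Gm, ∀ l,
      |b.repr (g, 0) l| ≤ C)
    {r s : ℕ} {fu : Fin r ⊕ Fin s → F} (hfu : ∀ a, fu a ≠ 0) (B : Subfield F)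
    (hYB : ∀ κ, Y κ ∈ B) (hBfr : ∀ y ∈ B, ∃ a ∈ Subring.closure ((algebraMap K₀ F '' A) ∪
      Set.range (algebraMap S F)), ∃ c ∈ Subring.closure ((algebraMap K₀ F '' A) ∪
      Set.range (algebraMap S F)), c ≠ 0 ∧ y = a / c) (hAB : ∀ a ∈ A, algebraMap K₀ F a ∈ B)
    (hSB : ∀ a : S, algebraMap S F a ∈ B)
    (hfB : ∀ m, fu (Sum.inl m) ∈ B)
    (hu : ∀ p : MvPolynomial (Fin s) B,
      MvPolynomial.eval₂Hom B.subtype (fun j => fu (Sum.inr j)) p = 0 → p = 0)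
    (hf : ∀ m, ∃ p : K₀[X], p.Monic ∧ eval₂ (algebraMap K₀ F) (fu (Sum.inl m)) p = 0 ∧
      p.coeff 0 ≠ 0 ∧ ∀ j, p.coeff j = 0 ∨ ∃ g ∈ Gm, IsM A x (p.coeff j) g)
    {N : ℕ} (b : Basis (Fin N) ℤ (Lat1 I T r s))
    (hb1 : ∀ κ ∈ PA, ∀ κ' ∈ PA, Sgn b (j0 r s (κ - κ')))
    (hb2 : ∀ m, ∀ κ ∈ Bdd PA (3 * C), Sgn b (F0 I T (Sum.inl m) - j0 r s κ))
    (𝒪 : Subring F) (h𝒪 : IsLoc 𝒪) (hA𝒪 : ∀ a ∈ A, algebraMap K₀ F a ∈ 𝒪)
    (hS𝒪 : ∀ a : S, algebraMap S F a ∈ 𝒪)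
    (hU : ∀ s, s ∉ 𝔓 → U 𝒪 (algebraMap S F s)) (hb : ∀ l, Yf Y fu (b l) ∈ 𝒪)
    (hfrac : ∀ y ∈ 𝒪, ∃ a ∈ Cc S A.toSubring (fun l => Yf Y fu (b l)),
      ∃ c ∈ Cc S A.toSubring (fun l => Yf Y fu (b l)), U 𝒪 c ∧ y = a / c) :
    IsRegularLocalRing 𝒪 := by
  classical
  have hYf := isChar_Yf hY hfu (r := r) (s := s)
  -- the vertex of the first polytope
  obtain ⟨μ, hμ, hμmin⟩ := exists_min b (j0 r s) hPAne hb1
  obtain ⟨v, hv, ⟨ms, hms, hsum⟩, NA, bA, hbA1, hbA2, hbX, hbE, hbρ⟩ := hPA μ hμ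
  obtain rfl : v = μ := min_eq b (j0 r s) j0_inj hμmin hv hms hsum
  have hdif : DifB PA bA := fun l => ⟨v + bA l, hbA1 l, v, hv, by rw [add_sub_cancel_left]⟩
  have hbApos : ∀ l, ∀ i, 0 ≤ b.repr (j0 r s (bA l)) i := by
    intro l
    have h1 := hμmin _ (hbA1 l)
    rwa [add_sub_cancel_left] at h1
  have hbA𝒪 : ∀ l, Y (bA l) ∈ 𝒪 := by
    intro l
    rw [← Yf_j0 (Y := Y) (fu := fu)]
    exact Y_mem hYf b hb (hbApos l)
  -- the first stage
  have hCle : Cc S A.toSubring (fun l => Y (bA l)) ≤ 𝒪 := by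
    unfold Cc
    rw [Subring.closure_le]
    rintro y ((⟨a, ha, rfl⟩ | ⟨s, rfl⟩) | ⟨l, rfl⟩)
    · exact hA𝒪 a ha
    · exact hS𝒪 s
    · exact hbA𝒪 l
  have hmode' : Mode 𝔓 A x Y bA := by
    rcases hmode with ⟨θ, h1, h2, h3⟩ | ⟨θ, q, r₁, r₂, k, ϖ, q₀, h1, h2, h3, h4⟩
    · exact Or.inl ⟨θ, h1, h2, h3⟩
    · exact Or.inr ⟨θ, q, r₁, r₂, k, ϖ, e q₀, γ q₀, q₀, h1, h2, h3, h4, hbρ q₀⟩
  obtain ⟨hR, hic⟩ := sta hmin hSinj 𝔓 A hA hY hYX bA hbX hbE hmode' 𝒪 h𝒪 hCle hU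
  set Z : Subring F := Cc S A.toSubring (fun l => Y (bA l)) with hZ
  set RA : Subring F := lo 𝒪 Z with hRA
  have hAZ : ∀ a ∈ A, algebraMap K₀ F a ∈ Z := fun a ha =>
    Subring.subset_closure (Or.inl (Or.inl ⟨a, ha, rfl⟩))
  have hSZ : ∀ s, algebraMap S F s ∈ Z := fun s =>
    Subring.subset_closure (Or.inl (Or.inr ⟨s, rfl⟩))
  have hZ0 : Subring.closure ((algebraMap K₀ F '' A) ∪ Set.range (algebraMap S F)) ≤ RA := by
    rw [Subring.closure_le]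
    rintro y (⟨a, ha, rfl⟩ | ⟨s, rfl⟩)
    · exact le_lo _ _ (hAZ a ha)
    · exact le_lo _ _ (hSZ s)
  have hRAB : ∀ y ∈ RA, y ∈ B := by
    have hZB : ∀ y ∈ Z, y ∈ B := by
      have : Z ≤ B.toSubring := by
        rw [hZ]
        unfold Cc
        rw [Subring.closure_le]
        rintro y ((⟨a, ha, rfl⟩ | ⟨s, rfl⟩) | ⟨l, rfl⟩)
        · exact hAB a ha
        · exact hSB s
        · exact hYB _
      exact this
    rintro _ ⟨a, ha, c, hc, -, -, rfl⟩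
    exact B.mul_mem (hZB a ha) (B.inv_mem (hZB c hc))
  -- the functions
  have hloc : ∀ m, ∃ (w : F) (k : Fin NA → ℤ), U RA w ∧ (∀ l, |k l| ≤ 3 * C) ∧
      fu (Sum.inl m) = w * Y (∑ l, k l • bA l) := by
    intro m
    obtain ⟨p, hpm, hp0, hpc, hpj⟩ := hf m
    refine loc_fac hY bA hR.mem hR.reg hR.ind hic (hfu _) ?_ (p.map (algebraMap K₀ F))
      (hpm.map _) ?_ ?_ ?_
    · obtain ⟨a, ha, c, hc, hc0, h1⟩ := hBfr _ (hfB m)
      exact ⟨a, hZ0 ha, c, hZ0 hc, hc0, h1⟩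
    · rw [eval_map]
      exact hp0
    · rw [coeff_map]
      exact (_root_.map_ne_zero _).2 hpc
    · intro j
      rw [coeff_map]
      rcases hpj j with h1 | ⟨g, hg, w, hw0, hwA, hwA', h1⟩
      · left
        rw [h1, map_zero]
      · right
        refine ⟨algebraMap K₀ F w, (g, 0), ⟨(_root_.map_ne_zero _).2 hw0, le_lo _ _ (hAZ w hwA), ?_⟩,
          ?_, hC NA bA hdif g hg⟩
        · rw [← map_inv₀]
          exact le_lo _ _ (hAZ _ hwA')
        · rw [h1, map_mul]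
          congr 1
          have h2 : ((g, 0) : Lat0 I T) = ∑ i, g i • X0 T i := by
            ext i
            · simp [X0, Finset.sum_apply, Pi.single_apply, Prod.fst_sum]
            · simp [X0, Prod.snd_sum]
          have h3 : ∀ (κ : Lat0 I T) (z : ℤ), Y (z • κ) = Y κ ^ z := by
            intro κ z
            have h4 := hY.zsmul_map (RingHom.id F) (c := Y κ) (hY.isUnit κ).ne_zero
              (a := κ) rfl z
            simpa using h4
          rw [h2, hY.sum, map_prod]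
          refine Finset.prod_congr rfl fun i _ => ?_
          rw [h3, hYX, map_zpow₀]
  choose w k hw hk hfw using hloc
  refine stb h𝒪 hY bA hR hfu b hb w (fun m => ∑ l, k m l • bA l) hw hfw
    (fun l => Or.inl (hbApos l)) (fun m => hb2 m _ ⟨NA, bA, hdif, fun l => ?_⟩) ?_ ?_
  · have h1 : bA.repr (∑ l, k m l • bA l) l = k m l := by
      rw [map_sum, Finsupp.finsetSum_apply, Finset.sum_eq_single l]
      · rw [map_zsmul, Finsupp.smul_apply, bA.repr_self, Finsupp.single_eq_same, smul_eq_mul,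
          mul_one]
      · intro l' _ hl
        rw [map_zsmul, Finsupp.smul_apply, bA.repr_self, Finsupp.single_eq_of_ne (Ne.symm hl),
          smul_zero]
      · intro h
        exact absurd (Finset.mem_univ l) h
    rw [h1]
    exact hk m l
  · intro p hp
    let inc : RA →+* B := RA.subtype.codRestrict B fun y => hRAB y y.2
    have hinc : Function.Injective inc := by
      intro y y' h
      have := congrArg (fun z : B => (z : F)) h
      exact Subtype.ext this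
    have h1 : MvPolynomial.map inc p = 0 := by
      apply hu
      rw [MvPolynomial.eval₂Hom_map_hom]
      exact hp
    exact MvPolynomial.map_injective inc hinc (by rw [h1, map_zero])
  · intro y hy
    obtain ⟨a, ha, c, hc, hcU, rfl⟩ := hfrac y hy
    have h1 : Cc S A.toSubring (fun l => Yf Y fu (b l)) ≤
        (MvPolynomial.eval₂Hom RA.subtype (fun l => Yf Y fu (b l))).range := by
      unfold Cc
      rw [Subring.closure_le]
      rintro y ((⟨a, ha, rfl⟩ | ⟨s, rfl⟩) | ⟨l, rfl⟩)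
      · exact ⟨MvPolynomial.C ⟨_, le_lo _ _ (hAZ a ha)⟩, by rw [MvPolynomial.eval₂Hom_C]; rfl⟩
      · exact ⟨MvPolynomial.C ⟨_, le_lo _ _ (hSZ s)⟩, by rw [MvPolynomial.eval₂Hom_C]; rfl⟩
      · exact ⟨MvPolynomial.X l, by rw [MvPolynomial.eval₂Hom_X']⟩
    obtain ⟨v', rfl⟩ := h1 ha
    obtain ⟨w', rfl⟩ := h1 hc
    exact ⟨v', w', hcU, rfl⟩

end ver

end Pool.Agent.H865.TS
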